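import Pool.Agent.H.MP_9123af_lc.Fl.Iter

/-!
# Functionals with parent-closed support
-/

namespace Pool.Agent.H.MP_9123af_lc.Fl

open Finset

variable {ι E F : Type} [Fintype ι] [DecidableEq ι] [Fintype E] [DecidableEq E] [Field F]

/-- A family of vectors of `F ^ I` on which no nonzero functional vanishes contains a
nonsingular square matrix. (Used with `V` the set of labels `e` with `φ ⬝ᵥ D₂ e = 0`.) -/
theorem exists_det (I : Finset ι) (V : Set E) (w : E → I → F)
    (h : ∀ c : I → F, (∀ e ∈ V, c ⬝ᵥ w e = 0) → c = 0) :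
    ∃ y : I → E, (∀ j, y j ∈ V) ∧ (Matrix.of fun ρ j : I => w (y j) ρ).det ≠ 0 := by
  classical
  have hspan : Submodule.span F (w '' V) = ⊤ := by
    by_contra hne
    obtain ⟨z, hz⟩ : ∃ z, z ∉ Submodule.span F (w '' V) := by
      by_contra hall
      push Not at hall
      exact hne (eq_top_iff.2 (fun z _ => hall z))
    obtain ⟨φ, hφ, hφ'⟩ := Submodule.exists_le_ker_of_notMem hz
    have hfx : ∀ x : I → F, φ x = (fun i => φ (Pi.single i 1)) ⬝ᵥ x := by
      intro x
      have hx : x = ∑ i, x i • Pi.single i (1 : F) := by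
        funext j
        rw [Finset.sum_apply, Finset.sum_eq_single j]
        · simp
        · intro k _ hk
          rw [Pi.smul_apply, Pi.single_eq_of_ne (Ne.symm hk), smul_zero]
        · intro h; exact absurd (Finset.mem_univ _) h
      conv_lhs => rw [hx]
      rw [map_sum, dotProduct]
      apply Finset.sum_congr rfl
      intro i _
      rw [map_smul, smul_eq_mul, mul_comm]
    have h1 := h (fun i => φ (Pi.single i 1)) (fun e he => by
      rw [← hfx]
      exact hφ' (Submodule.subset_span ⟨e, he, rfl⟩))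
    apply hφ
    rw [hfx, h1, zero_dotProduct]
  obtain ⟨b, hb, hbs, hbl⟩ := exists_linearIndependent F (w '' V)
  have hbs' : ⊤ ≤ Submodule.span F (Set.range ((↑) : b → (I → F))) := by
    rw [Subtype.range_coe, hbs, hspan]
  let Bs := Module.Basis.mk hbl hbs'
  haveI : Fintype b := FiniteDimensional.fintypeBasisIndex Bs
  have hcard := Module.finrank_eq_card_basis Bs
  rw [Module.finrank_fintype_fun_eq_card] at hcard
  let e : I ≃ b := Fintype.equivOfCardEq hcard
  choose y hyV hy using fun j : I => hb (e j).2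
  refine ⟨y, hyV, ?_⟩
  have hli : LinearIndependent F (fun j : I => ((e j : b) : I → F)) := hbl.comp _ e.injective
  have hu : IsUnit (Matrix.of fun ρ j : I => w (y j) ρ) := by
    rw [← Matrix.linearIndependent_cols_iff_isUnit]
    have hcol : (Matrix.of fun ρ j : I => w (y j) ρ).col = fun j : I => ((e j : b) : I → F) := by
      funext j ρ
      rw [← hy j]
      rfl
    rw [hcol]
    exact hli
  exact ((Matrix.isUnit_iff_isUnit_det _).1 hu).ne_zero

/-- PROOF. Let `φ ≠ 0` have parent-closed support. Put `g x = (f x).symm (φ x / φ (p x))` if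
`dep x ≠ 0` and `φ x ≠ 0`, and `g x = 0` otherwise. By induction on `dep x`,
`φ x = φ (p^[dep x] x) * wt p dep (ap f g) x`. Let `I` be the set of roots `ρ` with `φ ρ ≠ 0`
(nonempty, as the support is parent-closed), so `φ = ∑ ρ ∈ I, φ ρ • rowOf p dep ρ (ap f g)`.
Let `V = {e | φ ⬝ᵥ D₂ e = 0}` and `w e ρ = rowOf p dep ρ g ⬝ᵥ D₁ e`. If some `c ≠ 0` kills all
`w e`, `e ∈ V`, then `θ = ∑ c ρ • rowOf p dep ρ g` does (`θ ρ = c ρ`, so `θ ≠ 0`). Otherwise
`exists_det` gives `y` with `det Z₁ ≠ 0`, while `∑ ρ, φ ρ * (rowOf p dep ρ (ap f g) ⬝ᵥ D₂ (y j))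
= φ ⬝ᵥ D₂ (y j) = 0`, so `det Z₂ = 0`, contradicting `hdet`. -/
theorem base_case (p : ι → ι) (dep : ι → ℕ) (hp : Forest p dep) (f : ι → F ≃ F)
    (hf : ∀ x, f x 0 = 0) (D₁ D₂ : E → ι → F)
    (hdet : ∀ (I : Finset ι), (∀ ρ ∈ I, dep ρ = 0) → ∀ (y : I → E) (g : I → ι → F),
      (Matrix.of fun ρ j : I => rowOf p dep (ρ : ι) (ap f (g ρ)) ⬝ᵥ D₂ (y j)).det = 0 →
      (Matrix.of fun ρ j : I => rowOf p dep (ρ : ι) (g ρ) ⬝ᵥ D₁ (y j)).det = 0)
    (φ : ι → F) (hφ : φ ≠ 0) (hpc : ∀ x, φ x ≠ 0 → φ (p x) ≠ 0) :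
    ∃ θ : ι → F, θ ≠ 0 ∧ ∀ e, φ ⬝ᵥ D₂ e = 0 → θ ⬝ᵥ D₁ e = 0 := by
  classical
  by_contra hcon
  push Not at hcon
  have hdep_top : ∀ (n : ℕ) (x : ι), dep x = n → dep (p^[n] x) = 0 := by
    intro n
    induction n with
    | zero => intro x hx; exact hx
    | succ n ih =>
      intro x hx
      rw [Function.iterate_succ_apply]
      apply ih
      have := hp.step x (by omega)
      omega
  have htop_root : ∀ x, dep x = 0 → p^[dep x] x = x := by
    intro x hx; rw [hx]; rfl
  set g : ι → F := fun x => if dep x ≠ 0 ∧ φ x ≠ 0 then (f x).symm (φ x / φ (p x)) else 0 with hg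
  have hapg : ∀ x, ap f g x = if dep x ≠ 0 ∧ φ x ≠ 0 then φ x / φ (p x) else 0 := by
    intro x
    by_cases h : dep x ≠ 0 ∧ φ x ≠ 0
    · simp only [ap, hg, if_pos h, Equiv.apply_symm_apply]
    · simp only [ap, hg, if_neg h, hf]
  have hfac : ∀ (n : ℕ) (x : ι), dep x = n → φ x = φ (p^[n] x) * wt p dep (ap f g) x := by
    intro n
    induction n with
    | zero =>
      intro x hx
      simp [wt, hx]
    | succ n ih =>
      intro x hx
      have hx0 : dep x ≠ 0 := by omega
      have hst := hp.step x hx0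
      rw [Function.iterate_succ_apply, wt_step p dep hp _ x hx0]
      have h1 := ih (p x) (by omega)
      rw [mul_left_comm, ← h1, hapg]
      by_cases hφx : φ x = 0
      · rw [if_neg (fun h => h.2 hφx), zero_mul, hφx]
      · rw [if_pos ⟨hx0, hφx⟩, div_mul_cancel₀ _ (hpc x hφx)]
  let I : Finset ι := univ.filter (fun x => dep x = 0 ∧ φ x ≠ 0)
  have hI : ∀ ρ ∈ I, dep ρ = 0 := fun ρ hρ => (mem_filter.1 hρ).2.1
  have hsum : ∀ x, φ x = ∑ ρ : I, φ ρ * rowOf p dep (ρ : ι) (ap f g) x := by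
    intro x
    by_cases hx : φ (p^[dep x] x) = 0
    · rw [hfac (dep x) x rfl, hx, zero_mul, eq_comm]
      apply Finset.sum_eq_zero
      intro ρ _
      unfold rowOf
      rw [if_neg, mul_zero]
      intro h
      have h2 := (mem_filter.1 ρ.2).2.2
      rw [← h] at h2
      exact h2 hx
    · have hmem : p^[dep x] x ∈ I := mem_filter.2 ⟨mem_univ _, hdep_top _ x rfl, hx⟩
      rw [Finset.sum_eq_single ⟨p^[dep x] x, hmem⟩]
      · unfold rowOf
        rw [if_pos rfl, ← hfac (dep x) x rfl]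
      · intro ρ _ hρ
        unfold rowOf
        rw [if_neg, mul_zero]
        intro h
        exact hρ (Subtype.ext h.symm)
      · intro h; exact absurd (mem_univ _) h
  have hsum' : φ = ∑ ρ : I, φ ρ • rowOf p dep (ρ : ι) (ap f g) := by
    funext x
    rw [Finset.sum_apply]
    exact hsum x
  obtain ⟨y, hyV, hydet⟩ := exists_det I {e | φ ⬝ᵥ D₂ e = 0}
    (fun e ρ => rowOf p dep (ρ : ι) g ⬝ᵥ D₁ e) (by
      intro c hc
      have hθ : ∑ ρ : I, c ρ • rowOf p dep (ρ : ι) g = 0 := by
        by_contra hne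
        obtain ⟨e, he, he'⟩ := hcon _ hne
        apply he'
        rw [sum_dotProduct]
        have h1 := hc e he
        rw [dotProduct] at h1
        rw [← h1]
        apply Finset.sum_congr rfl
        intro ρ _
        rw [smul_dotProduct, smul_eq_mul]
      funext ρ
      have h1 := congrFun hθ (ρ : ι)
      rw [Finset.sum_apply, Finset.sum_eq_single ρ] at h1
      · rw [Pi.smul_apply, smul_eq_mul] at h1
        unfold rowOf at h1
        rw [if_pos (htop_root _ (hI _ ρ.2))] at h1
        simpa [wt, hI _ ρ.2] using h1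
      · intro ρ' _ hρ'
        rw [Pi.smul_apply, smul_eq_mul]
        unfold rowOf
        rw [if_neg, mul_zero]
        rw [htop_root _ (hI _ ρ.2)]
        intro h
        exact hρ' (Subtype.ext h.symm)
      · intro h; exact absurd (mem_univ _) h)
  apply hydet
  refine hdet I hI y (fun _ => g) ?_
  rw [← Matrix.exists_vecMul_eq_zero_iff]
  refine ⟨fun ρ => φ ρ, ?_, ?_⟩
  · intro h0
    apply hφ
    funext x
    rw [hsum x]
    apply Finset.sum_eq_zero
    intro ρ _
    have := congrFun h0 ρ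
    simp only [Pi.zero_apply] at this
    rw [this, zero_mul]
  · funext j
    have h1 : φ ⬝ᵥ D₂ (y j) = 0 := hyV j
    rw [hsum', sum_dotProduct] at h1
    rw [Pi.zero_apply, ← h1]
    simp only [Matrix.vecMul, dotProduct, Matrix.of_apply]
    apply Finset.sum_congr rfl
    intro ρ _
    simp only [Pi.smul_apply, smul_eq_mul, Finset.mul_sum, mul_assoc]

end Pool.Agent.H.MP_9123af_lc.Fl
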