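import Pool.Agent.H.MP_9123af_lc.Fl.St

/-!
# Contexts of small complexity
-/

namespace Pool.Agent.H.MP_9123af_lc.Fl

open Finset

variable {ι F : Type} [Fintype ι] [DecidableEq ι] [Field F]

theorem Ctx_dep_iter {p : ι → ι} {dep : ι → ℕ} (hp : Forest p dep) (x : ι) (i : ℕ) :
    dep (p^[i] x) = dep x - i := by
  induction i generalizing x with
  | zero => rfl
  | succ i ih =>
    rw [Function.iterate_succ_apply, ih]
    by_cases h : dep x = 0
    · rw [(hp.root_iff x).1 h, h]
      omega
    · have := hp.step x h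
      omega

theorem Ctx_root_iter {p : ι → ι} {dep : ι → ℕ} (hp : Forest p dep) {x : ι} (h : dep x = 0)
    (i : ℕ) : p^[i] x = x := by
  have h1 := (hp.root_iff x).1 h
  exact Function.iterate_fixed h1 i

theorem Ctx_below {p : ι → ι} {dep : ι → ℕ} (hp : Forest p dep) {v x : ι} (h : Below p v x) :
    p^[dep x - dep v] x = v ∧ dep v ≤ dep x := by
  obtain ⟨i, hi⟩ := h
  have h1 := Ctx_dep_iter hp x i
  rw [hi] at h1
  refine ⟨?_, by omega⟩
  by_cases h2 : i ≤ dep x
  · have h3 : dep x - dep v = i := by omega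
    rw [h3, hi]
  · have h3 : dep x - dep v = dep x := by omega
    rw [h3, ← hi]
    have h4 : p^[i] x = p^[i - dep x] (p^[dep x] x) := by
      rw [← Function.iterate_add_apply]
      congr 2
      omega
    have h5 : p^[i - dep x] (p^[dep x] x) = p^[dep x] x :=
      Ctx_root_iter hp (by rw [Ctx_dep_iter hp]; omega) _
    rw [h4, h5]

theorem Ctx_refl (p : ι → ι) (v : ι) : Below p v v := ⟨0, rfl⟩

theorem Ctx_trans {p : ι → ι} {u v w : ι} (h : Below p u v) (h' : Below p v w) :
    Below p u w := by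
  obtain ⟨i, rfl⟩ := h
  obtain ⟨j, rfl⟩ := h'
  exact ⟨i + j, Function.iterate_add_apply p i j w⟩

theorem Ctx_eq {p : ι → ι} {dep : ι → ℕ} (hp : Forest p dep) {v x : ι} (h : Below p v x)
    (hd : dep x ≤ dep v) : x = v := by
  obtain ⟨h1, h2⟩ := Ctx_below hp h
  have h3 : dep x - dep v = 0 := by omega
  rw [h3] at h1
  exact h1

theorem Ctx_par (p : ι → ι) (v : ι) : Below p (p v) v := ⟨1, rfl⟩

theorem Ctx_not_par {p : ι → ι} {dep : ι → ℕ} (hp : Forest p dep) {v : ι} (hv : dep v ≠ 0) :
    ¬ Below p v (p v) := by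
  intro h
  have h1 := (Ctx_below hp h).2
  have h2 := hp.step v hv
  omega

theorem Ctx_root {p : ι → ι} {dep : ι → ℕ} (hp : Forest p dep) {z x : ι} (h : Below p z x)
    (hz : dep z = 0) : p^[dep x] x = z := by
  have h1 := (Ctx_below hp h).1
  rwa [hz, Nat.sub_zero] at h1

open Classical in
/-- the gain function `α` below `v`, `s` at `v` and `g` elsewhere -/
noncomputable def Ctx_G (p : ι → ι) (v : ι) (g α : ι → F) (s : F) : ι → F := fun z =>
  if ¬ Below p v z then g z else if z = v then s else α z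

theorem Ctx_tot (p : ι → ι) (dep : ι → ℕ) (hp : Forest p dep) (a g α : ι → F) (s : F) (v : ι)
    (hv : dep v ≠ 0) (hg : g v = 0) :
    tot p dep a (Ctx_G p v g α s) = tot p dep a g + wt p dep g (p v) * s * st p dep a α v := by
  have h1 := tot_diff p dep hp a (Ctx_G p v g α s) g v hv (fun x hx => by
    unfold Ctx_G
    rw [if_pos hx])
  have h2 : Ctx_G p v g α s v = s := by
    unfold Ctx_G
    rw [if_neg (not_not.2 (Ctx_refl p v)), if_pos rfl]
  have h3 : st p dep a (Ctx_G p v g α s) v = st p dep a α v := by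
    apply st_congr p dep hp
    intro x hx hxv
    unfold Ctx_G
    rw [if_neg (not_not.2 hx), if_neg hxv]
  have h4 : wt p dep (Ctx_G p v g α s) (p v) = wt p dep g (p v) := by
    apply wt_congr p dep hp
    intro z hz hz0
    unfold Ctx_G
    rw [if_pos]
    intro h
    exact Ctx_not_par hp hv (Ctx_trans h hz)
  rw [h2, h3, h4, hg, zero_mul, sub_zero] at h1
  linear_combination h1

theorem Ctx_ap (f : ι → F ≃ F) (p : ι → ι) (v : ι) (g α : ι → F) (s : F) :
    ap f (Ctx_G p v g α s) = Ctx_G p v (ap f g) (ap f α) (f v s) := by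
  funext z
  unfold ap Ctx_G
  split_ifs with h1 h2
  · rw [h2]
  · rfl
  · rfl

theorem Ctx_ap_ne {f : ι → F ≃ F} (hf : ∀ x, f x 0 = 0) (g : ι → F) (z : ι) :
    ap f g z ≠ 0 ↔ g z ≠ 0 := by
  unfold ap
  constructor
  · intro h h1
    rw [h1, hf] at h
    exact h rfl
  · intro h h1
    apply h
    rw [← hf z] at h1
    exact (f z).injective h1

/-- Contexts: outside the subtree of `v` there is a gain function of small complexity with
nonzero total that keeps the path from `p v` to the root.
PROOF. Let `X` be the set of all `z` with `Below p z x ∨ Below p z (p v)`; `v` is not in `X`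
(and nothing in `X` is below `v`). Let `g` be `δ` on `X` and `0` elsewhere. Suppose `g` and all
the functions obtained from `g` by changing the value at one non-root `z ∈ X` to another nonzero
value have total `0`. By `tot_diff` (and `wt g (p z) ≠ 0`) all states `st a g z`, `z ∈ X`
not a root, are `0`, and the state at the root is the total (`tot_eq_st`), so `0`. Now
`st_rec` at `x`: the children of `x` in `X` have state `0`, the others have gain `0`, so
`a x = st a g x = 0`, a contradiction. -/
theorem exists_context (p : ι → ι) (dep : ι → ℕ) (hp : Forest p dep) (δ : ι → F)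
    (hδ : ∀ x, δ x ≠ 0) (hF : ∃ μ : F, μ ≠ 0 ∧ μ ≠ 1) (r : ι) (a : ι → F)
    (ha : ∀ x, a x ≠ 0 → p^[dep x] x = r) (v : ι) (hv : dep v ≠ 0) (hvr : p^[dep v] v = r)
    (x : ι) (hx : a x ≠ 0) (hxv : ¬ Below p v x) :
    ∃ (g : ι → F) (N : Finset ι), (∀ z, g z ≠ 0 → ¬ Below p v z) ∧ N.card ≤ 1 ∧
      (∀ z, g z ≠ 0 → Below p z x ∨ Below p z v) ∧ (∀ z, g z ≠ 0 → g z ≠ δ z → z ∈ N) ∧
      wt p dep g (p v) ≠ 0 ∧ tot p dep a g ≠ 0 := by
  classical
  obtain ⟨μ, hμ0, hμ1⟩ := hF
  have hr : dep r = 0 := by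
    rw [← ha x hx, Ctx_dep_iter hp]
    omega
  obtain ⟨X, hX⟩ : ∃ X : ι → Prop, X = fun z => Below p z x ∨ Below p z (p v) := ⟨_, rfl⟩
  have hXup : ∀ y z, Below p y z → X z → X y := by
    intro y z h1 h2
    rw [hX] at h2 ⊢
    rcases h2 with h2 | h2
    · exact Or.inl (Ctx_trans h1 h2)
    · exact Or.inr (Ctx_trans h1 h2)
  have hXx : X x := by
    rw [hX]
    exact Or.inl (Ctx_refl p x)
  have hXv : X (p v) := by
    rw [hX]
    exact Or.inr (Ctx_refl p _)
  have hXnot : ∀ z, X z → ¬ Below p v z := by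
    intro z h1 h2
    rw [hX] at h1
    rcases h1 with h1 | h1
    · exact hxv (Ctx_trans h2 h1)
    · exact Ctx_not_par hp hv (Ctx_trans h2 h1)
  have hXor : ∀ z, X z → Below p z x ∨ Below p z v := by
    intro z h1
    rw [hX] at h1
    rcases h1 with h1 | h1
    · exact Or.inl h1
    · exact Or.inr (Ctx_trans h1 (Ctx_par p v))
  have hXroot : ∀ z, X z → dep z = 0 → z = r := by
    intro z h1 h2
    rw [hX] at h1
    rcases h1 with h1 | h1
    · rw [← Ctx_root hp h1 h2]
      exact ha x hx
    · rw [← Ctx_root hp (Ctx_trans h1 (Ctx_par p v)) h2]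
      exact hvr
  obtain ⟨g, hg⟩ : ∃ g : ι → F, g = fun z => if X z then δ z else 0 := ⟨_, rfl⟩
  have hgX : ∀ z, X z → g z = δ z := fun z hz => by rw [hg]; exact if_pos hz
  have hgn : ∀ z, ¬ X z → g z = 0 := fun z hz => by rw [hg]; exact if_neg hz
  have hgXi : ∀ z, g z ≠ 0 → X z := fun z hz => by
    by_contra h
    exact hz (hgn z h)
  by_contra hcon
  -- the total of `g`
  have h0 : tot p dep a g = 0 := by
    by_contra h
    refine hcon ⟨g, ∅, fun z hz => hXnot z (hgXi z hz), by simp,
      fun z hz => hXor z (hgXi z hz), fun z hz hz' => absurd (hgX z (hgXi z hz)) hz', ?_, h⟩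
    rw [wt_ne_zero_iff p dep hp]
    intro z hz _
    rw [hgX z (hXup _ _ hz hXv)]
    exact hδ z
  have h1 : ∀ z, X z → dep z ≠ 0 → st p dep a g z = 0 := by
    intro z hz hz0
    obtain ⟨g', hg'⟩ : ∃ g' : ι → F, g' = Function.update g z (μ * δ z) := ⟨_, rfl⟩
    have hg'z : g' z = μ * δ z := by rw [hg', Function.update_self]
    have hg'n : ∀ y, y ≠ z → g' y = g y := fun y hy => by
      rw [hg', Function.update_of_ne hy]
    have hg'X : ∀ y, g' y ≠ 0 → X y := by
      intro y hy
      by_cases hyz : y = z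
      · rw [hyz]
        exact hz
      · rw [hg'n y hyz] at hy
        exact hgXi y hy
    have h2 : tot p dep a g' = 0 := by
      by_contra h
      refine hcon ⟨g', {z}, fun y hy => hXnot y (hg'X y hy), by simp,
        fun y hy => hXor y (hg'X y hy), fun y hy hy' => ?_, ?_, h⟩
      · by_contra h3
        rw [Finset.mem_singleton] at h3
        rw [hg'n y h3] at hy'
        exact hy' (hgX y (hg'X y hy))
      · rw [wt_ne_zero_iff p dep hp]
        intro y hy _
        by_cases hyz : y = z
        · rw [hyz, hg'z]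
          exact mul_ne_zero hμ0 (hδ z)
        · rw [hg'n y hyz, hgX y (hXup _ _ hy hXv)]
          exact hδ y
    have h3 := tot_diff p dep hp a g g' z hz0 (fun y hy => by
      rw [hg'n]
      rintro rfl
      exact hy (Ctx_refl p _))
    have h4 : st p dep a g' z = st p dep a g z := by
      apply st_congr p dep hp
      intro y _ hy
      exact hg'n y hy
    have h5 : wt p dep g (p z) ≠ 0 := by
      rw [wt_ne_zero_iff p dep hp]
      intro y hy _
      rw [hgX y (hXup _ _ (Ctx_trans hy (Ctx_par p z)) hz)]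
      exact hδ y
    rw [h0, h2, h4, hg'z, hgX z hz, sub_zero] at h3
    have h6 : wt p dep g (p z) * (δ z * (1 - μ)) * st p dep a g z = 0 := by
      linear_combination -h3
    rcases mul_eq_zero.1 h6 with h7 | h7
    · exfalso
      exact mul_ne_zero h5 (mul_ne_zero (hδ z) (sub_ne_zero.2 (Ne.symm hμ1))) h7
    · exact h7
  have h2 : ∀ z, X z → st p dep a g z = 0 := by
    intro z hz
    by_cases hz0 : dep z = 0
    · rw [hXroot z hz hz0, ← tot_eq_st p dep hp a g r hr ha]
      exact h0
    · exact h1 z hz hz0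
  have h3 := st_rec p dep hp a g x
  rw [h2 x hXx, Finset.sum_eq_zero (fun c _ => by
    by_cases hc : X c
    · rw [h2 c hc, mul_zero]
    · rw [hgn c hc, zero_mul]), add_zero] at h3
  exact hx h3.symm

/-- Two local gain functions of small complexity with the same state in the first system have
the same state in the second; a zero state in the first gives a zero state in the second.
PROOF. Let `g₀, N` be the context of `exists_context`, `R = tot a g₀ ≠ 0`, so
`R' = tot b (ap f g₀) ≠ 0` by `hyp`. For a local `α` and `s : F` let `G z` be `g₀ z` if `z` is not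
below `v`, `s` if `z = v`, `α z` otherwise. `G` has complexity `(k + 2, c + 2)` (witnesses
`W ∪ {x, v}`, `N_α ∪ N ∪ {v}`), and by `tot_diff` (with `g' = g₀`, zero at and below `v`)
`tot a G = R + κ * s * st a α v`, `tot b (ap f G) = R' + κ' * f v s * st b (ap f α) v` with
`κ = wt g₀ (p v) ≠ 0` and `κ' = wt (ap f g₀) (p v) ≠ 0`. So the two expressions vanish
together, for all `s`. If `st a α v = 0`, the first never vanishes, so the second never does;
as `f v` is onto, `st b (ap f α) v = 0`. If the state `t` of `α` and `β` is nonzero take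
`s = - R / (κ * t)`: both firsts vanish, so both seconds, and `f v s ≠ 0`. -/
theorem state_eq (p : ι → ι) (dep : ι → ℕ) (hp : Forest p dep) (f : ι → F ≃ F)
    (hf : ∀ x, f x 0 = 0) (δ : ι → F) (hδ : ∀ x, δ x ≠ 0) (hF : ∃ μ : F, μ ≠ 0 ∧ μ ≠ 1) (r : ι)
    (hr : dep r = 0) (a b : ι → F) (hab : ∀ x, a x = 0 ↔ b x = 0)
    (ha : ∀ x, a x ≠ 0 → p^[dep x] x = r) (K C k c : ℕ) (hK : k + 2 ≤ K) (hC : c + 2 ≤ C)
    (hyp : ∀ g : ι → F, Cx p δ K C g → (tot p dep a g = 0 ↔ tot p dep b (ap f g) = 0))
    (v : ι) (hv : dep v ≠ 0) (hvr : p^[dep v] v = r)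
    (x : ι) (hx : a x ≠ 0) (hxv : ¬ Below p v x) (α β : ι → F) (hα : Loc p v α)
    (hβ : Loc p v β) (hαc : Cx p δ k c α) (hβc : Cx p δ k c β)
    (hst : st p dep a α v = st p dep a β v) :
    st p dep b (ap f α) v = st p dep b (ap f β) v ∧
      (st p dep a α v = 0 → st p dep b (ap f α) v = 0) := by
  classical
  obtain ⟨g, N, g1, g2, g3, g4, g5, g6⟩ := exists_context p dep hp δ hδ hF r a ha v hv hvr x hx hxv
  have hgv : g v = 0 := by
    by_contra h
    exact g1 v h (Ctx_refl p v)
  have hxN : ({x, v} : Finset ι).card ≤ 2 := Finset.card_le_two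
  have hR' : tot p dep b (ap f g) ≠ 0 := by
    intro h
    apply g6
    rw [hyp g ⟨{x, v}, N, by omega, by omega, fun z hz => ?_, g4⟩]
    · exact h
    · rcases g3 z hz with h1 | h1
      · exact ⟨x, by simp, h1⟩
      · exact ⟨v, by simp, h1⟩
  have hκ' : wt p dep (ap f g) (p v) ≠ 0 := by
    rw [wt_ne_zero_iff p dep hp] at g5 ⊢
    intro z hz hz0
    rw [Ctx_ap_ne hf]
    exact g5 z hz hz0
  have hgv' : ap f g v = 0 := by
    unfold ap
    rw [hgv, hf]
  -- the comparison
  have key : ∀ (γ : ι → F), Loc p v γ → Cx p δ k c γ → ∀ s : F,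
      (tot p dep a g + wt p dep g (p v) * s * st p dep a γ v = 0 ↔
        tot p dep b (ap f g) + wt p dep (ap f g) (p v) * f v s * st p dep b (ap f γ) v = 0) := by
    intro γ hγ hγc s
    obtain ⟨W, Nγ, w1, w2, w3, w4⟩ := hγc
    rw [← Ctx_tot p dep hp a g γ s v hv hgv, ← Ctx_tot p dep hp b (ap f g) (ap f γ) (f v s) v hv hgv',
      ← Ctx_ap]
    apply hyp
    refine ⟨W ∪ {x, v}, Nγ ∪ (N ∪ {v}), ?_, ?_, fun z hz => ?_, fun z hz hz' => ?_⟩
    · have := Finset.card_union_le W {x, v}
      omega
    · have h1 := Finset.card_union_le Nγ (N ∪ {v})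
      have h2 := Finset.card_union_le N {v}
      have h3 : ({v} : Finset ι).card = 1 := Finset.card_singleton v
      omega
    · unfold Ctx_G at hz
      split_ifs at hz with h1 h2
      · exact ⟨v, by simp, by rw [h2]; exact Ctx_refl p v⟩
      · obtain ⟨w, hw, hw'⟩ := w3 z hz
        exact ⟨w, Finset.mem_union_left _ hw, hw'⟩
      · rcases g3 z hz with h3 | h3
        · exact ⟨x, by simp, h3⟩
        · exact ⟨v, by simp, h3⟩
    · unfold Ctx_G at hz hz'
      split_ifs at hz hz' with h1 h2
      · rw [h2]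
        simp
      · exact Finset.mem_union_left _ (w4 z hz hz')
      · exact Finset.mem_union_right _ (Finset.mem_union_left _ (g4 z hz hz'))
  have zero : ∀ (γ : ι → F), Loc p v γ → Cx p δ k c γ → st p dep a γ v = 0 →
      st p dep b (ap f γ) v = 0 := by
    intro γ hγ hγc h1
    by_contra h2
    obtain ⟨s, hs⟩ := (f v).surjective
      (-(tot p dep b (ap f g)) / (wt p dep (ap f g) (p v) * st p dep b (ap f γ) v))
    have h3 := (key γ hγ hγc s).2 (by
      rw [hs]
      field_simp
      ring)
    rw [h1, mul_zero, add_zero] at h3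
    exact g6 h3
  refine ⟨?_, zero α hα hαc⟩
  by_cases ht : st p dep a α v = 0
  · rw [zero α hα hαc ht, zero β hβ hβc (by rw [← hst]; exact ht)]
  · obtain ⟨s, hs⟩ : ∃ s, s = -(tot p dep a g) / (wt p dep g (p v) * st p dep a α v) := ⟨_, rfl⟩
    have hs0 : s ≠ 0 := by
      rw [hs]
      exact div_ne_zero (neg_ne_zero.2 g6) (mul_ne_zero g5 ht)
    have hfs : f v s ≠ 0 := by
      intro h
      rw [← hf v] at h
      exact hs0 ((f v).injective h)
    have e1 : tot p dep a g + wt p dep g (p v) * s * st p dep a α v = 0 := by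
      rw [hs]
      field_simp
      ring
    have h1 := (key α hα hαc s).1 e1
    have h2 := (key β hβ hβc s).1 (by rw [← hst]; exact e1)
    have h3 : wt p dep (ap f g) (p v) * f v s *
        (st p dep b (ap f α) v - st p dep b (ap f β) v) = 0 := by
      linear_combination h1 - h2
    rcases mul_eq_zero.1 h3 with h4 | h4
    · exact absurd h4 (mul_ne_zero hκ' hfs)
    · exact sub_eq_zero.1 h4

/-- If `a` does not vanish below `v` (outside `v`), some child `c` of `v` has a nonzero state for
a gain function that is local at `c`, of complexity `(1, 1)`.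
PROOF. Let `w` be below `v`, `w ≠ v`, `a w ≠ 0`, `c = p^[dep w - dep v - 1] w`, `X` the set of all
`z` with `Below p z w` and `Below p c z`, `z ≠ c`, and `g = δ` on `X`, `0` elsewhere. Suppose the
state at `c` is `0` for `g` and for all functions that differ from `g` at one point of `X` by
another nonzero value. Then (as in `exists_context`; the states satisfy the same difference
formula, apply `tot_diff`-like reasoning or induct along the path from `c` down to `w`
with `st_rec`) all states `st a g z`, `z` between `c` and `w`, are zero, and at `w` the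
state is `a w`, a contradiction. (Alternative: take `w` of smallest depth, then
`st a g c` is the product of defaults times `a w`.) -/
theorem exists_child (p : ι → ι) (dep : ι → ℕ) (hp : Forest p dep) (δ : ι → F)
    (hδ : ∀ x, δ x ≠ 0) (hF : ∃ μ : F, μ ≠ 0 ∧ μ ≠ 1) (a : ι → F) (v w : ι)
    (hw : Below p v w) (hwv : w ≠ v) (haw : a w ≠ 0) :
    ∃ (c : ι) (g : ι → F), p c = v ∧ dep c ≠ 0 ∧ Loc p c g ∧ Cx p δ 1 1 g ∧
      st p dep a g c ≠ 0 := by
  classical
  -- choose `w` of smallest depth
  obtain ⟨w0, hw0, hmin⟩ := Finset.exists_min_image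
    (univ.filter (fun y => Below p v y ∧ y ≠ v ∧ a y ≠ 0)) dep
    ⟨w, by rw [Finset.mem_filter]; exact ⟨Finset.mem_univ _, hw, hwv, haw⟩⟩
  obtain ⟨-, b1, b2, b3⟩ := Finset.mem_filter.1 hw0
  have hmin' : ∀ y, Below p v y → y ≠ v → a y ≠ 0 → dep w0 ≤ dep y := fun y h1 h2 h3 =>
    hmin y (by rw [Finset.mem_filter]; exact ⟨Finset.mem_univ _, h1, h2, h3⟩)
  obtain ⟨c1, c2⟩ := Ctx_below hp b1
  have hlt : dep v < dep w0 := by
    rcases lt_or_ge (dep v) (dep w0) with h | h
    · exact h
    · exact absurd (Ctx_eq hp b1 h) b2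
  obtain ⟨c, hc⟩ : ∃ c, c = p^[dep w0 - dep v - 1] w0 := ⟨_, rfl⟩
  have hcd : dep c = dep v + 1 := by
    rw [hc, Ctx_dep_iter hp]
    omega
  have hpc : p c = v := by
    rw [hc, ← Function.iterate_succ_apply' p]
    have h1 : (dep w0 - dep v - 1).succ = dep w0 - dep v := by omega
    rw [h1]
    exact c1
  have hcw : Below p c w0 := ⟨_, hc.symm⟩
  have hvc : Below p v c := ⟨1, hpc⟩
  obtain ⟨g, hg⟩ : ∃ g : ι → F, g = fun z =>
    if Below p z w0 ∧ Below p c z ∧ z ≠ c then δ z else 0 := ⟨_, rfl⟩
  have hgi : ∀ z, g z ≠ 0 → Below p z w0 ∧ Below p c z ∧ z ≠ c := by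
    intro z hz
    by_contra h
    apply hz
    rw [hg]
    exact if_neg h
  have hgX : ∀ z, (Below p z w0 ∧ Below p c z ∧ z ≠ c) → g z = δ z := by
    intro z hz
    rw [hg]
    exact if_pos hz
  refine ⟨c, g, hpc, by omega, fun z hz => (hgi z hz).2, ⟨{w0}, ∅, by simp, by simp,
    fun z hz => ⟨w0, by simp, (hgi z hz).1⟩, fun z hz hz' => absurd (hgX z (hgi z hz)) hz'⟩, ?_⟩
  unfold st
  rw [Finset.sum_eq_single w0]
  · apply mul_ne_zero _ b3
    rw [Finset.prod_ne_zero_iff]
    intro i hi
    rw [Finset.mem_range] at hi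
    have hd := Ctx_dep_iter hp w0 i
    rw [hgX]
    · exact hδ _
    · refine ⟨⟨i, rfl⟩, ?_, ?_⟩
      · obtain ⟨e1, e2⟩ := Ctx_below hp hcw
        refine ⟨dep w0 - dep c - i, ?_⟩
        rw [← Function.iterate_add_apply]
        have h1 : dep w0 - dep c - i + i = dep w0 - dep c := by omega
        rw [h1]
        exact e1
      · intro h
        rw [h] at hd
        omega
  · intro y hy hyw
    rw [Finset.mem_filter] at hy
    by_contra h
    have hay : a y ≠ 0 := right_ne_zero_of_mul h
    have hpr := left_ne_zero_of_mul h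
    rw [Finset.prod_ne_zero_iff] at hpr
    have hyv : y ≠ v := by
      rintro rfl
      have := (Ctx_below hp hy.2).2
      omega
    have h1 := hmin' y (Ctx_trans hvc hy.2) hyv hay
    have h2 : Below p y w0 := by
      by_cases hd : dep y = dep c
      · rw [Ctx_eq hp hy.2 (by omega)]
        exact hcw
      · have h3 := (Ctx_below hp hy.2).2
        have h4 := hpr 0 (Finset.mem_range.2 (by omega))
        exact (hgi y h4).1
    exact hyw (Ctx_eq hp h2 h1).symm
  · intro h
    exfalso
    apply h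
    rw [Finset.mem_filter]
    exact ⟨Finset.mem_univ _, hcw⟩

end Pool.Agent.H.MP_9123af_lc.Fl
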