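import Pool.Agent.H.MP_9123af_lc.HubFinal

/-!
# Forests of full lines: definitions

`p : ι → ι` is the parent map of a rooted forest on the index set `ι` of the basis (the roots
are the fixed points of `p`), `dep` the depth. A gain function `g : ι → F` gives the functional
`wt p dep g`, whose coordinate at `x` is the product of the gains on the path from `x` to its
root (the gain of `x` belongs to the edge from `x` to `p x`; gain `0` cuts the edge).
-/

namespace Pool.Agent.H.MP_9123af_lc.Fl

open Finset

/-- `p` is the parent map of a rooted forest and `dep` its depth function. -/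
structure Forest {ι : Type} (p : ι → ι) (dep : ι → ℕ) : Prop where
  root_iff : ∀ x, dep x = 0 ↔ p x = x
  step : ∀ x, dep x ≠ 0 → dep x = dep (p x) + 1

/-- Product of the gains on the path from `x` to its root. -/
def wt {ι F : Type} [Field F] (p : ι → ι) (dep : ι → ℕ) (g : ι → F) (x : ι) : F :=
  ∏ i ∈ range (dep x), g (p^[i] x)

/-- Value of the functional of `g` at the vector `a`. -/
def tot {ι F : Type} [Fintype ι] [Field F] (p : ι → ι) (dep : ι → ℕ) (a g : ι → F) : F :=
  ∑ x, wt p dep g x * a x

/-- `x` lies in the subtree of `v`. -/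
def Below {ι : Type} (p : ι → ι) (v x : ι) : Prop := ∃ i : ℕ, p^[i] x = v

open Classical in
/-- The state at `v`: the sum over the subtree of `v`, normalised at `v`. -/
noncomputable def st {ι F : Type} [Fintype ι] [Field F] (p : ι → ι) (dep : ι → ℕ) (a g : ι → F)
    (v : ι) : F :=
  ∑ x ∈ univ.filter (fun x => Below p v x), (∏ i ∈ range (dep x - dep v), g (p^[i] x)) * a x

/-- The gains in the second matroid. -/
def ap {ι F : Type} (f : ι → F ≃ F) (g : ι → F) : ι → F := fun x => f x (g x)

/-- `g` vanishes outside the ancestors of at most `k` elements, and at most `c` of its nonzero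
values differ from the default `δ`. -/
def Cx {ι F : Type} [Field F] (p : ι → ι) (δ : ι → F) (k c : ℕ) (g : ι → F) : Prop :=
  ∃ W N : Finset ι, W.card ≤ k ∧ N.card ≤ c ∧ (∀ x, g x ≠ 0 → ∃ w ∈ W, Below p x w) ∧
    ∀ x, g x ≠ 0 → g x ≠ δ x → x ∈ N

/-- `g` vanishes outside the proper descendants of `v`. -/
def Loc {ι F : Type} [Field F] (p : ι → ι) (v : ι) (g : ι → F) : Prop :=
  ∀ x, g x ≠ 0 → Below p v x ∧ x ≠ v

/-- The functional of `g`, restricted to the tree with root `r`. -/
def rowOf {ι F : Type} [DecidableEq ι] [Field F] (p : ι → ι) (dep : ι → ℕ) (r : ι) (g : ι → F) :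
    ι → F :=
  fun x => if p^[dep x] x = r then wt p dep g x else 0

/-- A pair of functionals of small complexity on the tree with root `r`. -/
def BRow {ι F : Type} [DecidableEq ι] [Field F] (p : ι → ι) (dep : ι → ℕ) (f : ι → F ≃ F)
    (δ : ι → F) (r : ι) (θ φ : ι → F) : Prop :=
  (∃ g : ι → F, Cx p δ 4 9 g ∧ θ = rowOf p dep r g ∧ φ = rowOf p dep r (ap f g)) ∨
    (∃ x, p^[dep x] x = r ∧ θ = Pi.single x 1 ∧ φ = Pi.single x 1)

/-- The elements whose line elements are used: ancestors of elements of `W`. -/
def ancI {ι : Type} [Fintype ι] (p : ι → ι) (W : Finset ι) : Set ι :=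
  {x | ∃ w ∈ W, Below p x w}

open Classical in
/-- The basis with `x` replaced by `mid x` for all ancestors `x` of `W` that are no roots. -/
noncomputable def shiftI {ι E : Type} [Fintype ι] (p : ι → ι) (emb mid : ι → E)
    (W : Finset ι) : Finset E :=
  univ.image (fun x => if x ∈ ancI p W ∧ p x ≠ x then mid x else emb x)

end Pool.Agent.H.MP_9123af_lc.Fl
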