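import Pool.Agent.H.MP_9123af_lc.Fl.Lines

/-!
# Spanning forests of full lines
-/

namespace Pool.Agent.H.MP_9123af_lc.Fl

open Finset

/-- two different labels with columns on the same line through `0` are dependent -/
private theorem span_dep {R E F : Type} [Field F] [DecidableEq E] (A : Matrix R E F) {v : R → F}
    {e e' : E} (hne : e ≠ e') (h : Indep A {e, e'}) (h1 : ∃ t : F, t • v = col A e)
    (h2 : ∃ t : F, t • v = col A e') : False := by
  unfold Indep at h
  rw [Finset.coe_pair, LinearIndepOn.pair_iff _ hne] at h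
  obtain ⟨s, hs⟩ := h1
  obtain ⟨t, ht⟩ := h2
  have h3 := h t (-s) (by rw [← hs, ← ht, smul_smul, smul_smul, ← add_smul]; ring_nf; simp)
  have hs0 : s = 0 := by
    have := h3.2
    simpa using this
  rw [hs0, zero_smul] at hs
  have h4 := h 1 0 (by rw [← hs]; simp)
  exact one_ne_zero h4.1

private theorem span_col_ne {R E F : Type} [Field F] [DecidableEq E] {A : Matrix R E F}
    {S : Finset E} (h : Indep A S) {b : E} (hb : b ∈ S) : col A b ≠ 0 :=
  LinearIndepOn.ne_zero h hb

/-- a label that is not independent of `b` has its column on the line of `b` -/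
private theorem span_bad {R E F : Type} [Field F] [DecidableEq E] (A : Matrix R E F) {b e : E}
    (hb : col A b ≠ 0) (h : ¬ (e ≠ b ∧ Indep A {b, e})) : ∃ t : F, t • col A b = col A e := by
  by_cases he : e = b
  · exact ⟨1, by rw [he, one_smul]⟩
  · by_contra hcon
    apply h
    refine ⟨he, ?_⟩
    unfold Indep
    rw [Finset.coe_pair, linearIndepOn_pair_iff _ (Ne.symm he) hb]
    intro t ht
    exact hcon ⟨t, ht⟩

private theorem span_mid {R E F : Type} [Field F] [Fintype F] [DecidableEq E] (A : Matrix R E F)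
    (b b' : E) (hb : Indep A {b, b'}) (h : FullLine A b b') :
    ∃ m : E, InClosure A {b, b'} m ∧ (m ≠ b ∧ Indep A {b, m}) ∧ (m ≠ b' ∧ Indep A {b', m}) := by
  classical
  obtain ⟨L, hL, hcl, hind⟩ := h
  have hb0 : col A b ≠ 0 := span_col_ne hb (by simp)
  have hb0' : col A b' ≠ 0 := span_col_ne hb (by simp)
  have hF : 2 ≤ Fintype.card F := Fintype.one_lt_card
  have key : ∀ a : E, col A a ≠ 0 →
      (L.filter (fun e => ¬ (e ≠ a ∧ Indep A {a, e}))).card ≤ 1 := by
    intro a ha
    rw [Finset.card_le_one]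
    intro e he e' he'
    rw [Finset.mem_filter] at he he'
    by_contra hne
    exact span_dep A hne (hind e he.1 e' he'.1 hne) (span_bad A ha he.2) (span_bad A ha he'.2)
  by_contra hcon
  have hsub : L ⊆ L.filter (fun e => ¬ (e ≠ b ∧ Indep A {b, e})) ∪
      L.filter (fun e => ¬ (e ≠ b' ∧ Indep A {b', e})) := by
    intro e he
    rw [Finset.mem_union, Finset.mem_filter, Finset.mem_filter]
    by_contra hno
    apply hcon
    refine ⟨e, hcl e he, ?_, ?_⟩
    · by_contra h1
      exact hno (Or.inl ⟨he, h1⟩)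
    · by_contra h1
      exact hno (Or.inr ⟨he, h1⟩)
  have h1 := Finset.card_le_card hsub
  have h2 := Finset.card_union_le (L.filter (fun e => ¬ (e ≠ b ∧ Indep A {b, e})))
    (L.filter (fun e => ¬ (e ≠ b' ∧ Indep A {b', e})))
  have h3 := key b hb0
  have h4 := key b' hb0'
  omega

/-- the state of the construction: a forest on `X` with at most one root in each class -/
private structure SpanG {R E F : Type} [Field F] [Fintype F] [DecidableEq E]
    (A : Matrix R E F) (B X : Finset E) (k : ℕ) (c : E → Fin k) (par mid : E → E) : Prop where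
  sub : X ⊆ B
  par_mem : ∀ b ∈ X, par b ∈ X
  reach : ∀ b ∈ X, ∃ i : ℕ, par (par^[i] b) = par^[i] b
  mids : ∀ b ∈ X, par b ≠ b → FullLine A b (par b) ∧ InClosure A {b, par b} (mid b) ∧
    (mid b ≠ b ∧ Indep A {b, mid b}) ∧ (mid b ≠ par b ∧ Indep A {par b, mid b})
  roots : ∀ i : Fin k, (X.filter (fun b => par b = b ∧ c b = i)).card ≤ 1

private theorem span_iter {E : Type} [DecidableEq E] {X : Finset E} {par : E → E}
    (hp : ∀ b ∈ X, par b ∈ X) {b₀ y : E} (hb₀ : b₀ ∉ X) {b : E} (hb : b ∈ X) (i : ℕ) :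
    par^[i] b ∈ X ∧ (Function.update par b₀ y)^[i] b = par^[i] b := by
  induction i with
  | zero => exact ⟨hb, rfl⟩
  | succ i ih =>
    rw [Function.iterate_succ_apply', Function.iterate_succ_apply', ih.2]
    refine ⟨hp _ ih.1, Function.update_of_ne ?_ _ _⟩
    rintro h
    exact hb₀ (h ▸ ih.1)

/-- adding the element `b₀` with the parent `y` -/
private theorem span_step {R E F : Type} [Field F] [Fintype F] [DecidableEq E]
    {A : Matrix R E F} {B X : Finset E} {k : ℕ} {c : E → Fin k} {par mid : E → E}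
    (h : SpanG A B X k c par mid) {b₀ y m : E} (hb : b₀ ∈ B) (hb₀ : b₀ ∉ X)
    (hy : y ∈ X ∨ (y = b₀ ∧ X.filter (fun b => c b = c b₀) = ∅))
    (hm : y ≠ b₀ → FullLine A b₀ y ∧ InClosure A {b₀, y} m ∧ (m ≠ b₀ ∧ Indep A {b₀, m}) ∧
      (m ≠ y ∧ Indep A {y, m})) :
    SpanG A B (insert b₀ X) k c (Function.update par b₀ y) (Function.update mid b₀ m) := by
  have hne : ∀ b ∈ X, b ≠ b₀ := fun b hbX hbb => hb₀ (hbb ▸ hbX)
  refine ⟨?_, ?_, ?_, ?_, ?_⟩
  · exact Finset.insert_subset hb h.sub
  · intro b hbX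
    rcases Finset.mem_insert.1 hbX with rfl | hbX
    · rw [Function.update_self]
      rcases hy with hy | ⟨hy, -⟩
      · exact Finset.mem_insert_of_mem hy
      · rw [hy]
        exact Finset.mem_insert_self _ _
    · rw [Function.update_of_ne (hne b hbX)]
      exact Finset.mem_insert_of_mem (h.par_mem b hbX)
  · intro b hbX
    have old : ∀ z ∈ X, ∃ i : ℕ, Function.update par b₀ y ((Function.update par b₀ y)^[i] z) =
        (Function.update par b₀ y)^[i] z := by
      intro z hz
      obtain ⟨i, hi⟩ := h.reach z hz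
      refine ⟨i, ?_⟩
      obtain ⟨h1, h2⟩ := span_iter h.par_mem (y := y) hb₀ hz i
      rw [h2, Function.update_of_ne (hne _ h1)]
      exact hi
    rcases Finset.mem_insert.1 hbX with rfl | hbX
    · rcases hy with hy | ⟨hy, -⟩
      · obtain ⟨i, hi⟩ := old y hy
        refine ⟨i + 1, ?_⟩
        rw [Function.iterate_succ_apply, Function.update_self]
        exact hi
      · refine ⟨0, ?_⟩
        simp [hy]
    · exact old b hbX
  · intro b hbX hpb
    rcases Finset.mem_insert.1 hbX with rfl | hbX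
    · rw [Function.update_self] at hpb ⊢
      rw [Function.update_self]
      exact hm hpb
    · rw [Function.update_of_ne (hne b hbX)] at hpb ⊢
      rw [Function.update_of_ne (hne b hbX)]
      exact h.mids b hbX hpb
  · intro i
    rw [Finset.card_le_one]
    intro b hb1 b' hb1'
    rw [Finset.mem_filter, Finset.mem_insert] at hb1 hb1'
    obtain ⟨hbX, hbp, hbc⟩ := hb1
    obtain ⟨hbX', hbp', hbc'⟩ := hb1'
    have h0 : ∀ z ∈ X, Function.update par b₀ y b₀ = b₀ → c b₀ = i → c z = i → False := by
      intro z hz h1 h2 h3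
      rw [Function.update_self] at h1
      rcases hy with hy | ⟨-, hy⟩
      · exact hb₀ (h1 ▸ hy)
      · have : z ∈ X.filter (fun b => c b = c b₀) := Finset.mem_filter.2 ⟨hz, by rw [h3, h2]⟩
        rw [hy] at this
        exact absurd this (Finset.notMem_empty _)
    rcases hbX with rfl | hbX <;> rcases hbX' with rfl | hbX'
    · rfl
    · exact (h0 b' hbX' hbp hbc hbc').elim
    · exact (h0 b hbX hbp' hbc' hbc).elim
    · rw [Function.update_of_ne (hne b hbX)] at hbp
      rw [Function.update_of_ne (hne b' hbX')] at hbp'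
      exact Finset.card_le_one.1 (h.roots i) b (Finset.mem_filter.2 ⟨hbX, hbp, hbc⟩) b'
        (Finset.mem_filter.2 ⟨hbX', hbp', hbc'⟩)

private theorem span_all {R E F : Type} [Field F] [Fintype F] [Fintype E] [DecidableEq E]
    (A : Matrix R E F) (B : Finset E) (hB : IsBasis A B) (k : ℕ) (c : E → Fin k)
    (hc : ∀ i : Fin k, ∀ X : Finset E, X ⊂ B.filter (fun b => c b = i) → X.Nonempty →
      ∃ x ∈ X, ∃ b ∈ B, c b = i ∧ b ∉ X ∧ FullLine A b x) (n : ℕ) (hn : n ≤ B.card) :
    ∃ (X : Finset E) (par mid : E → E), X.card = n ∧ SpanG A B X k c par mid := by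
  induction n with
  | zero =>
    refine ⟨∅, id, id, rfl, ?_, ?_, ?_, ?_, ?_⟩ <;> simp
  | succ n ih =>
    obtain ⟨X, par, mid, hX, hG⟩ := ih (by omega)
    obtain ⟨b₀, hb₀B, hb₀X⟩ : ∃ b ∈ B, b ∉ X := by
      by_contra hcon
      push Not at hcon
      have := Finset.card_le_card (show B ⊆ X from hcon)
      omega
    by_cases hemp : X.filter (fun b => c b = c b₀) = ∅
    · refine ⟨insert b₀ X, _, _, ?_, span_step (y := b₀) (m := b₀) hG hb₀B hb₀X
        (Or.inr ⟨rfl, hemp⟩) (fun h => absurd rfl h)⟩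
      rw [Finset.card_insert_of_notMem hb₀X, hX]
    · have hss : X.filter (fun b => c b = c b₀) ⊂ B.filter (fun b => c b = c b₀) := by
        refine ⟨Finset.filter_subset_filter _ hG.sub, fun hsub => ?_⟩
        have h1 : b₀ ∈ X.filter (fun b => c b = c b₀) := hsub (Finset.mem_filter.2 ⟨hb₀B, rfl⟩)
        exact hb₀X (Finset.mem_filter.1 h1).1
      obtain ⟨x, hx, b, hbB, hbc, hbX, hfull⟩ := hc (c b₀) _ hss
        (Finset.nonempty_iff_ne_empty.2 hemp)
      have hxX := (Finset.mem_filter.1 hx).1
      have hbX' : b ∉ X := fun h => hbX (Finset.mem_filter.2 ⟨h, hbc⟩)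
      have hbx : Indep A {b, x} := by
        refine LinearIndepOn.mono hB.1 ?_
        intro z hz
        rw [Finset.coe_pair] at hz
        rcases hz with rfl | hz
        · exact hbB
        · rw [Set.mem_singleton_iff] at hz
          rw [hz]
          exact hG.sub hxX
      obtain ⟨m, hm1, hm2, hm3⟩ := span_mid A b x hbx hfull
      refine ⟨insert b X, _, _, ?_, span_step (y := x) (m := m) hG hbB hbX'
        (Or.inl hxX) (fun _ => ⟨hfull, hm1, hm2, hm3⟩)⟩
      rw [Finset.card_insert_of_notMem hbX', hX]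

/-- A full line has a point that is parallel neither to `b` nor to `b'`. -/
theorem exists_mid {R E F : Type} [Field F] [Fintype F] [DecidableEq E] (A : Matrix R E F)
    (b b' : E) (hb : Indep A {b, b'}) (h : FullLine A b b') :
    ∃ m : E, InClosure A {b, b'} m ∧ (m ≠ b ∧ Indep A {b, m}) ∧ (m ≠ b' ∧ Indep A {b', m}) :=
  span_mid A b b' hb h

/-- If every class of the basis is connected by full lines, there is a spanning forest of full
lines with at most `k` roots. -/
theorem exists_forest {R E F : Type} [Field F] [Fintype F] [Fintype E] [DecidableEq E]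
    (A : Matrix R E F) (B : Finset E) (hB : IsBasis A B) (k : ℕ) (c : E → Fin k)
    (hc : ∀ i : Fin k, ∀ X : Finset E, X ⊂ B.filter (fun b => c b = i) → X.Nonempty →
      ∃ x ∈ X, ∃ b ∈ B, c b = i ∧ b ∉ X ∧ FullLine A b x) :
    ∃ par mid : E → E, LineForest A B par mid ∧ (B.filter (fun b => par b = b)).card ≤ k := by
  obtain ⟨X, par, mid, hX, hG⟩ := span_all A B hB k c hc B.card le_rfl
  have hXB : X = B := Finset.eq_of_subset_of_card_le hG.sub (by omega)
  subst hXB
  refine ⟨par, mid, ⟨hG.par_mem, hG.reach, fun b hb hp => (hG.mids b hb hp).1,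
    fun b hb hp => (hG.mids b hb hp).2.1, fun b hb hp => (hG.mids b hb hp).2.2.1,
    fun b hb hp => (hG.mids b hb hp).2.2.2⟩, ?_⟩
  rw [Finset.card_eq_sum_card_fiberwise (f := c) (t := (Finset.univ : Finset (Fin k)))
    (fun _ _ => Finset.mem_coe.2 (Finset.mem_univ _))]
  calc ∑ i : Fin k, ((X.filter (fun b => par b = b)).filter (fun b => c b = i)).card
      ≤ ∑ _i : Fin k, 1 := Finset.sum_le_sum fun i _ => by
        rw [Finset.filter_filter]
        exact hG.roots i
    _ = k := by simp

end Pool.Agent.H.MP_9123af_lc.Fl
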