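import Pool.Agent.H.MP_9123af_lc.Fl.Main
import Pool.Agent.H.MP_9123af_lc.Fl.Span

/-!
# The theorem for matrices
-/

namespace Pool.Agent.H.MP_9123af_lc.Fl

open Finset

open Classical in
/-- The elements on the `par`-paths that start in `W`. -/
noncomputable def anc {E : Type} [Fintype E] (par : E → E) (W : Finset E) : Finset E :=
  univ.filter (fun b => ∃ w ∈ W, ∃ i : ℕ, par^[i] w = b)

/-- The basis obtained from `B` by replacing each nonroot `b` on the `par`-paths that start
in `W` by `mid b`. -/
noncomputable def shift {E : Type} [Fintype E] [DecidableEq E] (B : Finset E) (par mid : E → E)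
    (W : Finset E) : Finset E :=
  B.image (fun b => if b ∈ anc par W ∧ par b ≠ b then mid b else b)

open Classical in
/-- The sets of `|B|` labels at distance at most `10 k` from one of the bases `shift B par mid W`,
where `W` has at most `4 k` elements. -/
noncomputable def lineTests {E : Type} [Fintype E] [DecidableEq E] (B : Finset E)
    (par mid : E → E) (k : ℕ) : Finset (Finset E) :=
  univ.filter (fun S => S.card = B.card ∧
    ∃ W ⊆ B, W.card ≤ 4 * k ∧ (S \ shift B par mid W).card ≤ 10 * k)

theorem card_near {E : Type} [Fintype E] [DecidableEq E] (T : Finset E) (c : ℕ) :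
    ((univ : Finset (Finset E)).filter
      (fun S => (S \ T).card ≤ c ∧ (T \ S).card ≤ c)).card ≤ (Fintype.card E + 1) ^ (2 * c) := by
  have h1 : ((univ : Finset (Finset E)).filter
      (fun S => (S \ T).card ≤ c ∧ (T \ S).card ≤ c)).card ≤
      ((((univ : Finset (Finset E)).filter (fun S => S.card ≤ c)) ×ˢ
        ((univ : Finset (Finset E)).filter (fun S => S.card ≤ c)))).card := by
    apply Finset.card_le_card_of_injOn (fun S => (S \ T, T \ S))
    · intro S hS
      rw [Finset.mem_coe, Finset.mem_filter] at hS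
      rw [Finset.mem_coe, Finset.mem_product, Finset.mem_filter, Finset.mem_filter]
      exact ⟨⟨Finset.mem_univ _, hS.2.1⟩, Finset.mem_univ _, hS.2.2⟩
    · intro S _ S' _ hST
      simp only [Prod.mk.injEq] at hST
      ext e
      have e1 := congrArg (fun X => e ∈ X) hST.1
      have e2 := congrArg (fun X => e ∈ X) hST.2
      simp only [Finset.mem_sdiff, eq_iff_iff] at e1 e2
      tauto
  refine h1.trans ?_
  rw [Finset.card_product, Nat.two_mul, pow_add]
  exact Nat.mul_le_mul (card_small_subsets c) (card_small_subsets c)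

theorem card_lineTests {E : Type} [Fintype E] [DecidableEq E] (B : Finset E)
    (par mid : E → E) (k : ℕ) :
    (lineTests B par mid k).card ≤ (Fintype.card E + 1) ^ (24 * k) := by
  classical
  have h1 : lineTests B par mid k ⊆
      (((univ : Finset (Finset E)).filter (fun S => S.card ≤ 4 * k))).biUnion
        (fun W => (univ : Finset (Finset E)).filter (fun S =>
          (S \ shift B par mid W).card ≤ 10 * k ∧ (shift B par mid W \ S).card ≤ 10 * k)) := by
    intro S hS
    rw [lineTests, Finset.mem_filter] at hS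
    obtain ⟨-, hSc, W, -, hW, hSW⟩ := hS
    rw [Finset.mem_biUnion]
    refine ⟨W, Finset.mem_filter.2 ⟨Finset.mem_univ _, hW⟩, ?_⟩
    rw [Finset.mem_filter]
    refine ⟨Finset.mem_univ _, hSW, ?_⟩
    have e0 : (shift B par mid W).card ≤ B.card := Finset.card_image_le
    have e1 := Finset.card_sdiff_add_card_inter S (shift B par mid W)
    have e2 := Finset.card_sdiff_add_card_inter (shift B par mid W) S
    rw [Finset.inter_comm] at e2
    omega
  refine (Finset.card_le_card h1).trans ?_
  refine (Finset.card_biUnion_le_card_mul _ _ _ (fun W _ => card_near _ (10 * k))).trans ?_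
  have e3 : 24 * k = 4 * k + 2 * (10 * k) := by ring
  rw [e3, pow_add]
  exact Nat.mul_le_mul_right _ (card_small_subsets (4 * k))

theorem lines_main (k : ℕ) (F : Type) [Field F] [Fintype F] (E : Type) [Fintype E]
    [DecidableEq E] (m₁ m₂ : ℕ) (A₁ : Matrix (Fin m₁) E F) (A₂ : Matrix (Fin m₂) E F)
    (B : Finset E) (par mid : E → E) (hB₁ : IsBasis A₁ B) (hB₂ : IsBasis A₂ B)
    (hf : LineForest A₁ B par mid) (hk : (B.filter (fun b => par b = b)).card ≤ k)
    (h : ∀ S ∈ lineTests B par mid k, (Indep A₁ S ↔ Indep A₂ S)) : SameMatroid A₁ A₂ := by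
  classical
  obtain ⟨L₁, D₁, hinj₁, hL₁, hD₁, hemb₁⟩ := exists_coord A₁ B hB₁
  obtain ⟨L₂, D₂, hinj₂, hL₂, hD₂, hemb₂⟩ := exists_coord A₂ B hB₂
  have hcardB : Fintype.card B = B.card := Fintype.card_coe B
  have hns₁ : ∀ T : Finset E, T.card = B.card → (Indep A₁ T ↔ NS D₁ T) := by
    intro T hT
    rw [indep_iff hinj₁ hD₁ T, indep_iff_ns D₁ T (by rw [hT, hcardB])]
  have hns₂ : ∀ T : Finset E, T.card = B.card → (Indep A₂ T ↔ NS D₂ T) := by
    intro T hT
    rw [indep_iff hinj₂ hD₂ T, indep_iff_ns D₂ T (by rw [hT, hcardB])]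
  -- every element of the basis lies in a tree, so `k = 0` only if the basis is empty
  have hroot : B.Nonempty → 1 ≤ k := by
    rintro ⟨b, hb⟩
    obtain ⟨i, hi⟩ := hf.reach b hb
    have hmem : ∀ j : ℕ, par^[j] b ∈ B := by
      intro j
      induction j with
      | zero => exact hb
      | succ j ih => rw [Function.iterate_succ_apply']; exact hf.par_mem _ ih
    have h2 : par^[i] b ∈ B.filter (fun b => par b = b) :=
      Finset.mem_filter.2 ⟨hmem i, hi⟩
    have h3 : 0 < (B.filter (fun b => par b = b)).card := Finset.card_pos.2 ⟨_, h2⟩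
    omega
  have hshift0 : shift B par mid ∅ = B := by
    unfold shift
    ext e
    simp [anc]
  have hagree2 : ∀ S : Finset E, S.card = B.card → (S \ B).card ≤ 2 → (NS D₁ S ↔ NS D₂ S) := by
    intro S hS hSB
    rw [← hns₁ S hS, ← hns₂ S hS]
    apply h
    rw [lineTests, Finset.mem_filter]
    refine ⟨Finset.mem_univ _, hS, ∅, Finset.empty_subset _, by simp, ?_⟩
    rw [hshift0]
    rcases B.eq_empty_or_nonempty with hBe | hBne
    · have : S = ∅ := by
        rw [← Finset.card_eq_zero, hS, hBe]; rfl
      rw [this]; simp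
    · have := hroot hBne
      omega
  obtain ⟨p, dep, f, δ, ln, hfor, hpar, hf0, hδ, hl₁, hl₂, hmid⟩ :=
    exists_lines A₁ B par mid hf L₁ D₁ D₂ hinj₁ hL₁ hD₁ hemb₁ hemb₂ hagree2
  apply same_of_all A₁ A₂ B hB₁ hB₂
  intro T hT
  rw [hns₁ T hT, hns₂ T hT]
  -- iterates of the parent map
  have hiter : ∀ (i : ℕ) (x : B), ((p^[i] x : B) : E) = par^[i] (x : E) := by
    intro i
    induction i with
    | zero => intro x; rfl
    | succ i ih => intro x; rw [Function.iterate_succ_apply, Function.iterate_succ_apply, ih, hpar]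
  have hkι : ((univ : Finset B).filter (fun x => dep x = 0)).card ≤ k := by
    refine le_trans ?_ hk
    apply Finset.card_le_card_of_injOn (fun x : B => (x : E))
    · intro x hx
      rw [Finset.mem_coe, Finset.mem_filter] at hx
      rw [Finset.mem_coe, Finset.mem_filter]
      refine ⟨x.2, ?_⟩
      rw [← hpar x]
      exact congrArg Subtype.val ((hfor.root_iff x).1 hx.2)
    · intro x _ y _ hxy
      exact Subtype.ext hxy
  refine coord_main p dep hfor f hf0 δ hδ D₁ D₂ (fun b : B => (b : E)) hemb₁ hemb₂ ln hl₁ hl₂ k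
    hkι ?_ T
  intro W hW S hS hSW
  have hS' : S.card = B.card := by rw [hS, hcardB]
  rw [← hns₁ S hS', ← hns₂ S hS']
  apply h
  rw [lineTests, Finset.mem_filter]
  refine ⟨Finset.mem_univ _, hS', W.map (Function.Embedding.subtype _), ?_, ?_, ?_⟩
  · intro e he
    rw [Finset.mem_map] at he
    obtain ⟨x, _, rfl⟩ := he
    exact x.2
  · rw [Finset.card_map]; exact hW
  · have hsh : shift B par mid (W.map (Function.Embedding.subtype _)) =
        shiftI p (fun b : B => (b : E)) (fun x => ln x (δ x)) W := by
      unfold shift shiftI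
      ext e
      simp only [Finset.mem_image, Finset.mem_univ, true_and]
      have hanc : ∀ x : B, ((x : E) ∈ anc par (W.map (Function.Embedding.subtype _)) ↔
          x ∈ ancI p W) := by
        intro x
        simp only [anc, ancI, Finset.mem_filter, Finset.mem_univ, true_and, Set.mem_setOf_eq,
          Finset.mem_map, Function.Embedding.subtype_apply, Below]
        constructor
        · rintro ⟨_, ⟨w, hw, rfl⟩, i, hi⟩
          refine ⟨w, hw, i, Subtype.ext ?_⟩
          rw [hiter]; exact hi
        · rintro ⟨w, hw, i, hi⟩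
          refine ⟨_, ⟨w, hw, rfl⟩, i, ?_⟩
          rw [← hiter, hi]
      have hpne : ∀ x : B, (par x ≠ x ↔ p x ≠ x) := by
        intro x
        rw [← hpar x]
        exact not_congr ⟨fun h => Subtype.ext h, fun h => congrArg Subtype.val h⟩
      have hval : ∀ x : B, (if (x : E) ∈ anc par (W.map (Function.Embedding.subtype _)) ∧
          par x ≠ x then mid x else (x : E)) =
          if x ∈ ancI p W ∧ p x ≠ x then ln x (δ x) else (x : E) := by
        intro x
        by_cases hx : x ∈ ancI p W ∧ p x ≠ x
        · rw [if_pos ⟨(hanc x).2 hx.1, (hpne x).2 hx.2⟩, if_pos hx, hmid]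
          intro h0
          exact hx.2 ((hfor.root_iff x).1 h0)
        · rw [if_neg hx, if_neg]
          rintro ⟨h1, h2⟩
          exact hx ⟨(hanc x).1 h1, (hpne x).1 h2⟩
      constructor
      · rintro ⟨b, hb, hbe⟩
        refine ⟨⟨b, hb⟩, ?_⟩
        rw [← hval ⟨b, hb⟩]
        exact hbe
      · rintro ⟨x, hx⟩
        refine ⟨x, x.2, ?_⟩
        rw [hval x]
        exact hx
    rw [hsh]
    exact hSW

end Pool.Agent.H.MP_9123af_lc.Fl
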