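import Pool.Agent.H.MP_9123af_lc.Fl.St

/-!
# Gluing local gain functions
-/

namespace Pool.Agent.H.MP_9123af_lc.Fl

open Finset

variable {ι F : Type} [Fintype ι] [DecidableEq ι] [Field F]

/-- depth along the path to the root -/
private theorem glue_dep_iter {ι : Type} (p : ι → ι) (dep : ι → ℕ) (hp : Forest p dep) (i : ℕ) :
    ∀ z : ι, dep (p^[i] z) = dep z - i := by
  induction i with
  | zero => intro z; simp
  | succ n ih =>
    intro z
    rw [Function.iterate_succ_apply, ih]
    by_cases h : dep z = 0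
    · have h1 : p z = z := (hp.root_iff z).1 h
      rw [h1]; omega
    · have := hp.step z h
      omega

private theorem glue_root_iter {ι : Type} (p : ι → ι) (dep : ι → ℕ) (hp : Forest p dep) (r : ι)
    (hr : dep r = 0) (i : ℕ) : p^[i] r = r := by
  induction i with
  | zero => rfl
  | succ n ih => rw [Function.iterate_succ_apply, (hp.root_iff r).1 hr, ih]

/-- an ancestor is determined by its depth -/
private theorem glue_below {ι : Type} (p : ι → ι) (dep : ι → ℕ) (hp : Forest p dep) (x z : ι)
    (h : Below p x z) : dep x ≤ dep z ∧ p^[dep z - dep x] z = x := by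
  obtain ⟨i, hi⟩ := h
  have h1 : dep x = dep z - i := by rw [← hi]; exact glue_dep_iter p dep hp i z
  refine ⟨by omega, ?_⟩
  by_cases hiz : i ≤ dep z
  · have : dep z - dep x = i := by omega
    rw [this, hi]
  · have h0 : dep x = 0 := by omega
    have h2 : dep z - dep x = dep z := by omega
    rw [h2]
    have h3 : dep (p^[dep z] z) = 0 := by rw [glue_dep_iter p dep hp]; omega
    have h4 : p^[i] z = p^[i - dep z] (p^[dep z] z) := by
      rw [← Function.iterate_add_apply]
      congr 2
      omega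
    rw [h4, glue_root_iter p dep hp _ h3] at hi
    exact hi

private theorem glue_below_trans {ι : Type} (p : ι → ι) (x y z : ι)
    (h : Below p x y) (h' : Below p y z) : Below p x z := by
  obtain ⟨i, hi⟩ := h
  obtain ⟨j, hj⟩ := h'
  exact ⟨i + j, by rw [Function.iterate_add_apply, hj, hi]⟩

private theorem glue_below_lt {ι : Type} (p : ι → ι) (dep : ι → ℕ) (hp : Forest p dep) (x z : ι)
    (h : Below p x z) (hne : z ≠ x) : dep x < dep z := by
  obtain ⟨h1, h2⟩ := glue_below p dep hp x z h
  rcases Nat.lt_or_ge (dep x) (dep z) with h3 | h3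
  · exact h3
  · exfalso
    have h4 : dep z - dep x = 0 := by omega
    rw [h4] at h2
    exact hne h2

private theorem glue_unique {ι : Type} (p : ι → ι) (dep : ι → ℕ) (hp : Forest p dep) (x y z : ι)
    (h : Below p x z) (h' : Below p y z) (hd : dep x = dep y) : x = y := by
  have h1 := (glue_below p dep hp x z h).2
  have h2 := (glue_below p dep hp y z h').2
  rw [← h1, ← h2, hd]

/-- Gluing local gain functions at the children of `v`: the state of the glued function.
PROOF. `G z = γ c` if `z = c ∈ J`, `β c z` if `z` is a proper descendant of `c ∈ J` (the `c` is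
unique), `0` otherwise; `st_rec` and `st_congr`. Complexity: union of the witnesses and of
`{c}`, `c ∈ J`; if `β c` is zero use the witness `c` (one may take
`W = ⋃ W_c` enlarged by `c` only when `W_c` is empty: `max`, so `k ≥ 1` is assumed). -/
theorem exists_glue (p : ι → ι) (dep : ι → ℕ) (hp : Forest p dep) (f : ι → F ≃ F)
    (hf : ∀ x, f x 0 = 0) (δ : ι → F) (a b : ι → F) (v : ι) (J : Finset ι)
    (hJ : ∀ c ∈ J, p c = v ∧ dep c ≠ 0) (γ : ι → F) (β : ι → ι → F)
    (hβ : ∀ c ∈ J, Loc p c (β c)) (k c : ℕ) (hk : 1 ≤ k) (hβc : ∀ j ∈ J, Cx p δ k c (β j)) :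
    ∃ G : ι → F, Loc p v G ∧ Cx p δ (J.card * k) (J.card * (c + 1)) G ∧
      st p dep a G v = a v + ∑ j ∈ J, γ j * st p dep a (β j) j ∧
      st p dep b (ap f G) v = b v + ∑ j ∈ J, f j (γ j) * st p dep b (ap f (β j)) j := by
  classical
  have hdepJ : ∀ j ∈ J, dep j = dep v + 1 := by
    intro j hj
    obtain ⟨h1, h2⟩ := hJ j hj
    have := hp.step j h2
    rw [h1] at this
    exact this
  set G : ι → F := fun z => if z ∈ J then γ z else ∑ j ∈ J, β j z with hG
  have hGJ : ∀ j ∈ J, G j = γ j := by
    intro j hj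
    simp [hG, hj]
  -- values at the proper descendants of the children
  have hGdesc : ∀ j ∈ J, ∀ x, Below p j x → x ≠ j → G x = β j x := by
    intro j hj x hx hxj
    have hlt := glue_below_lt p dep hp j x hx hxj
    have hxJ : x ∉ J := by
      intro h
      have := hdepJ x h
      have := hdepJ j hj
      omega
    simp only [hG, hxJ, if_false]
    refine Finset.sum_eq_single_of_mem j hj ?_
    intro i hi hij
    by_contra hne
    obtain ⟨h1, h2⟩ := hβ i hi x hne
    exact hij (glue_unique p dep hp i j x h1 hx (by rw [hdepJ i hi, hdepJ j hj]))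
  -- where `G` may be nonzero
  have hGne : ∀ x, G x ≠ 0 → x ∈ J ∨ ∃ j ∈ J, Below p j x ∧ x ≠ j ∧ β j x ≠ 0 := by
    intro x hx
    by_cases hxJ : x ∈ J
    · exact Or.inl hxJ
    · right
      simp only [hG, hxJ, if_false] at hx
      obtain ⟨j, hj, hne⟩ := Finset.exists_ne_zero_of_sum_ne_zero hx
      obtain ⟨h1, h2⟩ := hβ j hj x hne
      exact ⟨j, hj, h1, h2, hne⟩
  have hBelowv : ∀ j ∈ J, Below p v j := by
    intro j hj
    exact ⟨1, by simpa using (hJ j hj).1⟩
  have hzero : ∀ x, p x = v → dep x ≠ 0 → x ∉ J → G x = 0 := by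
    intro x hx hd hxJ
    by_contra hne
    rcases hGne x hne with h | ⟨j, hj, h1, h2, h3⟩
    · exact hxJ h
    · have h4 := glue_below_lt p dep hp j x h1 h2
      have h5 := hp.step x hd
      rw [hx] at h5
      have := hdepJ j hj
      omega
  have hsub : J ⊆ univ.filter (fun c => p c = v ∧ dep c ≠ 0) := by
    intro j hj
    simpa using hJ j hj
  refine ⟨G, ?_, ?_, ?_, ?_⟩
  · intro x hx
    rcases hGne x hx with h | ⟨j, hj, h1, h2, h3⟩
    · refine ⟨hBelowv x h, ?_⟩
      intro hxv
      have := hdepJ x h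
      rw [hxv] at this
      omega
    · refine ⟨glue_below_trans p v j x (hBelowv j hj) h1, ?_⟩
      intro hxv
      have := glue_below_lt p dep hp j x h1 h2
      have := hdepJ j hj
      rw [hxv] at *
      omega
  · -- complexity
    have hch : ∀ j : ι, ∃ W N : Finset ι, j ∈ J → (W.card ≤ k ∧ N.card ≤ c ∧
        (∀ x, β j x ≠ 0 → ∃ w ∈ W, Below p x w) ∧ ∀ x, β j x ≠ 0 → β j x ≠ δ x → x ∈ N) := by
      intro j
      by_cases hj : j ∈ J
      · obtain ⟨W, N, h1, h2, h3, h4⟩ := hβc j hj
        exact ⟨W, N, fun _ => ⟨h1, h2, h3, h4⟩⟩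
      · exact ⟨∅, ∅, fun h => absurd h hj⟩
    choose W N hWN using hch
    set W' : ι → Finset ι := fun j => if ∃ w ∈ W j, Below p j w then W j else {j} with hW'
    have hW'card : ∀ j ∈ J, (W' j).card ≤ k := by
      intro j hj
      simp only [hW']
      split_ifs with h
      · exact (hWN j hj).1
      · simpa using hk
    have hW'self : ∀ j ∈ J, ∃ w ∈ W' j, Below p j w := by
      intro j hj
      simp only [hW']
      split_ifs with h
      · exact h
      · exact ⟨j, by simp, 0, rfl⟩
    have hW'desc : ∀ j ∈ J, ∀ x, β j x ≠ 0 → ∃ w ∈ W' j, Below p x w := by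
      intro j hj x hx
      obtain ⟨w, hw, hxw⟩ := (hWN j hj).2.2.1 x hx
      have hjx : Below p j x := (hβ j hj x hx).1
      have hex : ∃ w ∈ W j, Below p j w := ⟨w, hw, glue_below_trans p j x w hjx hxw⟩
      simp only [hW', hex, if_true]
      exact ⟨w, hw, hxw⟩
    refine ⟨J.biUnion W', J.biUnion (fun j => insert j (N j)), ?_, ?_, ?_, ?_⟩
    · exact Finset.card_biUnion_le_card_mul J W' k hW'card
    · refine Finset.card_biUnion_le_card_mul J _ (c + 1) ?_
      intro j hj
      exact (Finset.card_insert_le _ _).trans (Nat.add_le_add_right (hWN j hj).2.1 1)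
    · intro x hx
      rcases hGne x hx with h | ⟨j, hj, h1, h2, h3⟩
      · obtain ⟨w, hw, hxw⟩ := hW'self x h
        exact ⟨w, Finset.mem_biUnion.2 ⟨x, h, hw⟩, hxw⟩
      · obtain ⟨w, hw, hxw⟩ := hW'desc j hj x h3
        exact ⟨w, Finset.mem_biUnion.2 ⟨j, hj, hw⟩, hxw⟩
    · intro x hx hxδ
      rcases hGne x hx with h | ⟨j, hj, h1, h2, h3⟩
      · exact Finset.mem_biUnion.2 ⟨x, h, Finset.mem_insert_self _ _⟩
      · have he := hGdesc j hj x h1 h2
        rw [he] at hxδ
        exact Finset.mem_biUnion.2 ⟨j, hj, Finset.mem_insert_of_mem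
          ((hWN j hj).2.2.2 x h3 hxδ)⟩
  · rw [st_rec p dep hp]
    congr 1
    symm
    have h1 : ∑ j ∈ J, γ j * st p dep a (β j) j = ∑ j ∈ J, G j * st p dep a G j := by
      refine Finset.sum_congr rfl fun j hj => ?_
      rw [hGJ j hj, st_congr p dep hp a G (β j) j (hGdesc j hj)]
    rw [h1]
    refine Finset.sum_subset hsub ?_
    intro x hx hxJ
    rw [Finset.mem_filter] at hx
    rw [hzero x hx.2.1 hx.2.2 hxJ, zero_mul]
  · rw [st_rec p dep hp]
    congr 1
    symm
    have h1 : ∑ j ∈ J, f j (γ j) * st p dep b (ap f (β j)) j =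
        ∑ j ∈ J, ap f G j * st p dep b (ap f G) j := by
      refine Finset.sum_congr rfl fun j hj => ?_
      have h2 : ap f G j = f j (γ j) := by simp only [ap, hGJ j hj]
      rw [h2, st_congr p dep hp b (ap f G) (ap f (β j)) j ?_]
      intro x hx hxj
      simp only [ap, hGdesc j hj x hx hxj]
    rw [h1]
    refine Finset.sum_subset hsub ?_
    intro x hx hxJ
    rw [Finset.mem_filter] at hx
    have h2 : ap f G x = 0 := by simp only [ap, hzero x hx.2.1 hx.2.2 hxJ, hf]
    rw [h2, zero_mul]

end Pool.Agent.H.MP_9123af_lc.Fl
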