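import Pool.Agent.H.MP_9123af_lc.Fl.Tree

/-!
# Several trees and several columns
-/

namespace Pool.Agent.H.MP_9123af_lc.Fl

open Finset

variable {ι E F : Type} [Fintype ι] [DecidableEq ι] [Fintype E] [DecidableEq E] [Field F]

theorem det_row_sum {I : Finset ι} (M : Matrix I I F) (i : I) {κ : Type} (s : Finset κ)
    (c : κ → F) (u : κ → I → F) :
    (M.updateRow i (∑ x ∈ s, c x • u x)).det = ∑ x ∈ s, c x * (M.updateRow i (u x)).det := by
  classical
  induction s using Finset.induction_on with
  | empty =>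
    rw [Finset.sum_empty, Finset.sum_empty]
    apply Matrix.det_eq_zero_of_row_eq_zero i
    intro j
    rw [Matrix.updateRow_self, Pi.zero_apply]
  | insert a s ha ih =>
    rw [Finset.sum_insert ha, Finset.sum_insert ha, Matrix.det_updateRow_add,
      Matrix.det_updateRow_smul, ih]

theorem det_lin {I : Finset ι} (D : E → ι → F) (y : I → E) (Θ : I → ι → F) (r : I)
    (θ : ι → F) :
    (Matrix.of fun ρ j : I => Function.update Θ r θ ρ ⬝ᵥ D (y j)).det =
      ∑ x, θ x * (Matrix.of fun ρ j : I =>
        Function.update Θ r (Pi.single x (1 : F)) ρ ⬝ᵥ D (y j)).det := by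
  have hM : ∀ η : ι → F, (Matrix.of fun ρ j : I => Function.update Θ r η ρ ⬝ᵥ D (y j)) =
      (Matrix.of fun ρ j : I => Θ ρ ⬝ᵥ D (y j)).updateRow r (fun j => η ⬝ᵥ D (y j)) := by
    intro η
    ext ρ j
    by_cases h : ρ = r
    · subst h
      simp
    · simp [Matrix.updateRow_ne h, Function.update_of_ne h]
  rw [hM θ]
  have hrow : (fun j => θ ⬝ᵥ D (y j)) = ∑ x, θ x • (fun j : I => D (y j) x) := by
    funext j
    rw [Finset.sum_apply, dotProduct]
    rfl
  rw [hrow, det_row_sum]
  apply Finset.sum_congr rfl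
  intro x _
  rw [hM (Pi.single x 1)]
  congr 3
  funext j
  rw [single_dotProduct, one_mul]

/-- If the two determinants vanish together for all rows of small complexity, they vanish
together for all rows.
PROOF. For a finite set `J` of roots let `P J` be the statement for rows such that row `ρ` is
`(rowOf p dep ρ (g ρ), rowOf p dep ρ (ap f (g ρ)))` for `ρ ∈ J` (any `g ρ`) and satisfies
`BRow` for `ρ ∉ J`. `P ∅` is the hypothesis. `P J → P (insert ρ J)`: fix the other rows and
put `a x = det Z₁` with row `ρ` replaced by `(D₁ (y j) x)_j` if `p^[dep x] x = ρ`, and `0`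
otherwise; `b` in the same way with `Z₂`, `D₂`. `a x = 0 ↔ b x = 0` is `P J` with the row
`Pi.single x 1`. Since the determinant is linear in row `ρ`, `tot p dep a g` is the determinant
with row `ρ` equal to `rowOf p dep ρ g ⬝ᵥ D₁ (y j)`, and the same for `b`, `ap f g`. So the
hypothesis of `tree_lemma` is `P J` with a row of complexity `(4, 9)`, and its conclusion is
the claim. -/
theorem det_all (p : ι → ι) (dep : ι → ℕ) (hp : Forest p dep) (f : ι → F ≃ F)
    (hf : ∀ x, f x 0 = 0) (δ : ι → F) (hδ : ∀ x, δ x ≠ 0) (D₁ D₂ : E → ι → F)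
    (I : Finset ι) (hI : ∀ ρ ∈ I, dep ρ = 0) (y : I → E)
    (hyp : ∀ Θ Φ : I → ι → F, (∀ ρ : I, BRow p dep f δ ρ (Θ ρ) (Φ ρ)) →
      ((Matrix.of fun ρ j : I => Θ ρ ⬝ᵥ D₁ (y j)).det = 0 ↔
        (Matrix.of fun ρ j : I => Φ ρ ⬝ᵥ D₂ (y j)).det = 0))
    (g : I → ι → F) :
    (Matrix.of fun ρ j : I => rowOf p dep (ρ : ι) (g ρ) ⬝ᵥ D₁ (y j)).det = 0 ↔
      (Matrix.of fun ρ j : I => rowOf p dep (ρ : ι) (ap f (g ρ)) ⬝ᵥ D₂ (y j)).det = 0 := by
  classical
  have key : ∀ (J : Finset I) (Θ Φ : I → ι → F),
      (∀ ρ : I, (ρ ∈ J ∧ ∃ g : ι → F, Θ ρ = rowOf p dep (ρ : ι) g ∧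
        Φ ρ = rowOf p dep (ρ : ι) (ap f g)) ∨ BRow p dep f δ ρ (Θ ρ) (Φ ρ)) →
      ((Matrix.of fun ρ j : I => Θ ρ ⬝ᵥ D₁ (y j)).det = 0 ↔
        (Matrix.of fun ρ j : I => Φ ρ ⬝ᵥ D₂ (y j)).det = 0) := by
    intro J
    induction J using Finset.induction_on with
    | empty =>
      intro Θ Φ h
      apply hyp
      intro ρ
      rcases h ρ with h | h
      · exact absurd h.1 (Finset.notMem_empty _)
      · exact h
    | insert r J hr ih =>
      intro Θ Φ h
      rcases h r with ⟨-, g, hΘ, hΦ⟩ | hB
      swap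
      · apply ih
        intro ρ
        by_cases hρ : ρ = r
        · subst hρ; exact Or.inr hB
        · rcases h ρ with ⟨h1, h2⟩ | h1
          · exact Or.inl ⟨(Finset.mem_insert.1 h1).resolve_left hρ, h2⟩
          · exact Or.inr h1
      -- replacing the row `r` by a row of small complexity
      have hrep : ∀ θ φ : ι → F, BRow p dep f δ (r : ι) θ φ →
          ((Matrix.of fun ρ j : I => Function.update Θ r θ ρ ⬝ᵥ D₁ (y j)).det = 0 ↔
          (Matrix.of fun ρ j : I => Function.update Φ r φ ρ ⬝ᵥ D₂ (y j)).det = 0) := by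
        intro θ φ hθφ
        apply ih
        intro ρ
        by_cases hρ : ρ = r
        · subst hρ
          right
          rw [Function.update_self, Function.update_self]
          exact hθφ
        · rw [Function.update_of_ne hρ, Function.update_of_ne hρ]
          rcases h ρ with ⟨h1, h2⟩ | h1
          · exact Or.inl ⟨(Finset.mem_insert.1 h1).resolve_left hρ, h2⟩
          · exact Or.inr h1
      let a : ι → F := fun x => if p^[dep x] x = (r : ι) then (Matrix.of fun ρ j : I =>
        Function.update Θ r (Pi.single x (1 : F)) ρ ⬝ᵥ D₁ (y j)).det else 0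
      let b : ι → F := fun x => if p^[dep x] x = (r : ι) then (Matrix.of fun ρ j : I =>
        Function.update Φ r (Pi.single x (1 : F)) ρ ⬝ᵥ D₂ (y j)).det else 0
      have htota : ∀ g' : ι → F, tot p dep a g' =
          (Matrix.of fun ρ j : I =>
            Function.update Θ r (rowOf p dep (r : ι) g') ρ ⬝ᵥ D₁ (y j)).det := by
        intro g'
        rw [det_lin, tot]
        apply Finset.sum_congr rfl
        intro x _
        simp only [a, rowOf]
        by_cases hx : p^[dep x] x = (r : ι)
        · rw [if_pos hx, if_pos hx]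
        · rw [if_neg hx, if_neg hx, mul_zero, zero_mul]
      have htotb : ∀ g' : ι → F, tot p dep b g' =
          (Matrix.of fun ρ j : I =>
            Function.update Φ r (rowOf p dep (r : ι) g') ρ ⬝ᵥ D₂ (y j)).det := by
        intro g'
        rw [det_lin, tot]
        apply Finset.sum_congr rfl
        intro x _
        simp only [b, rowOf]
        by_cases hx : p^[dep x] x = (r : ι)
        · rw [if_pos hx, if_pos hx]
        · rw [if_neg hx, if_neg hx, mul_zero, zero_mul]
      have hT := tree_lemma p dep hp f hf δ hδ (r : ι) (hI _ r.2) a b (by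
        intro x
        simp only [a, b]
        by_cases hx : p^[dep x] x = (r : ι)
        · rw [if_pos hx, if_pos hx]
          exact hrep _ _ (Or.inr ⟨x, hx, rfl, rfl⟩)
        · rw [if_neg hx, if_neg hx]) (by
        intro x hx
        by_contra h1
        exact hx (if_neg h1)) (by
        intro g' hg'
        rw [htota, htotb]
        exact hrep _ _ (Or.inl ⟨g', hg', rfl, rfl⟩)) g
      rw [htota, htotb, ← hΘ, ← hΦ, Function.update_eq_self, Function.update_eq_self] at hT
      exact hT
  exact key univ _ _ (fun ρ => Or.inl ⟨mem_univ _, g ρ, rfl, rfl⟩)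

end Pool.Agent.H.MP_9123af_lc.Fl
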