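import Pool.Agent.H.MP_9123af_lc.Fl.Defs

/-!
# Full lines of the matroid and line elements in coordinates
-/

namespace Pool.Agent.H.MP_9123af_lc.Fl

open Finset

/-- The line of `M[A]` through `b` and `b'` is full: the closure of `{b, b'}` contains `q + 1`
pairwise independent labels, `q` the number of elements of the field (the largest possible
number). -/
def FullLine {R E F : Type} [Field F] [Fintype F] [DecidableEq E] (A : Matrix R E F) (b b' : E) :
    Prop :=
  ∃ L : Finset E, L.card = Fintype.card F + 1 ∧ (∀ e ∈ L, InClosure A {b, b'} e) ∧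
    ∀ e ∈ L, ∀ e' ∈ L, e ≠ e' → Indep A {e, e'}

/-- A rooted spanning forest of full lines on `B`: `par b` is the parent of `b` (`par b = b` for a
root), every edge from `b` to `par b` spans a full line of `M[A]`, and `mid b` is a label on this
line that is parallel neither to `b` nor to `par b` (and different from both). -/
structure LineForest {R E F : Type} [Field F] [Fintype F] [DecidableEq E] (A : Matrix R E F)
    (B : Finset E) (par mid : E → E) : Prop where
  par_mem : ∀ b ∈ B, par b ∈ B
  reach : ∀ b ∈ B, ∃ i : ℕ, par (par^[i] b) = par^[i] b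
  line : ∀ b ∈ B, par b ≠ b → FullLine A b (par b)
  mid_mem : ∀ b ∈ B, par b ≠ b → InClosure A {b, par b} (mid b)
  mid_left : ∀ b ∈ B, par b ≠ b → mid b ≠ b ∧ Indep A {b, mid b}
  mid_right : ∀ b ∈ B, par b ≠ b → mid b ≠ par b ∧ Indep A {par b, mid b}

section Plane

variable {F E : Type} [Field F] {B : Finset E}

private theorem two_dot {ι : Type} [Fintype ι] {x y : ι} (hxy : x ≠ y) (ψ v : ι → F)
    (h : ∀ b, b ≠ x → b ≠ y → ψ b * v b = 0) : ψ ⬝ᵥ v = ψ x * v x + ψ y * v y := by
  unfold dotProduct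
  exact Fintype.sum_eq_add x y hxy fun b hb => h b hb.1 hb.2

private theorem plane_ker (a b c d : F) (h : a * d - b * c = 0) :
    ∃ α β : F, (α ≠ 0 ∨ β ≠ 0) ∧ α * a + β * b = 0 ∧ α * c + β * d = 0 := by
  by_cases ha : a = 0 ∧ b = 0
  · by_cases hc : c = 0 ∧ d = 0
    · exact ⟨1, 0, Or.inl one_ne_zero, by rw [ha.1]; ring, by rw [hc.1]; ring⟩
    · refine ⟨d, -c, ?_, by rw [ha.1, ha.2]; ring, by ring⟩
      by_contra hcon
      push Not at hcon
      exact hc ⟨neg_eq_zero.1 hcon.2, hcon.1⟩
  · refine ⟨b, -a, ?_, by ring, by linear_combination -h⟩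
    by_contra hcon
    push Not at hcon
    exact ha ⟨neg_eq_zero.1 hcon.2, hcon.1⟩

variable [DecidableEq E]

private theorem ns_two (D : E → B → F) (hDB : ∀ b : B, D b = Pi.single b 1) (x y : B) (hxy : x ≠ y)
    (e e' : E) : NS D (insert e (insert e' ((B.erase x).erase y))) ↔
      D e x * D e' y - D e y * D e' x ≠ 0 := by
  constructor
  · intro h h0
    obtain ⟨α, β, hne, h1, h2⟩ := plane_ker _ _ _ _ h0
    have hψ : (fun b : B => if b = x then α else if b = y then β else 0) = 0 := by
      apply h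
      intro z hz
      rw [two_dot hxy, if_pos rfl, if_neg hxy.symm, if_pos rfl]
      · rw [Finset.mem_insert, Finset.mem_insert, Finset.mem_erase, Finset.mem_erase] at hz
        rcases hz with rfl | rfl | ⟨hzy, hzx, hzB⟩
        · exact h1
        · exact h2
        · rw [hDB ⟨z, hzB⟩, Pi.single_eq_of_ne, Pi.single_eq_of_ne]
          · ring
          · intro h3; exact hzy (congrArg Subtype.val h3).symm
          · intro h3; exact hzx (congrArg Subtype.val h3).symm
      · intro b hbx hby
        rw [if_neg hbx, if_neg hby, zero_mul]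
    have h3 := congrFun hψ x
    have h4 := congrFun hψ y
    simp only [if_true, Pi.zero_apply] at h3
    simp only [if_neg hxy.symm, if_true, Pi.zero_apply] at h4
    rcases hne with h | h
    · exact h h3
    · exact h h4
  · intro h0 ψ hψ
    have h1 : ∀ b : B, b ≠ x → b ≠ y → ψ b = 0 := by
      intro b hbx hby
      have h2 := hψ b (Finset.mem_insert_of_mem (Finset.mem_insert_of_mem (Finset.mem_erase.2
        ⟨fun h => hby (Subtype.ext h), Finset.mem_erase.2 ⟨fun h => hbx (Subtype.ext h), b.2⟩⟩)))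
      rwa [hDB, dotProduct_single, mul_one] at h2
    have h2 := hψ e (Finset.mem_insert_self _ _)
    have h3 := hψ e' (Finset.mem_insert_of_mem (Finset.mem_insert_self _ _))
    rw [two_dot hxy _ _ fun b hx hy => by rw [h1 b hx hy, zero_mul]] at h2 h3
    have h4 : (D e x * D e' y - D e y * D e' x) * ψ x = 0 := by
      linear_combination D e' y * h2 - D e y * h3
    have h5 : (D e x * D e' y - D e y * D e' x) * ψ y = 0 := by
      linear_combination D e x * h3 - D e' x * h2
    funext b
    by_cases hbx : b = x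
    · rw [hbx]; exact (mul_eq_zero.1 h4).resolve_left h0
    · by_cases hby : b = y
      · rw [hby]; exact (mul_eq_zero.1 h5).resolve_left h0
      · exact h1 b hbx hby

/-- one line -/
private theorem one_line {R₁ : Type} [Fintype F] [Fintype E]
    (A₁ : Matrix R₁ E F) (L₁ : (B → F) →ₗ[F] (R₁ → F)) (D₁ D₂ : E → B → F)
    (hinj : Function.Injective L₁) (hL : ∀ x, L₁ x = ∑ b : B, x b • col A₁ b)
    (hD : ∀ e, L₁ (D₁ e) = col A₁ e)
    (h₁ : ∀ b : B, D₁ b = Pi.single b 1) (h₂ : ∀ b : B, D₂ b = Pi.single b 1)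
    (agree : ∀ S : Finset E, S.card = B.card → (S \ B).card ≤ 2 → (NS D₁ S ↔ NS D₂ S))
    (x y : B) (hxy : x ≠ y) (hfull : FullLine A₁ (x : E) (y : E)) (m : E)
    (hm : InClosure A₁ {(x : E), (y : E)} m) (hmx : m ≠ x ∧ Indep A₁ {(x : E), m})
    (hmy : m ≠ y ∧ Indep A₁ {(y : E), m}) :
    ∃ (f : F ≃ F) (δ : F) (ln : F → E), f 0 = 0 ∧ δ ≠ 0 ∧
      (∀ g : F, g ≠ 0 → ∀ θ : B → F, θ ⬝ᵥ D₁ (ln g) = 0 ↔ θ x = g * θ y) ∧
      (∀ g : F, g ≠ 0 → ∀ φ : B → F, φ ⬝ᵥ D₂ (ln g) = 0 ↔ φ x = f g * φ y) ∧ ln δ = m := by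
  classical
  have hxyE : (x : E) ≠ (y : E) := fun h => hxy (Subtype.ext h)
  have hsub : ({(x : E), (y : E)} : Finset E) ⊆ B := by
    intro z hz
    rw [Finset.mem_insert, Finset.mem_singleton] at hz
    rcases hz with rfl | rfl
    · exact x.2
    · exact y.2
  -- coordinates of the labels of the line
  have c1 : ∀ e, InClosure A₁ {(x : E), (y : E)} e → ∀ b : B, b ≠ x → b ≠ y → D₁ e b = 0 := by
    intro e he b hbx hby
    refine (inClosure_iff hinj hL hD _ hsub e).1 he b ?_
    rw [Finset.mem_insert, Finset.mem_singleton]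
    rintro (h | h)
    · exact hbx (Subtype.ext h)
    · exact hby (Subtype.ext h)
  have cs : ∀ e, ∀ b : B, D₁ e b = 0 ↔ D₂ e b = 0 := by
    intro e b
    by_cases heB : e ∈ B
    · rw [show D₁ e = Pi.single ⟨e, heB⟩ 1 from h₁ ⟨e, heB⟩,
        show D₂ e = Pi.single ⟨e, heB⟩ 1 from h₂ ⟨e, heB⟩]
    · have h3 : e ∉ B.erase b := fun h => heB (Finset.mem_of_mem_erase h)
      have h4 : (insert e (B.erase (b : E))).card = B.card := by
        rw [Finset.card_insert_of_notMem h3, Finset.card_erase_of_mem b.2]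
        have := Finset.card_pos.2 ⟨(b : E), b.2⟩
        omega
      have h5 : (insert e (B.erase (b : E)) \ B).card ≤ 2 := by
        have h6 : insert e (B.erase (b : E)) \ B ⊆ {e} := by
          intro z hz
          rw [Finset.mem_sdiff, Finset.mem_insert] at hz
          rw [Finset.mem_singleton]
          rcases hz.1 with h | h
          · exact h
          · exact absurd (Finset.mem_of_mem_erase h) hz.2
        exact (Finset.card_le_card h6).trans (by simp)
      have h6 := agree _ h4 h5
      rw [nsone F D₁ h₁ e b, nsone F D₂ h₂ e b] at h6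
      exact not_iff_not.1 h6
  have c2 : ∀ e, InClosure A₁ {(x : E), (y : E)} e → ∀ b : B, b ≠ x → b ≠ y → D₂ e b = 0 :=
    fun e he b hbx hby => (cs e b).1 (c1 e he b hbx hby)
  -- determinants
  have dets : ∀ e e', InClosure A₁ {(x : E), (y : E)} e → InClosure A₁ {(x : E), (y : E)} e' →
      (D₁ e x * D₁ e' y - D₁ e y * D₁ e' x = 0 ↔ D₂ e x * D₂ e' y - D₂ e y * D₂ e' x = 0) := by
    have base : ∀ e, InClosure A₁ {(x : E), (y : E)} e → e ∈ B →
        (e = x ∨ e = y) := by
      intro e he heB
      by_contra hcon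
      push Not at hcon
      have h3 := c1 e he ⟨e, heB⟩ (fun h => hcon.1 (congrArg Subtype.val h))
        (fun h => hcon.2 (congrArg Subtype.val h))
      rw [show D₁ e = Pi.single ⟨e, heB⟩ 1 from h₁ ⟨e, heB⟩, Pi.single_eq_same] at h3
      exact one_ne_zero h3
    have left : ∀ e e', InClosure A₁ {(x : E), (y : E)} e → e ∈ B →
        (D₁ e x * D₁ e' y - D₁ e y * D₁ e' x = 0 ↔
          D₂ e x * D₂ e' y - D₂ e y * D₂ e' x = 0) := by
      intro e e' he heB
      rcases base e he heB with rfl | rfl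
      · rw [h₁ x, h₂ x, Pi.single_eq_same, Pi.single_eq_of_ne hxy.symm, one_mul, zero_mul, sub_zero,
          one_mul, zero_mul, sub_zero]
        exact cs e' y
      · rw [h₁ y, h₂ y, Pi.single_eq_same, Pi.single_eq_of_ne hxy, one_mul, zero_mul, zero_sub,
          one_mul, zero_mul, zero_sub, neg_eq_zero, neg_eq_zero]
        exact cs e' x
    intro e e' he he'
    by_cases heB : e ∈ B
    · exact left e e' he heB
    by_cases heB' : e' ∈ B
    · have h3 := left e' e he' heB'
      have e1 : D₁ e x * D₁ e' y - D₁ e y * D₁ e' x =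
          -(D₁ e' x * D₁ e y - D₁ e' y * D₁ e x) := by ring
      have e2 : D₂ e x * D₂ e' y - D₂ e y * D₂ e' x =
          -(D₂ e' x * D₂ e y - D₂ e' y * D₂ e x) := by ring
      rw [e1, e2, neg_eq_zero, neg_eq_zero]
      exact h3
    by_cases hee : e = e'
    · subst hee
      constructor <;> intro _ <;> ring
    have hy' : (y : E) ∈ B.erase (x : E) := Finset.mem_erase.2 ⟨hxyE.symm, y.2⟩
    have h3 : e' ∉ (B.erase (x : E)).erase (y : E) := fun h =>
      heB' (Finset.mem_of_mem_erase (Finset.mem_of_mem_erase h))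
    have h4 : e ∉ insert e' ((B.erase (x : E)).erase (y : E)) := by
      rw [Finset.mem_insert]
      rintro (h | h)
      · exact hee h
      · exact heB (Finset.mem_of_mem_erase (Finset.mem_of_mem_erase h))
    have h5 : (insert e (insert e' ((B.erase (x : E)).erase (y : E)))).card = B.card := by
      rw [Finset.card_insert_of_notMem h4, Finset.card_insert_of_notMem h3,
        Finset.card_erase_of_mem hy', Finset.card_erase_of_mem x.2]
      have h6 := Finset.card_pos.2 ⟨(y : E), hy'⟩
      rw [Finset.card_erase_of_mem x.2] at h6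
      omega
    have h6 : (insert e (insert e' ((B.erase (x : E)).erase (y : E))) \ B).card ≤ 2 := by
      have h7 : insert e (insert e' ((B.erase (x : E)).erase (y : E))) \ B ⊆ {e, e'} := by
        intro z hz
        rw [Finset.mem_sdiff, Finset.mem_insert, Finset.mem_insert] at hz
        rw [Finset.mem_insert, Finset.mem_singleton]
        rcases hz.1 with h | h | h
        · exact Or.inl h
        · exact Or.inr h
        · exact absurd (Finset.mem_of_mem_erase (Finset.mem_of_mem_erase h)) hz.2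
      exact (Finset.card_le_card h7).trans Finset.card_le_two
    have h7 := agree _ h5 h6
    rw [ns_two D₁ h₁ x y hxy, ns_two D₂ h₂ x y hxy] at h7
    exact not_iff_not.1 h7
  -- independent labels
  have ind : ∀ e e', InClosure A₁ {(x : E), (y : E)} e → InClosure A₁ {(x : E), (y : E)} e' →
      e ≠ e' → Indep A₁ {e, e'} → D₁ e x * D₁ e' y - D₁ e y * D₁ e' x ≠ 0 := by
    intro e e' he he' hne hi h0
    rw [indep_iff hinj hD] at hi
    rw [Finset.coe_insert, Finset.coe_singleton, LinearIndepOn.pair_iff _ hne] at hi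
    have h0' : D₁ e x * D₁ e' y - D₁ e' x * D₁ e y = 0 := by linear_combination h0
    obtain ⟨α, β, hab, h3, h4⟩ := plane_ker _ _ _ _ h0'
    have h5 : α • D₁ e + β • D₁ e' = 0 := by
      funext b
      rw [Pi.add_apply, Pi.smul_apply, Pi.smul_apply, smul_eq_mul, smul_eq_mul, Pi.zero_apply]
      by_cases hbx : b = x
      · rw [hbx]; exact h3
      · by_cases hby : b = y
        · rw [hby]; exact h4
        · rw [c1 e he b hbx hby, c1 e' he' b hbx hby]; ring
    have h6 := hi α β h5
    rcases hab with h | h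
    · exact h h6.1
    · exact h h6.2
  have clx : InClosure A₁ {(x : E), (y : E)} (x : E) :=
    Submodule.subset_span ⟨(x : E), by simp, rfl⟩
  have cly : InClosure A₁ {(x : E), (y : E)} (y : E) :=
    Submodule.subset_span ⟨(y : E), by simp, rfl⟩
  -- all ratios occur
  have ratios : ∀ g : F, ∃ e, InClosure A₁ {(x : E), (y : E)} e ∧ D₁ e x ≠ 0 ∧
      D₁ e y = -(g * D₁ e x) := by
    obtain ⟨L, hLc, hLcl, hLi⟩ := hfull
    have hc1 : 1 < L.card := by
      rw [hLc]
      have := Fintype.card_pos (α := F)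
      omega
    let r : E → Option F := fun e => if D₁ e x = 0 then none else some (-(D₁ e y) / D₁ e x)
    have hr : Set.InjOn r (L : Set E) := by
      intro e he e' he' hrr
      by_contra hne
      have h3 := ind e e' (hLcl e he) (hLcl e' he') hne (hLi e he e' he' hne)
      apply h3
      simp only [r] at hrr
      by_cases h4 : D₁ e x = 0
      · by_cases h5 : D₁ e' x = 0
        · rw [h4, h5]; ring
        · rw [if_pos h4, if_neg h5] at hrr
          exact absurd hrr (by simp)
      · by_cases h5 : D₁ e' x = 0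
        · rw [if_neg h4, if_pos h5] at hrr
          exact absurd hrr (by simp)
        · rw [if_neg h4, if_neg h5, Option.some.injEq, div_eq_div_iff h4 h5] at hrr
          linear_combination hrr
    have hcard : (L.image r).card = Fintype.card (Option F) := by
      rw [Finset.card_image_of_injOn hr, hLc, Fintype.card_option]
    have huniv : L.image r = Finset.univ := Finset.card_eq_iff_eq_univ _ |>.1 hcard
    intro g
    have h3 : some g ∈ L.image r := by rw [huniv]; exact Finset.mem_univ _
    rw [Finset.mem_image] at h3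
    obtain ⟨e, he, hre⟩ := h3
    simp only [r] at hre
    by_cases h4 : D₁ e x = 0
    · rw [if_pos h4] at hre
      exact absurd hre (by simp)
    · rw [if_neg h4, Option.some.injEq] at hre
      refine ⟨e, hLcl e he, h4, ?_⟩
      rw [← hre]
      field_simp
  -- the middle point
  have mx := ind x m clx hm hmx.1.symm hmx.2
  have my := ind y m cly hm hmy.1.symm hmy.2
  rw [h₁ x, Pi.single_eq_same, Pi.single_eq_of_ne hxy.symm, one_mul, zero_mul, sub_zero] at mx
  rw [h₁ y, Pi.single_eq_same, Pi.single_eq_of_ne hxy, one_mul, zero_mul, zero_sub] at my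
  have my' : D₁ m x ≠ 0 := fun h => my (by rw [h, neg_zero])
  let δ : F := -(D₁ m y) / D₁ m x
  have hδ : δ ≠ 0 := div_ne_zero (neg_ne_zero.2 mx) my'
  choose ln0 hl1 hl2 hl3 using ratios
  let ln : F → E := fun g => if g = δ then m else ln0 g
  have lcl : ∀ g, InClosure A₁ {(x : E), (y : E)} (ln g) := by
    intro g
    by_cases hg : g = δ
    · simp only [ln, if_pos hg]; exact hm
    · simp only [ln, if_neg hg]; exact hl1 g
  have lx : ∀ g, D₁ (ln g) x ≠ 0 := by
    intro g
    by_cases hg : g = δ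
    · simp only [ln, if_pos hg]; exact my'
    · simp only [ln, if_neg hg]; exact hl2 g
  have ly : ∀ g, D₁ (ln g) y = -(g * D₁ (ln g) x) := by
    intro g
    by_cases hg : g = δ
    · simp only [ln, if_pos hg]
      rw [hg]
      simp only [δ]
      field_simp
    · simp only [ln, if_neg hg]; exact hl3 g
  have lx2 : ∀ g, D₂ (ln g) x ≠ 0 := fun g h => lx g ((cs _ _).2 h)
  have ly2 : ∀ g, g ≠ 0 → D₂ (ln g) y ≠ 0 := by
    intro g hg h
    have h3 := (cs _ _).2 h
    rw [ly g, neg_eq_zero] at h3
    exact mul_ne_zero hg (lx g) h3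
  let f0 : F → F := fun g => if g = 0 then 0 else -(D₂ (ln g) y) / D₂ (ln g) x
  have f0ne : ∀ g, g ≠ 0 → f0 g ≠ 0 := by
    intro g hg
    simp only [f0, if_neg hg]
    exact div_ne_zero (neg_ne_zero.2 (ly2 g hg)) (lx2 g)
  have f0inj : Function.Injective f0 := by
    intro g g' hgg
    by_cases hg : g = 0
    · by_contra hne
      have h3 : g' ≠ 0 := fun h => hne (hg.trans h.symm)
      have h4 : f0 g = 0 := by simp only [f0, if_pos hg]
      exact f0ne g' h3 (hgg ▸ h4)
    · by_cases hg' : g' = 0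
      · have h4 : f0 g' = 0 := by simp only [f0, if_pos hg']
        exact absurd (hgg.trans h4) (f0ne g hg)
      · simp only [f0, if_neg hg, if_neg hg'] at hgg
        rw [div_eq_div_iff (lx2 g) (lx2 g')] at hgg
        have h3 : D₂ (ln g) x * D₂ (ln g') y - D₂ (ln g) y * D₂ (ln g') x = 0 := by
          linear_combination hgg
        have h4 := (dets _ _ (lcl g) (lcl g')).2 h3
        rw [ly g, ly g'] at h4
        have h5 : (D₁ (ln g) x * D₁ (ln g') x) * (g - g') = 0 := by linear_combination h4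
        exact sub_eq_zero.1 ((mul_eq_zero.1 h5).resolve_left (mul_ne_zero (lx g) (lx g')))
  refine ⟨Equiv.ofBijective f0 (Finite.injective_iff_bijective.1 f0inj), δ, ln, ?_, hδ, ?_, ?_, ?_⟩
  · rw [Equiv.ofBijective_apply]
    simp only [f0, if_true]
  · intro g hg θ
    rw [two_dot hxy _ _ fun b hx hy => by rw [c1 _ (lcl g) b hx hy, mul_zero], ly g]
    constructor
    · intro h
      have h3 : D₁ (ln g) x * (θ x - g * θ y) = 0 := by linear_combination h
      exact sub_eq_zero.1 ((mul_eq_zero.1 h3).resolve_left (lx g))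
    · intro h
      rw [h]; ring
  · intro g hg φ
    rw [two_dot hxy _ _ fun b hx hy => by rw [c2 _ (lcl g) b hx hy, mul_zero],
      Equiv.ofBijective_apply]
    simp only [f0, if_neg hg]
    have h4 := lx2 g
    constructor
    · intro h
      have h3 : φ x * D₂ (ln g) x = -(D₂ (ln g) y) * φ y := by linear_combination h
      rw [div_mul_eq_mul_div, eq_div_iff h4]
      exact h3
    · intro h
      rw [div_mul_eq_mul_div, eq_div_iff h4] at h
      linear_combination h
  · simp only [ln, if_true]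

end Plane

/-- PROOF. `p` is the restriction of `par`, `dep b` the least `i` with
`par (par^[i] b) = par^[i] b` (`Nat.find`). For a nonroot `x` and `e` in the closure of
`{x, par x}` (`inClosure_iff`): `D₁ e` is zero outside `x, p x`, so
`θ ⬝ᵥ D₁ e = D₁ e x * θ x + D₁ e (p x) * θ (p x)`. By `agree` for the sets
`insert e (B.erase b)` (`nsone`) `D₂ e b = 0 ↔ D₁ e b = 0` for all `b` (`e ∉ B`; for `e ∈ B` both
are the unit vector). For two labels `e, e'` of the line outside `B`, `agree` for
`{e, e'} ∪ (B \ {x, par x})` shows that `D₂ e`, `D₂ e'` are parallel iff `D₁ e`, `D₁ e'` are.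
The `q + 1` pairwise nonparallel labels of the line realise all ratios: the map
`e ↦ if D₁ e x = 0 then none else some (- D₁ e (p x) / D₁ e x)` to `Option F` is injective on
`L`, so onto. For `g ≠ 0` let `ln x g` be a label `e` with ratio `g = - D₁ e (p x) / D₁ e x`,
`ln x (δ x) = mid x` for `δ x` the ratio of `mid x`, and `f x g = - D₂ e (p x) / D₂ e x`,
`f x 0 = 0`: injective, so a bijection of the finite field. For roots take `f x = Equiv.refl`,
`δ x = 1`. -/
theorem exists_lines {R₁ E F : Type} [Field F] [Fintype F] [Fintype E] [DecidableEq E]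
    (A₁ : Matrix R₁ E F) (B : Finset E) (par mid : E → E)
    (hf : LineForest A₁ B par mid) (L₁ : (B → F) →ₗ[F] (R₁ → F)) (D₁ D₂ : E → B → F)
    (hinj : Function.Injective L₁) (hL : ∀ x, L₁ x = ∑ b : B, x b • col A₁ b)
    (hD : ∀ e, L₁ (D₁ e) = col A₁ e)
    (h₁ : ∀ b : B, D₁ b = Pi.single b 1) (h₂ : ∀ b : B, D₂ b = Pi.single b 1)
    (agree : ∀ S : Finset E, S.card = B.card → (S \ B).card ≤ 2 → (NS D₁ S ↔ NS D₂ S)) :
    ∃ (p : B → B) (dep : B → ℕ) (f : B → F ≃ F) (δ : B → F) (ln : B → F → E),
      Forest p dep ∧ (∀ b : B, (p b : E) = par b) ∧ (∀ x, f x 0 = 0) ∧ (∀ x, δ x ≠ 0) ∧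
      (∀ x, dep x ≠ 0 → ∀ g : F, g ≠ 0 → ∀ θ : B → F,
        θ ⬝ᵥ D₁ (ln x g) = 0 ↔ θ x = g * θ (p x)) ∧
      (∀ x, dep x ≠ 0 → ∀ g : F, g ≠ 0 → ∀ φ : B → F,
        φ ⬝ᵥ D₂ (ln x g) = 0 ↔ φ x = f x g * φ (p x)) ∧
      ∀ x : B, dep x ≠ 0 → ln x (δ x) = mid x := by
  classical
  let p : B → B := fun b => ⟨par b, hf.par_mem b b.2⟩
  have hp : ∀ b : B, (p b : E) = par b := fun b => rfl
  let dep : B → ℕ := fun b => Nat.find (hf.reach b b.2)
  have hroot : ∀ x : B, dep x = 0 ↔ par x = x := by
    intro x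
    simp only [dep]
    rw [Nat.find_eq_zero]
    simp
  have hforest : Forest p dep := by
    refine ⟨fun x => ?_, fun x hx => ?_⟩
    · rw [hroot x]
      constructor
      · intro h; exact Subtype.ext h
      · intro h; exact congrArg Subtype.val h
    · have h0 : ¬ (par (par^[0] (x : E)) = par^[0] (x : E)) := by
        intro h
        exact hx ((hroot x).2 h)
      have h1 : ∃ n : ℕ, par (par^[n + 1] (x : E)) = par^[n + 1] (x : E) := by
        obtain ⟨n, hn⟩ := hf.reach (p x) (p x).2
        exact ⟨n, by rw [Function.iterate_succ_apply]; exact hn⟩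
      have h2 := Nat.find_comp_succ (hf.reach x x.2) h1 h0
      simp only [dep]
      rw [h2]
      congr 1
  have main : ∀ x : B, ∃ (f : F ≃ F) (δ : F) (ln : F → E), f 0 = 0 ∧ δ ≠ 0 ∧
      (dep x ≠ 0 → (∀ g : F, g ≠ 0 → ∀ θ : B → F, θ ⬝ᵥ D₁ (ln g) = 0 ↔ θ x = g * θ (p x)) ∧
      (∀ g : F, g ≠ 0 → ∀ φ : B → F, φ ⬝ᵥ D₂ (ln g) = 0 ↔ φ x = f g * φ (p x)) ∧
      ln δ = mid x) := by
    intro x
    by_cases hx : dep x = 0
    · exact ⟨Equiv.refl F, 1, fun _ => x, rfl, one_ne_zero, fun h => absurd hx h⟩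
    · have hpx : par x ≠ x := fun h => hx ((hroot x).2 h)
      have hxy : x ≠ p x := fun h => hpx (congrArg Subtype.val h).symm
      obtain ⟨f, δ, ln, a1, a2, a3, a4, a5⟩ := one_line A₁ L₁ D₁ D₂ hinj hL hD h₁ h₂ agree x (p x)
        hxy (hf.line x x.2 hpx) (mid x) (hf.mid_mem x x.2 hpx) (hf.mid_left x x.2 hpx)
        (hf.mid_right x x.2 hpx)
      exact ⟨f, δ, ln, a1, a2, fun _ => ⟨a3, a4, a5⟩⟩
  choose f δ ln a1 a2 a3 using main
  exact ⟨p, dep, f, δ, ln, hforest, hp, a1, a2, fun x hx => (a3 x hx).1,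
    fun x hx => (a3 x hx).2.1, fun x hx => (a3 x hx).2.2⟩

end Pool.Agent.H.MP_9123af_lc.Fl
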