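import Pool.Agent.H.MP_9123af_lc.Fl.St

/-!
# From tests on sets to determinants with rows of small complexity
-/

namespace Pool.Agent.H.MP_9123af_lc.Fl

open Finset

variable {ι E F : Type} [Fintype ι] [DecidableEq ι] [Fintype E] [DecidableEq E] [Field F]

/-- If the functionals vanishing on `S'` are exactly the combinations of the independent
functionals `Θ ρ`, and `S'` has `|ι| - |I|` elements, then adding the labels `y j` gives a
nonsingular set of `|ι|` labels if and only if the determinant is nonzero.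
PROOF. If `det ≠ 0`, a functional vanishing on `S' ∪ y(I)` is `∑ c ρ • Θ ρ` with `c ᵥ* Z = 0`,
so `c = 0`; and then `S' ∪ y(I)` has at least `|ι|` elements (`NS.card_le`). Conversely, if
`det = 0` there is `c ≠ 0` with `c ᵥ* Z = 0`, and `∑ c ρ • Θ ρ ≠ 0` vanishes on `S' ∪ y(I)`. -/
theorem ns_iff_det (D : E → ι → F) (I : Finset ι) (y : I → E) (Θ : I → ι → F) (S' : Finset E)
    (hΘ : ∀ c : I → F, ∑ ρ, c ρ • Θ ρ = 0 → c = 0)
    (hΘ0 : ∀ ρ, ∀ e ∈ S', Θ ρ ⬝ᵥ D e = 0)
    (hS' : ∀ ψ : ι → F, (∀ e ∈ S', ψ ⬝ᵥ D e = 0) → ∃ c : I → F, ψ = ∑ ρ, c ρ • Θ ρ) :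
    NS D (S' ∪ univ.image y) ↔ (Matrix.of fun ρ j : I => Θ ρ ⬝ᵥ D (y j)).det ≠ 0 := by
  classical
  constructor
  · intro h h0
    rw [← Matrix.exists_vecMul_eq_zero_iff] at h0
    obtain ⟨c, hc, hcZ⟩ := h0
    apply hc
    apply hΘ
    apply h
    intro e he
    rw [mem_union, mem_image] at he
    rw [sum_dotProduct]
    rcases he with he | ⟨j, -, rfl⟩
    · apply Finset.sum_eq_zero
      intro ρ _
      rw [smul_dotProduct, hΘ0 ρ e he, smul_zero]
    · have h1 := congrFun hcZ j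
      rw [Pi.zero_apply] at h1
      rw [← h1]
      simp only [Matrix.vecMul, dotProduct, Matrix.of_apply, Pi.smul_apply, smul_eq_mul,
        Finset.mul_sum, mul_assoc]
  · intro h ψ hψ
    obtain ⟨c, rfl⟩ := hS' ψ (fun e he => hψ e (mem_union_left _ he))
    by_cases hc : c = 0
    · rw [hc]; simp
    · exfalso
      apply h
      rw [← Matrix.exists_vecMul_eq_zero_iff]
      refine ⟨c, hc, ?_⟩
      funext j
      have h1 := hψ (y j) (mem_union_right _ (mem_image_of_mem _ (mem_univ j)))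
      rw [sum_dotProduct] at h1
      rw [Pi.zero_apply, ← h1]
      simp only [Matrix.vecMul, dotProduct, Matrix.of_apply, Pi.smul_apply, smul_eq_mul,
        Finset.mul_sum, mul_assoc]


theorem mem_shiftI {ι E : Type} [Fintype ι] (p : ι → ι) (emb mid : ι → E) (W : Finset ι)
    (x : ι) (e : E) (h₁ : x ∈ ancI p W → p x ≠ x → mid x = e)
    (h₂ : ¬ (x ∈ ancI p W ∧ p x ≠ x) → emb x = e) : e ∈ shiftI p emb mid W := by
  classical
  unfold shiftI
  refine mem_image.2 ⟨x, mem_univ _, ?_⟩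
  by_cases h : x ∈ ancI p W ∧ p x ≠ x
  · rw [if_pos h]; exact h₁ h.1 h.2
  · rw [if_neg h]; exact h₂ h

open Classical in
/-- The support of the rows. -/
noncomputable def suppX (p : ι → ι) (dep : ι → ℕ) (I : Finset ι) (tA : I → Prop) (gg : ι → F)
    (xx : I → ι) : Finset ι :=
  univ.filter (fun x => ∃ ρ : I, p^[dep x] x = ρ ∧
    ((tA ρ ∧ wt p dep gg x ≠ 0) ∨ (¬ tA ρ ∧ x = xx ρ)))

open Classical in
/-- The set of labels on which exactly the combinations of the rows vanish. -/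
noncomputable def linkS (p : ι → ι) (dep : ι → ℕ) (emb : ι → E) (ln : ι → F → E) (I : Finset ι)
    (tA : I → Prop) (gg : ι → F) (xx : I → ι) : Finset E :=
  (univ.filter (fun b => b ∉ suppX p dep I tA gg xx)).image emb ∪
    (univ.filter (fun x => x ∈ suppX p dep I tA gg xx ∧ dep x ≠ 0 ∧ gg x ≠ 0)).image
      (fun x => ln x (gg x))

omit [DecidableEq ι] in
theorem tp_par {p : ι → ι} {dep : ι → ℕ} (hp : Forest p dep) (x : ι) :
    p^[dep (p x)] (p x) = p^[dep x] x := by
  by_cases h : dep x = 0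
  · rw [(hp.root_iff x).1 h]
  · rw [hp.step x h, Function.iterate_succ_apply]

omit [DecidableEq ι] in
theorem tp_iter {p : ι → ι} {dep : ι → ℕ} (hp : Forest p dep) (i : ℕ) (x : ι) :
    p^[dep (p^[i] x)] (p^[i] x) = p^[dep x] x := by
  induction i with
  | zero => rfl
  | succ i ih => rw [Function.iterate_succ_apply', tp_par hp, ih]

omit [DecidableEq ι] in
theorem dep_tp {p : ι → ι} {dep : ι → ℕ} (hp : Forest p dep) (x : ι) :
    dep (p^[dep x] x) = 0 := by
  rw [St_dep_iter hp]; omega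

/-- Rows against their set of labels, for one of the two systems. -/
theorem ns_rows (p : ι → ι) (dep : ι → ℕ) (hp : Forest p dep) (D : E → ι → F) (emb : ι → E)
    (h : ∀ i, D (emb i) = Pi.single i 1) (ln : ι → F → E) (φm : ι → F → F)
    (hφm : ∀ x g, φm x g = 0 ↔ g = 0)
    (hl : ∀ x, dep x ≠ 0 → ∀ g : F, g ≠ 0 → ∀ θ : ι → F,
      θ ⬝ᵥ D (ln x g) = 0 ↔ θ x = φm x g * θ (p x))
    (I : Finset ι) (hI : ∀ ρ ∈ I, dep ρ = 0) (tA : I → Prop) (gg : ι → F) (xx : I → ι)
    (hxx : ∀ ρ : I, ¬ tA ρ → p^[dep (xx ρ)] (xx ρ) = ρ)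
    (hgB : ∀ (x : ι) (ρ : I), ¬ tA ρ → p^[dep x] x = ρ → gg x = 0)
    (Θ : I → ι → F) (hA : ∀ ρ : I, tA ρ → Θ ρ = rowOf p dep (ρ : ι) (fun x => φm x (gg x)))
    (hB : ∀ ρ : I, ¬ tA ρ → Θ ρ = Pi.single (xx ρ) 1) (y : I → E) :
    NS D (linkS p dep emb ln I tA gg xx ∪ univ.image y) ↔
      (Matrix.of fun ρ j : I => Θ ρ ⬝ᵥ D (y j)).det ≠ 0 := by
  classical
  have hwt : ∀ x, wt p dep (fun x => φm x (gg x)) x ≠ 0 ↔ wt p dep gg x ≠ 0 := by
    intro x
    rw [wt_ne_zero_iff p dep hp, wt_ne_zero_iff p dep hp]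
    constructor
    · intro h1 z hz hz0 h2
      exact h1 z hz hz0 ((hφm z _).2 h2)
    · intro h1 z hz hz0 h2
      exact h1 z hz hz0 ((hφm z _).1 h2)
  have hroot : ∀ ρ : I, p^[dep (ρ : ι)] (ρ : ι) = ρ := by
    intro ρ; rw [hI _ ρ.2]; rfl
  -- membership in the support
  have hXA : ∀ (x : ι) (ρ : I), tA ρ → p^[dep x] x = ρ →
      (x ∈ suppX p dep I tA gg xx ↔ wt p dep gg x ≠ 0) := by
    intro x ρ hρ hx
    rw [suppX, mem_filter]
    constructor
    · rintro ⟨-, ρ', hρ', hor⟩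
      have h1 : ρ' = ρ := Subtype.ext (by rw [← hρ', hx])
      subst h1
      rcases hor with h2 | h2
      · exact h2.2
      · exact absurd hρ h2.1
    · intro h1
      exact ⟨mem_univ _, ρ, hx, Or.inl ⟨hρ, h1⟩⟩
  have hXB : ∀ (x : ι) (ρ : I), ¬ tA ρ → p^[dep x] x = ρ →
      (x ∈ suppX p dep I tA gg xx ↔ x = xx ρ) := by
    intro x ρ hρ hx
    rw [suppX, mem_filter]
    constructor
    · rintro ⟨-, ρ', hρ', hor⟩
      have h1 : ρ' = ρ := Subtype.ext (by rw [← hρ', hx])
      subst h1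
      rcases hor with h2 | h2
      · exact absurd h2.1 hρ
      · exact h2.2
    · intro h1
      exact ⟨mem_univ _, ρ, hx, Or.inr ⟨hρ, h1⟩⟩
  -- the rows outside the support and outside their tree
  have hΘtree : ∀ (ρ : I) (x : ι), p^[dep x] x ≠ ρ → Θ ρ x = 0 := by
    intro ρ x hx
    by_cases hρ : tA ρ
    · rw [hA ρ hρ]; exact if_neg hx
    · rw [hB ρ hρ, Pi.single_eq_of_ne]
      rintro rfl
      exact hx (hxx ρ hρ)
  have hΘX : ∀ (ρ : I) (x : ι), x ∉ suppX p dep I tA gg xx → Θ ρ x = 0 := by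
    intro ρ x hx
    by_cases hxρ : p^[dep x] x = ρ
    · by_cases hρ : tA ρ
      · rw [hA ρ hρ]
        unfold rowOf
        rw [if_pos hxρ]
        by_contra h1
        exact hx ((hXA x ρ hρ hxρ).2 ((hwt x).1 h1))
      · rw [hB ρ hρ, Pi.single_eq_of_ne]
        rintro rfl
        exact hx ((hXB _ ρ hρ hxρ).2 rfl)
    · exact hΘtree ρ x hxρ
  -- the base points
  let bs : I → ι := fun ρ => if tA ρ then (ρ : ι) else xx ρ
  have hbs_tree : ∀ ρ : I, p^[dep (bs ρ)] (bs ρ) = ρ := by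
    intro ρ
    by_cases hρ : tA ρ
    · simp only [bs, if_pos hρ]; exact hroot ρ
    · simp only [bs, if_neg hρ]; exact hxx ρ hρ
  have hbs1 : ∀ ρ : I, Θ ρ (bs ρ) = 1 := by
    intro ρ
    by_cases hρ : tA ρ
    · simp only [bs, if_pos hρ]
      rw [hA ρ hρ]
      unfold rowOf
      rw [if_pos (hroot ρ)]
      simp [wt, hI _ ρ.2]
    · simp only [bs, if_neg hρ]
      rw [hB ρ hρ, Pi.single_eq_same]
  have hbs0 : ∀ ρ ρ' : I, ρ' ≠ ρ → Θ ρ' (bs ρ) = 0 := by
    intro ρ ρ' hne
    apply hΘtree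
    rw [hbs_tree]
    intro h1
    exact hne (Subtype.ext h1.symm)
  apply ns_iff_det
  · intro c hc
    funext ρ
    have h1 := congrFun hc (bs ρ)
    rw [Finset.sum_apply, Finset.sum_eq_single ρ] at h1
    · rw [Pi.smul_apply, hbs1, smul_eq_mul, mul_one] at h1
      exact h1
    · intro ρ' _ hρ'
      rw [Pi.smul_apply, hbs0 ρ ρ' hρ', smul_zero]
    · intro h2; exact absurd (mem_univ _) h2
  · intro ρ e he
    rw [linkS, mem_union, mem_image, mem_image] at he
    rcases he with ⟨b, hb, rfl⟩ | ⟨x, hx, rfl⟩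
    · rw [h, dotProduct_single, mul_one]
      exact hΘX ρ b (mem_filter.1 hb).2
    · obtain ⟨-, hxX, hx0, hxg⟩ := mem_filter.1 hx
      rw [hl x hx0 _ hxg]
      by_cases hxρ : p^[dep x] x = ρ
      · by_cases hρ : tA ρ
        · rw [hA ρ hρ]
          unfold rowOf
          rw [if_pos hxρ, if_pos (by rw [tp_par hp]; exact hxρ), wt_step p dep hp _ x hx0]
        · exact absurd (hgB x ρ hρ hxρ) hxg
      · rw [hΘtree ρ x hxρ, hΘtree ρ (p x) (by rw [tp_par hp]; exact hxρ), mul_zero]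
  · intro ψ hψ
    have hψb : ∀ x, x ∉ suppX p dep I tA gg xx → ψ x = 0 := by
      intro x hx
      have h1 := hψ (emb x) (by
        rw [linkS, mem_union]
        exact Or.inl (mem_image_of_mem _ (mem_filter.2 ⟨mem_univ _, hx⟩)))
      rwa [h, dotProduct_single, mul_one] at h1
    have hψl : ∀ x, x ∈ suppX p dep I tA gg xx → dep x ≠ 0 → gg x ≠ 0 →
        ψ x = φm x (gg x) * ψ (p x) := by
      intro x hx hx0 hxg
      rw [← hl x hx0 _ hxg]
      apply hψ
      rw [linkS, mem_union]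
      exact Or.inr (mem_image.2 ⟨x, mem_filter.2 ⟨mem_univ _, hx, hx0, hxg⟩, rfl⟩)
    have hψA : ∀ (n : ℕ) (x : ι) (ρ : I), dep x = n → tA ρ → p^[dep x] x = ρ →
        ψ x = ψ ρ * wt p dep (fun x => φm x (gg x)) x := by
      intro n
      induction n with
      | zero =>
        intro x ρ hx hρ hxρ
        rw [hx] at hxρ
        have h1 : x = ρ := hxρ
        rw [← h1]
        simp [wt, hx]
      | succ n ih =>
        intro x ρ hx hρ hxρ
        have hx0 : dep x ≠ 0 := by omega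
        by_cases hxX : x ∈ suppX p dep I tA gg xx
        · have hw := (hXA x ρ hρ hxρ).1 hxX
          have hg : gg x ≠ 0 := (wt_ne_zero_iff p dep hp gg x).1 hw x ⟨0, rfl⟩ hx0
          rw [hψl x hxX hx0 hg, wt_step p dep hp _ x hx0]
          have h2 := hp.step x hx0
          rw [ih (p x) ρ (by omega) hρ (by rw [tp_par hp]; exact hxρ)]
          ring
        · have hw : wt p dep (fun x => φm x (gg x)) x = 0 := by
            by_contra h1
            exact hxX ((hXA x ρ hρ hxρ).2 ((hwt x).1 h1))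
          rw [hψb x hxX, hw, mul_zero]
    refine ⟨fun ρ => ψ (bs ρ), ?_⟩
    funext x
    rw [Finset.sum_apply]
    by_cases hx : p^[dep x] x ∈ I
    · rw [Finset.sum_eq_single ⟨p^[dep x] x, hx⟩]
      · rw [Pi.smul_apply, smul_eq_mul]
        by_cases hρ : tA ⟨p^[dep x] x, hx⟩
        · simp only [bs, if_pos hρ]
          rw [hA _ hρ]
          unfold rowOf
          rw [if_pos rfl]
          exact hψA (dep x) x ⟨p^[dep x] x, hx⟩ rfl hρ rfl
        · simp only [bs, if_neg hρ]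
          by_cases hxX : x ∈ suppX p dep I tA gg xx
          · have h1 := (hXB x ⟨p^[dep x] x, hx⟩ hρ rfl).1 hxX
            rw [hB _ hρ, ← h1, Pi.single_eq_same, mul_one]
          · rw [hψb x hxX, hΘX _ x hxX, mul_zero]
      · intro ρ' _ hρ'
        rw [Pi.smul_apply, hΘtree ρ' x, smul_zero]
        intro h1
        exact hρ' (Subtype.ext h1.symm)
      · intro h1; exact absurd (mem_univ _) h1
    · have hxX : x ∉ suppX p dep I tA gg xx := by
        intro h1
        rw [suppX, mem_filter] at h1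
        obtain ⟨-, ρ, hρ, -⟩ := h1
        rw [hρ] at hx
        exact hx ρ.2
      rw [hψb x hxX, eq_comm]
      apply Finset.sum_eq_zero
      intro ρ _
      rw [Pi.smul_apply, hΘX ρ x hxX, smul_zero]

/-- PROOF. Given rows `(Θ ρ, Φ ρ)` as in `BRow`. For `ρ` of the first type (gain function
`g_ρ`, witnesses `W_ρ`, `N_ρ`) let `X_ρ` be the set of `x` with `p^[dep x] x = ρ` and
`wt p dep g_ρ x ≠ 0` (parent-closed, contains `ρ`); for `ρ` of the second type let `X_ρ = {x}`.
`X = ⋃ X_ρ` and `S' = {emb b : b ∉ X} ∪ {ln x (g_ρ x) : x ∈ X_ρ, dep x ≠ 0, ρ of the first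
type}`. The functionals vanishing on `S'` (for `D₁`) vanish outside `X` and satisfy
`θ x = g_ρ x * θ (p x)` on `X_ρ`, so they are the combinations of the `Θ ρ`
(`θ x = θ ρ * wt g_ρ x`); in the same way for `D₂` and `Φ`. `ns_iff_det` twice. If `S = S' ∪ y(I)`
has less than `|ι|` elements both determinants are `0` (`NS.card_le`); otherwise `|S| = |ι|`
(note `|S'| ≤ |ι| - |I|`) and it remains to see that `agree` applies: let `W` be the union over
the `ρ` of the first type of the sets of the lowest elements of `X_ρ` above the elements of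
`W_ρ` in the tree of `ρ`; then `ancI p W ∩ (tree of ρ)` is `X_ρ` or (if empty) `X_ρ = {ρ}`, so
`S'` differs from `shiftI p emb (fun x => ln x (δ x)) W` by elements `ln x (g_ρ x)` with
`x ∈ N_ρ` only, and `S \ shiftI` has at most `9 k + k` elements (`|I| ≤ k`: the elements
of `I` are roots). -/
theorem det_of_tests (p : ι → ι) (dep : ι → ℕ) (hp : Forest p dep) (f : ι → F ≃ F)
    (hf : ∀ x, f x 0 = 0) (δ : ι → F) (hδ : ∀ x, δ x ≠ 0) (D₁ D₂ : E → ι → F) (emb : ι → E)
    (h₁ : ∀ i, D₁ (emb i) = Pi.single i 1) (h₂ : ∀ i, D₂ (emb i) = Pi.single i 1)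
    (ln : ι → F → E)
    (hl₁ : ∀ x, dep x ≠ 0 → ∀ g : F, g ≠ 0 → ∀ θ : ι → F,
      θ ⬝ᵥ D₁ (ln x g) = 0 ↔ θ x = g * θ (p x))
    (hl₂ : ∀ x, dep x ≠ 0 → ∀ g : F, g ≠ 0 → ∀ φ : ι → F,
      φ ⬝ᵥ D₂ (ln x g) = 0 ↔ φ x = f x g * φ (p x))
    (k : ℕ) (hk : ((univ : Finset ι).filter (fun x => dep x = 0)).card ≤ k)
    (agree : ∀ W : Finset ι, W.card ≤ 4 * k → ∀ S : Finset E, S.card = Fintype.card ι →
      (S \ shiftI p emb (fun x => ln x (δ x)) W).card ≤ 10 * k → (NS D₁ S ↔ NS D₂ S))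
    (I : Finset ι) (hI : ∀ ρ ∈ I, dep ρ = 0) (y : I → E)
    (Θ Φ : I → ι → F) (hrow : ∀ ρ : I, BRow p dep f δ ρ (Θ ρ) (Φ ρ)) :
    (Matrix.of fun ρ j : I => Θ ρ ⬝ᵥ D₁ (y j)).det = 0 ↔
      (Matrix.of fun ρ j : I => Φ ρ ⬝ᵥ D₂ (y j)).det = 0 := by
  classical
  have hdata : ∀ ρ : I, ∃ (t : Prop) (g : ι → F) (W N : Finset ι) (x : ι),
      (t → W.card ≤ 4 ∧ N.card ≤ 9 ∧ (∀ x, g x ≠ 0 → ∃ w ∈ W, Below p x w) ∧
        (∀ x, g x ≠ 0 → g x ≠ δ x → x ∈ N) ∧ Θ ρ = rowOf p dep (ρ : ι) g ∧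
        Φ ρ = rowOf p dep (ρ : ι) (ap f g)) ∧
      (¬ t → p^[dep x] x = ρ ∧ Θ ρ = Pi.single x 1 ∧ Φ ρ = Pi.single x 1) := by
    intro ρ
    rcases hrow ρ with ⟨g, ⟨W, N, hW, hN, h3, h4⟩, h5, h6⟩ | ⟨x, hx, h5, h6⟩
    · exact ⟨True, g, W, N, ρ, fun _ => ⟨hW, hN, h3, h4, h5, h6⟩, fun h => absurd trivial h⟩
    · exact ⟨False, 0, ∅, ∅, x, fun h => h.elim, fun _ => ⟨hx, h5, h6⟩⟩
  choose tA gA WA NA xx hAd hBd using hdata
  let gg : ι → F := fun x => if hx : p^[dep x] x ∈ I then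
    (if tA ⟨p^[dep x] x, hx⟩ then gA ⟨p^[dep x] x, hx⟩ x else 0) else 0
  have hggA : ∀ (x : ι) (ρ : I), tA ρ → p^[dep x] x = ρ → gg x = gA ρ x := by
    intro x ρ hρ hx
    have hmem : p^[dep x] x ∈ I := by rw [hx]; exact ρ.2
    have hsub : (⟨p^[dep x] x, hmem⟩ : I) = ρ := Subtype.ext hx
    simp only [gg, dif_pos hmem, hsub, if_pos hρ]
  have hggB : ∀ (x : ι) (ρ : I), ¬ tA ρ → p^[dep x] x = ρ → gg x = 0 := by
    intro x ρ hρ hx
    have hmem : p^[dep x] x ∈ I := by rw [hx]; exact ρ.2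
    have hsub : (⟨p^[dep x] x, hmem⟩ : I) = ρ := Subtype.ext hx
    simp only [gg, dif_pos hmem, hsub, if_neg hρ]
  have hwtA : ∀ (F' : (ι → F) → (ι → F)), (∀ g g' : ι → F, ∀ z, g z = g' z → F' g z = F' g' z) →
      ∀ (x : ι) (ρ : I), tA ρ → p^[dep x] x = ρ →
      wt p dep (F' gg) x = wt p dep (F' (gA ρ)) x := by
    intro F' hF' x ρ hρ hx
    apply wt_congr p dep hp
    rintro z ⟨i, rfl⟩ _
    exact hF' _ _ _ (hggA _ ρ hρ (by rw [tp_iter hp]; exact hx))
  have hrowA : ∀ (F' : (ι → F) → (ι → F)), (∀ g g' : ι → F, ∀ z, g z = g' z → F' g z = F' g' z) →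
      ∀ ρ : I, tA ρ → rowOf p dep (ρ : ι) (F' (gA ρ)) = rowOf p dep (ρ : ι) (F' gg) := by
    intro F' hF' ρ hρ
    funext x
    unfold rowOf
    by_cases hx : p^[dep x] x = ρ
    · rw [if_pos hx, if_pos hx, hwtA F' hF' x ρ hρ hx]
    · rw [if_neg hx, if_neg hx]
  have e1 := ns_rows p dep hp D₁ emb h₁ ln (fun _ g => g) (fun _ _ => Iff.rfl) hl₁ I hI tA gg xx
    (fun ρ hρ => (hBd ρ hρ).1) hggB Θ (fun ρ hρ => by
      rw [(hAd ρ hρ).2.2.2.2.1]
      exact hrowA (fun g => g) (fun _ _ _ h => h) ρ hρ) (fun ρ hρ => (hBd ρ hρ).2.1) y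
  have e2 := ns_rows p dep hp D₂ emb h₂ ln (fun x g => f x g) (fun x g => by
      constructor
      · intro h0
        apply (f x).injective
        rw [h0, hf]
      · intro h0; rw [h0, hf]) hl₂ I hI tA gg xx
    (fun ρ hρ => (hBd ρ hρ).1) hggB Φ (fun ρ hρ => by
      rw [(hAd ρ hρ).2.2.2.2.2]
      exact hrowA (fun g => ap f g) (fun g g' z h => by simp only [ap, h]) ρ hρ)
    (fun ρ hρ => (hBd ρ hρ).2.2) y
  set S := linkS p dep emb ln I tA gg xx ∪ univ.image y with hS
  have hmain : NS D₁ S ↔ NS D₂ S := by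
    by_cases hcard : S.card < Fintype.card ι
    · constructor
      · intro h; exact absurd h.card_le (by omega)
      · intro h; exact absurd h.card_le (by omega)
    -- the number of elements
    set X := suppX p dep I tA gg xx with hX
    have hroot : ∀ ρ : I, p^[dep (ρ : ι)] (ρ : ι) = ρ := by
      intro ρ; rw [hI _ ρ.2]; rfl
    let bs : I → ι := fun ρ => if tA ρ then (ρ : ι) else xx ρ
    have hbs_tree : ∀ ρ : I, p^[dep (bs ρ)] (bs ρ) = ρ := by
      intro ρ
      by_cases hρ : tA ρ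
      · simp only [bs, if_pos hρ]; exact hroot ρ
      · simp only [bs, if_neg hρ]; exact (hBd ρ hρ).1
    have hbsX : ∀ ρ : I, bs ρ ∈ X := by
      intro ρ
      rw [hX, suppX, mem_filter]
      refine ⟨mem_univ _, ρ, hbs_tree ρ, ?_⟩
      by_cases hρ : tA ρ
      · left
        refine ⟨hρ, ?_⟩
        simp only [bs, if_pos hρ]
        simp [wt, hI _ ρ.2]
      · right
        exact ⟨hρ, by simp only [bs, if_neg hρ]⟩
    have hbsn : ∀ ρ : I, ¬ (dep (bs ρ) ≠ 0 ∧ gg (bs ρ) ≠ 0) := by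
      rintro ρ ⟨h3, h4⟩
      by_cases hρ : tA ρ
      · simp only [bs, if_pos hρ] at h3
        exact h3 (hI _ ρ.2)
      · exact h4 (hggB _ ρ hρ (hbs_tree ρ))
    have hbsinj : Function.Injective bs := by
      intro ρ ρ' hρρ'
      apply Subtype.ext
      rw [← hbs_tree ρ, ← hbs_tree ρ', hρρ']
    have hc1 : (univ.filter (fun b => b ∉ X)).card +
        ((univ.filter (fun x => x ∈ X ∧ dep x ≠ 0 ∧ gg x ≠ 0)).card + (univ.image bs).card) ≤
        Fintype.card ι := by
      rw [← card_union_of_disjoint, ← card_union_of_disjoint]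
      · exact card_le_univ _
      · rw [disjoint_left]
        intro x hx hx'
        have h3 := (mem_filter.1 hx).2
        rw [mem_union, mem_filter, mem_image] at hx'
        rcases hx' with h4 | ⟨ρ, -, rfl⟩
        · exact h3 h4.2.1
        · exact h3 (hbsX ρ)
      · rw [disjoint_left]
        intro x hx hx'
        obtain ⟨ρ, -, rfl⟩ := mem_image.1 hx'
        exact hbsn ρ (mem_filter.1 hx).2.2
    rw [card_image_of_injective _ hbsinj, card_univ] at hc1
    have hc2 : S.card ≤ ((univ.filter (fun b => b ∉ X)).card +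
        (univ.filter (fun x => x ∈ X ∧ dep x ≠ 0 ∧ gg x ≠ 0)).card) + Fintype.card I := by
      rw [hS]
      refine (card_union_le _ _).trans ?_
      refine Nat.add_le_add ?_ (card_image_le.trans (by rw [card_univ]))
      unfold linkS
      refine (card_union_le _ _).trans ?_
      refine Nat.add_le_add ?_ ?_
      · exact card_image_le
      · exact card_image_le
    have hScard : S.card = Fintype.card ι := by omega
    -- the generators
    have hlow : ∀ w : ι, p^[dep w] w ∈ I → (∀ hw : p^[dep w] w ∈ I, tA ⟨p^[dep w] w, hw⟩) →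
        ∃ j : ℕ, p^[j] w ∈ X := by
      intro w hw htA
      refine ⟨dep w, ?_⟩
      have h3 := hbsX ⟨p^[dep w] w, hw⟩
      simp only [bs, if_pos (htA hw)] at h3
      exact h3
    let low : ι → ι := fun w => if h : ∃ j : ℕ, p^[j] w ∈ X then p^[Nat.find h] w else w
    let W : Finset ι := (univ : Finset I).biUnion (fun ρ =>
      if tA ρ then ((WA ρ).filter (fun w => p^[dep w] w = ρ)).image low else ∅)
    let N : Finset ι := (univ : Finset I).biUnion (fun ρ => if tA ρ then NA ρ else ∅)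
    have hIk : Fintype.card I ≤ k := by
      rw [Fintype.card_coe]
      refine le_trans (card_le_card ?_) hk
      intro ρ hρ
      exact mem_filter.2 ⟨mem_univ _, hI ρ hρ⟩
    have hWcard : W.card ≤ 4 * k := by
      have h3 : W.card ≤ (univ : Finset I).card * 4 := by
        apply card_biUnion_le_card_mul
        intro ρ _
        by_cases hρ : tA ρ
        · rw [if_pos hρ]
          exact card_image_le.trans ((card_filter_le _ _).trans (hAd ρ hρ).1)
        · rw [if_neg hρ]; simp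
      rw [card_univ] at h3
      omega
    have hNcard : N.card ≤ 9 * Fintype.card I := by
      have h3 : N.card ≤ (univ : Finset I).card * 9 := by
        apply card_biUnion_le_card_mul
        intro ρ _
        by_cases hρ : tA ρ
        · rw [if_pos hρ]
          exact (hAd ρ hρ).2.1
        · rw [if_neg hρ]; simp
      rw [card_univ] at h3
      omega
    -- membership of ancestors
    have hXup : ∀ (x : ι) (ρ : I), tA ρ → p^[dep x] x = ρ → x ∈ X → ∀ i, p^[i] x ∈ X := by
      intro x ρ hρ hxρ hx i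
      rw [hX, suppX, mem_filter] at hx ⊢
      refine ⟨mem_univ _, ρ, by rw [tp_iter hp]; exact hxρ, Or.inl ⟨hρ, ?_⟩⟩
      obtain ⟨-, ρ', hρ', hor⟩ := hx
      have h4 : ρ' = ρ := Subtype.ext (by rw [← hρ', hxρ])
      subst h4
      rcases hor with h5 | h5
      · rw [wt_ne_zero_iff p dep hp] at h5 ⊢
        intro z hz hz0
        exact h5.2 z (St_below_of hz) hz0
      · exact absurd hρ h5.1
    have hlowX : ∀ w : ι, (∃ j : ℕ, p^[j] w ∈ X) → low w ∈ X := by
      intro w hw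
      simp only [low, dif_pos hw]
      exact Nat.find_spec hw
    have hlowit : ∀ w : ι, ∃ j : ℕ, low w = p^[j] w := by
      intro w
      by_cases hw : ∃ j : ℕ, p^[j] w ∈ X
      · exact ⟨Nat.find hw, by simp only [low, dif_pos hw]⟩
      · exact ⟨0, by simp only [low, dif_neg hw]; rfl⟩
    have hWmem : ∀ w' ∈ W, ∃ ρ : I, tA ρ ∧ p^[dep w'] w' = ρ ∧ w' ∈ X := by
      intro w' hw'
      rw [mem_biUnion] at hw'
      obtain ⟨ρ, -, hρ⟩ := hw'
      by_cases htρ : tA ρ
      · rw [if_pos htρ, mem_image] at hρ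
        obtain ⟨w, hw, rfl⟩ := hρ
        have hwρ := (mem_filter.1 hw).2
        obtain ⟨j, hj⟩ := hlowit w
        refine ⟨ρ, htρ, ?_, ?_⟩
        · rw [hj, tp_iter hp]; exact hwρ
        · apply hlowX
          apply hlow w (by rw [hwρ]; exact ρ.2)
          intro h5
          have h6 : (⟨p^[dep w] w, h5⟩ : I) = ρ := Subtype.ext hwρ
          rw [h6]; exact htρ
      · rw [if_neg htρ] at hρ
        exact absurd hρ (notMem_empty _)
    have hancX : ∀ x, x ∈ ancI p W → x ∈ X := by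
      rintro x ⟨w', hw', i, rfl⟩
      obtain ⟨ρ, hρ, hw'ρ, hw'X⟩ := hWmem w' hw'
      exact hXup w' ρ hρ hw'ρ hw'X i
    have hXanc : ∀ x, x ∈ X → dep x ≠ 0 → gg x ≠ 0 → x ∈ ancI p W := by
      intro x hx hx0 hxg
      have hx' := hx
      rw [hX, suppX, mem_filter] at hx
      obtain ⟨-, ρ, hρ, hor⟩ := hx
      have htρ : tA ρ := by
        by_contra h5
        exact hxg (hggB x ρ h5 hρ)
      obtain ⟨w, hw, i, hi⟩ := (hAd ρ htρ).2.2.1 x (by rw [← hggA x ρ htρ hρ]; exact hxg)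
      have hwρ : p^[dep w] w = ρ := by
        rw [← tp_iter hp i w, hi]; exact hρ
      have hex : ∃ j : ℕ, p^[j] w ∈ X := ⟨i, by rw [hi]; exact hx'⟩
      refine ⟨low w, ?_, ?_⟩
      · rw [mem_biUnion]
        refine ⟨ρ, mem_univ _, ?_⟩
        rw [if_pos htρ]
        exact mem_image_of_mem _ (mem_filter.2 ⟨hw, hwρ⟩)
      · have h6 : Nat.find hex ≤ i := Nat.find_min' hex (by rw [hi]; exact hx')
        refine ⟨i - Nat.find hex, ?_⟩
        simp only [low, dif_pos hex]
        rw [← Function.iterate_add_apply, Nat.sub_add_cancel h6, hi]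
    apply agree W hWcard S hScard
    have hsub : S \ shiftI p emb (fun x => ln x (δ x)) W ⊆
        N.image (fun x => ln x (gg x)) ∪ univ.image y := by
      intro e he
      rw [mem_sdiff] at he
      obtain ⟨heS, hesh⟩ := he
      rw [hS, mem_union] at heS
      rw [mem_union]
      rcases heS with heS | heS
      · left
        unfold linkS at heS
        rw [mem_union, mem_image, mem_image] at heS
        rcases heS with ⟨b, hb, rfl⟩ | ⟨x, hx, rfl⟩
        · exfalso
          exact hesh (mem_shiftI p emb _ W b _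
            (fun h5 _ => absurd (hancX b h5) (mem_filter.1 hb).2) (fun _ => rfl))
        · obtain ⟨-, hxX, hx0, hxg⟩ := mem_filter.1 hx
          by_cases hδx : gg x = δ x
          · exfalso
            exact hesh (mem_shiftI p emb _ W x _ (fun _ _ => by rw [hδx])
              (fun h5 => absurd ⟨hXanc x hxX hx0 hxg,
                fun h6 => hx0 ((hp.root_iff x).2 h6)⟩ h5))
          · rw [mem_image]
            refine ⟨x, ?_, rfl⟩
            rw [suppX, mem_filter] at hxX
            obtain ⟨-, ρ, hρ, -⟩ := hxX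
            have htρ : tA ρ := by
              by_contra h5
              exact hxg (hggB x ρ h5 hρ)
            rw [mem_biUnion]
            refine ⟨ρ, mem_univ _, ?_⟩
            rw [if_pos htρ]
            apply (hAd ρ htρ).2.2.2.1
            · rw [← hggA x ρ htρ hρ]; exact hxg
            · rw [← hggA x ρ htρ hρ]; exact hδx
      · exact Or.inr heS
    refine (card_le_card hsub).trans ((card_union_le _ _).trans ?_)
    have h7 : (N.image (fun x => ln x (gg x))).card ≤ N.card := card_image_le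
    have h8 : ((univ : Finset I).image y).card ≤ Fintype.card I :=
      card_image_le.trans (by rw [card_univ])
    omega
  rw [← not_iff_not]
  exact e1.symm.trans (hmain.trans e2)

end Pool.Agent.H.MP_9123af_lc.Fl
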