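import Pool.Agent.H.MP_9123af_lc.Fl.PsiMain
import Pool.Agent.H.MP_9123af_lc.Fl.Base
import Pool.Agent.H.MP_9123af_lc.Fl.Sets

/-!
# The theorem in coordinates
-/

namespace Pool.Agent.H.MP_9123af_lc.Fl

open Finset

variable {ι E F : Type} [Fintype ι] [DecidableEq ι] [Fintype E] [DecidableEq E] [Field F]

theorem coord_main (p : ι → ι) (dep : ι → ℕ) (hp : Forest p dep) (f : ι → F ≃ F)
    (hf : ∀ x, f x 0 = 0) (δ : ι → F) (hδ : ∀ x, δ x ≠ 0) (D₁ D₂ : E → ι → F) (emb : ι → E)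
    (h₁ : ∀ i, D₁ (emb i) = Pi.single i 1) (h₂ : ∀ i, D₂ (emb i) = Pi.single i 1)
    (ln : ι → F → E)
    (hl₁ : ∀ x, dep x ≠ 0 → ∀ g : F, g ≠ 0 → ∀ θ : ι → F,
      θ ⬝ᵥ D₁ (ln x g) = 0 ↔ θ x = g * θ (p x))
    (hl₂ : ∀ x, dep x ≠ 0 → ∀ g : F, g ≠ 0 → ∀ φ : ι → F,
      φ ⬝ᵥ D₂ (ln x g) = 0 ↔ φ x = f x g * φ (p x))
    (k : ℕ) (hk : ((univ : Finset ι).filter (fun x => dep x = 0)).card ≤ k)
    (agree : ∀ W : Finset ι, W.card ≤ 4 * k → ∀ S : Finset E, S.card = Fintype.card ι →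
      (S \ shiftI p emb (fun x => ln x (δ x)) W).card ≤ 10 * k → (NS D₁ S ↔ NS D₂ S))
    (S : Finset E) : NS D₁ S ↔ NS D₂ S := by
  have hall : ∀ (I : Finset ι), (∀ ρ ∈ I, dep ρ = 0) → ∀ (y : I → E) (g : I → ι → F),
      ((Matrix.of fun ρ j : I => rowOf p dep (ρ : ι) (g ρ) ⬝ᵥ D₁ (y j)).det = 0 ↔
      (Matrix.of fun ρ j : I => rowOf p dep (ρ : ι) (ap f (g ρ)) ⬝ᵥ D₂ (y j)).det = 0) := by
    intro I hI y g
    exact det_all p dep hp f hf δ hδ D₁ D₂ I hI y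
      (det_of_tests p dep hp f hf δ hδ D₁ D₂ emb h₁ h₂ ln hl₁ hl₂ k hk agree I hI y) g
  have hf' : ∀ x, (f x).symm 0 = 0 := by
    intro x; rw [Equiv.symm_apply_eq, hf]
  have hap : ∀ g : ι → F, ap f (ap (fun x => (f x).symm) g) = g := by
    intro g; funext x; simp [ap]
  obtain ⟨H12, H21⟩ := psi_main p dep hp f hf D₁ D₂ emb h₁ h₂ ln hl₁ hl₂
    (base_case p dep hp f hf D₁ D₂ (fun I hI y g => (hall I hI y g).2))
    (base_case p dep hp (fun x => (f x).symm) hf' D₂ D₁ (fun I hI y g h => by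
      have h3 := (hall I hI y (fun ρ => ap (fun x => (f x).symm) (g ρ))).1 h
      simp only [hap] at h3
      exact h3))
  constructor
  · intro h ψ hψ
    by_contra h0
    obtain ⟨θ, hθ, hθ2⟩ := H12 ψ h0
    exact hθ (h θ (fun e he => hθ2 e (hψ e he)))
  · intro h ψ hψ
    by_contra h0
    obtain ⟨θ, hθ, hθ2⟩ := H21 ψ h0
    exact hθ (h θ (fun e he => hθ2 e (hψ e he)))

end Pool.Agent.H.MP_9123af_lc.Fl
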