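import Pool.Agent.H.MP_9123af_lc.Fl.Defs

/-!
# Reduction to functionals with parent-closed support
-/

namespace Pool.Agent.H.MP_9123af_lc.Fl

open Finset

variable {ι E F : Type} [Fintype ι] [DecidableEq ι] [Fintype E] [DecidableEq E] [Field F]

open Classical in
/-- The rank of a functional: sum of `dep + 1` over the tops of its support. -/
noncomputable def psi (p : ι → ι) (dep : ι → ℕ) (φ : ι → F) : ℕ :=
  ∑ v ∈ univ.filter (fun v => φ v ≠ 0 ∧ (dep v = 0 ∨ φ (p v) = 0)), (dep v + 1)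

/-- The two comparisons of `psi`. -/
theorem psi_lt (p : ι → ι) (dep : ι → ℕ) (hp : Forest p dep) (φ χ : ι → F) (v : ι)
    (hv0 : dep v ≠ 0) (hv : φ v ≠ 0) (hu : φ (p v) = 0)
    (hsup : ∀ x, φ x = 0 → x ≠ p v → χ x = 0)
    (hcl : ∀ x, dep x ≠ 0 → φ x ≠ 0 → φ (p x) ≠ 0 → χ (p x) = 0 → χ x = 0)
    (h : χ (p v) ≠ 0 ∨ χ v = 0) : psi p dep χ < psi p dep φ := by
  classical
  have hvT : v ∈ univ.filter (fun x => φ x ≠ 0 ∧ (dep x = 0 ∨ φ (p x) = 0)) :=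
    mem_filter.2 ⟨mem_univ _, hv, Or.inr hu⟩
  have hdep : dep v = dep (p v) + 1 := hp.step v hv0
  have hsub : ∀ x ∈ univ.filter (fun x => χ x ≠ 0 ∧ (dep x = 0 ∨ χ (p x) = 0)), x ≠ p v →
      x ∈ (univ.filter (fun x => φ x ≠ 0 ∧ (dep x = 0 ∨ φ (p x) = 0))).erase v := by
    intro x hx hxu
    rw [mem_filter] at hx
    obtain ⟨-, hx1, hx2⟩ := hx
    have hφx : φ x ≠ 0 := fun h0 => hx1 (hsup x h0 hxu)
    have h3 : dep x = 0 ∨ φ (p x) = 0 := by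
      by_cases h0 : dep x = 0
      · exact Or.inl h0
      · right
        by_contra h4
        exact hx1 (hcl x h0 hφx h4 (hx2.resolve_left h0))
    refine mem_erase.2 ⟨?_, mem_filter.2 ⟨mem_univ _, hφx, h3⟩⟩
    rintro rfl
    rcases h with h | h
    · exact h (hx2.resolve_left hv0)
    · exact hx1 h
  have hT : ∑ x ∈ (univ.filter (fun x => φ x ≠ 0 ∧ (dep x = 0 ∨ φ (p x) = 0))).erase v,
      (dep x + 1) + (dep v + 1) = psi p dep φ := sum_erase_add _ _ hvT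
  by_cases hup : χ (p v) ≠ 0
  · have h1 : univ.filter (fun x => χ x ≠ 0 ∧ (dep x = 0 ∨ χ (p x) = 0)) ⊆
        insert (p v) ((univ.filter (fun x => φ x ≠ 0 ∧ (dep x = 0 ∨ φ (p x) = 0))).erase v) := by
      intro x hx
      by_cases hxu : x = p v
      · exact mem_insert.2 (Or.inl hxu)
      · exact mem_insert_of_mem (hsub x hx hxu)
    have h2 : p v ∉ (univ.filter (fun x => φ x ≠ 0 ∧ (dep x = 0 ∨ φ (p x) = 0))).erase v := by
      intro h3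
      have h4 := (mem_filter.1 (mem_of_mem_erase h3)).2.1
      exact h4 hu
    have h3 : psi p dep χ ≤ ∑ x ∈ insert (p v)
        ((univ.filter (fun x => φ x ≠ 0 ∧ (dep x = 0 ∨ φ (p x) = 0))).erase v), (dep x + 1) :=
      sum_le_sum_of_subset h1
    rw [sum_insert h2] at h3
    omega
  · have hup' : χ (p v) = 0 := not_not.1 hup
    have h1 : univ.filter (fun x => χ x ≠ 0 ∧ (dep x = 0 ∨ χ (p x) = 0)) ⊆
        (univ.filter (fun x => φ x ≠ 0 ∧ (dep x = 0 ∨ φ (p x) = 0))).erase v := by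
      intro x hx
      apply hsub x hx
      rintro rfl
      exact (mem_filter.1 hx).2.1 hup'
    have h3 : psi p dep χ ≤ ∑ x ∈
        (univ.filter (fun x => φ x ≠ 0 ∧ (dep x = 0 ∨ φ (p x) = 0))).erase v, (dep x + 1) :=
      sum_le_sum_of_subset h1
    omega

/-- ONE STEP. (Complete proof in `h75_9123af_FL.md`, section 2; it is elementary linear algebra
with the pencil of functionals `s • φ + ψ`.) -/
theorem psi_step (p : ι → ι) (dep : ι → ℕ) (hp : Forest p dep) (f : ι → F ≃ F)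
    (hf : ∀ x, f x 0 = 0) (D₁ D₂ : E → ι → F) (emb : ι → E)
    (h₁ : ∀ i, D₁ (emb i) = Pi.single i 1) (h₂ : ∀ i, D₂ (emb i) = Pi.single i 1)
    (ln : ι → F → E)
    (hl₁ : ∀ x, dep x ≠ 0 → ∀ g : F, g ≠ 0 → ∀ θ : ι → F,
      θ ⬝ᵥ D₁ (ln x g) = 0 ↔ θ x = g * θ (p x))
    (hl₂ : ∀ x, dep x ≠ 0 → ∀ g : F, g ≠ 0 → ∀ φ : ι → F,
      φ ⬝ᵥ D₂ (ln x g) = 0 ↔ φ x = f x g * φ (p x))
    (φ : ι → F) (v : ι) (hv0 : dep v ≠ 0) (hv : φ v ≠ 0) (hu : φ (p v) = 0)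
    (ih12 : ∀ φ' : ι → F, φ' ≠ 0 → psi p dep φ' < psi p dep φ →
      ∃ θ : ι → F, θ ≠ 0 ∧ ∀ e, φ' ⬝ᵥ D₂ e = 0 → θ ⬝ᵥ D₁ e = 0)
    (ih21 : ∀ θ : ι → F, θ ≠ 0 → psi p dep θ < psi p dep φ →
      ∃ φ' : ι → F, φ' ≠ 0 ∧ ∀ e, θ ⬝ᵥ D₁ e = 0 → φ' ⬝ᵥ D₂ e = 0) :
    ∃ θ : ι → F, θ ≠ 0 ∧ ∀ e, φ ⬝ᵥ D₂ e = 0 → θ ⬝ᵥ D₁ e = 0 := by
  classical
  by_contra hcon
  push Not at hcon
  have hdep : dep v = dep (p v) + 1 := hp.step v hv0
  have hvu : v ≠ p v := by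
    intro h
    rw [← h] at hdep
    omega
  -- the gains of `φ`
  set gl : ι → F := fun x => (f x).symm (φ x / φ (p x)) with hgl
  have hfgl : ∀ x, f x (gl x) = φ x / φ (p x) := fun x => (f x).apply_symm_apply _
  have hf0 : ∀ x g, g ≠ 0 → f x g ≠ 0 := by
    intro x g hg h
    apply hg
    apply (f x).injective
    rw [h, hf]
  have hgl0 : ∀ x, φ x ≠ 0 → φ (p x) ≠ 0 → gl x ≠ 0 := by
    intro x h1 h2 h3
    have h4 := hfgl x
    rw [h3, hf] at h4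
    exact div_ne_zero h1 h2 h4.symm
  have hφl : ∀ x, dep x ≠ 0 → φ x ≠ 0 → φ (p x) ≠ 0 → φ ⬝ᵥ D₂ (ln x (gl x)) = 0 := by
    intro x h0 h1 h2
    rw [hl₂ x h0 _ (hgl0 x h1 h2), hfgl, div_mul_cancel₀ _ h2]
  have hφe : ∀ b, φ b = 0 → φ ⬝ᵥ D₂ (emb b) = 0 := by
    intro b hb
    rw [h₂, dotProduct_single, mul_one, hb]
  -- (A)
  have hA : ∀ χ : ι → F, (∀ e, φ ⬝ᵥ D₂ e = 0 → χ ⬝ᵥ D₂ e = 0) → χ = (χ v / φ v) • φ := by
    intro χ hχ
    by_contra hne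
    have h0 : χ - (χ v / φ v) • φ ≠ 0 := sub_ne_zero.2 hne
    set χ' := χ - (χ v / φ v) • φ with hχ'
    have hvan : ∀ e, φ ⬝ᵥ D₂ e = 0 → χ' ⬝ᵥ D₂ e = 0 := by
      intro e he
      rw [hχ', sub_dotProduct, smul_dotProduct, hχ e he, he, smul_zero, sub_zero]
    have hlt : psi p dep χ' < psi p dep φ := by
      apply psi_lt p dep hp φ χ' v hv0 hv hu
      · intro x hx _
        have := hvan (emb x) (hφe x hx)
        rwa [h₂, dotProduct_single, mul_one] at this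
      · intro x h1 h2 h3 h4
        have h5 := (hl₂ x h1 _ (hgl0 x h2 h3) χ').1 (hvan _ (hφl x h1 h2 h3))
        rw [h5, h4, mul_zero]
      · right
        rw [hχ', Pi.sub_apply, Pi.smul_apply, smul_eq_mul, div_mul_cancel₀ _ hv, sub_self]
    obtain ⟨θ, hθ0, hθ⟩ := ih12 χ' h0 hlt
    obtain ⟨e, he, he'⟩ := hcon θ hθ0
    exact he' (hθ e (hvan e he))
  -- (B)
  let Z : Set (ι → F) := {ψ | ψ (p v) = 1 ∧ (∀ b, φ b = 0 → b ≠ p v → ψ b = 0) ∧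
    ∀ x, dep x ≠ 0 → φ x ≠ 0 → φ (p x) ≠ 0 → ψ ⬝ᵥ D₂ (ln x (gl x)) = 0}
  let Nn : (ι → F) → ℕ := fun ψ =>
    ((univ : Finset E).filter (fun e => φ ⬝ᵥ D₂ e = 0 ∧ ψ ⬝ᵥ D₂ e = 0)).card
  have hNle : ∀ ψ, Nn ψ ≤ Fintype.card E := fun ψ => card_le_univ _
  have hZne : Z.Nonempty := by
    refine ⟨Pi.single (p v) 1, ?_, ?_, ?_⟩
    · simp
    · intro b _ hb
      rw [Pi.single_eq_of_ne hb]
    · intro x h1 h2 h3
      rw [hl₂ x h1 _ (hgl0 x h2 h3)]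
      have e1 : x ≠ p v := by rintro rfl; exact h2 hu
      have e2 : p x ≠ p v := by intro h; rw [h] at h3; exact h3 hu
      rw [Pi.single_eq_of_ne e1, Pi.single_eq_of_ne e2, mul_zero]
  obtain ⟨ψ₀, hψ₀Z, hψ₀max⟩ := (measure (fun ψ : ι → F => Fintype.card E - Nn ψ)).wf.has_min Z hZne
  have hmax : ∀ ψ ∈ Z, Nn ψ ≤ Nn ψ₀ := by
    intro ψ hψ
    have h1 := hψ₀max ψ hψ
    have h2 : ¬ (Fintype.card E - Nn ψ < Fintype.card E - Nn ψ₀) := h1
    have h3 := hNle ψ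
    have h4 := hNle ψ₀
    omega
  obtain ⟨hψ₀u, hψ₀b, hψ₀l⟩ := hψ₀Z
  have hAnn₀ : ∀ χ : ι → F, (∀ e, φ ⬝ᵥ D₂ e = 0 → ψ₀ ⬝ᵥ D₂ e = 0 → χ ⬝ᵥ D₂ e = 0) →
      ∃ c d : F, χ = c • φ + d • ψ₀ := by
    intro χ hχ
    set χ' := χ - χ (p v) • ψ₀ with hχ'
    have hvan : ∀ e, φ ⬝ᵥ D₂ e = 0 → ψ₀ ⬝ᵥ D₂ e = 0 → χ' ⬝ᵥ D₂ e = 0 := by
      intro e he he'
      rw [hχ', sub_dotProduct, smul_dotProduct, hχ e he he', he', smul_zero, sub_zero]
    have hχ'u : χ' (p v) = 0 := by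
      rw [hχ', Pi.sub_apply, Pi.smul_apply, smul_eq_mul, hψ₀u, mul_one, sub_self]
    by_cases hH : ∀ e, φ ⬝ᵥ D₂ e = 0 → χ' ⬝ᵥ D₂ e = 0
    · refine ⟨χ' v / φ v, χ (p v), ?_⟩
      rw [← hA χ' hH, hχ', sub_add_cancel]
    · exfalso
      push Not at hH
      obtain ⟨e, he, he'⟩ := hH
      have hψe : ψ₀ ⬝ᵥ D₂ e ≠ 0 := fun h => he' (hvan e he h)
      set ψ₂ := ψ₀ - (ψ₀ ⬝ᵥ D₂ e / χ' ⬝ᵥ D₂ e) • χ' with hψ₂
      have hψ₂van : ∀ e', φ ⬝ᵥ D₂ e' = 0 → ψ₀ ⬝ᵥ D₂ e' = 0 → ψ₂ ⬝ᵥ D₂ e' = 0 := by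
        intro e' h1 h2
        rw [hψ₂, sub_dotProduct, smul_dotProduct, h2, hvan e' h1 h2, smul_zero, sub_zero]
      have hψ₂e : ψ₂ ⬝ᵥ D₂ e = 0 := by
        rw [hψ₂, sub_dotProduct, smul_dotProduct, smul_eq_mul, div_mul_cancel₀ _ he', sub_self]
      have hψ₂Z : ψ₂ ∈ Z := by
        refine ⟨?_, ?_, ?_⟩
        · rw [hψ₂, Pi.sub_apply, Pi.smul_apply, hχ'u, smul_zero, sub_zero, hψ₀u]
        · intro b hb hbu
          have h1 := hψ₂van (emb b) (hφe b hb) (by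
            rw [h₂, dotProduct_single, mul_one]; exact hψ₀b b hb hbu)
          rwa [h₂, dotProduct_single, mul_one] at h1
        · intro x h1 h2 h3
          exact hψ₂van _ (hφl x h1 h2 h3) (hψ₀l x h1 h2 h3)
      have h1 := hmax ψ₂ hψ₂Z
      have h2 : Nn ψ₀ < Nn ψ₂ := by
        apply card_lt_card
        rw [Finset.ssubset_iff_of_subset]
        · exact ⟨e, mem_filter.2 ⟨mem_univ _, he, hψ₂e⟩, fun h => hψe (mem_filter.1 h).2.2⟩
        · intro e' he'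
          rw [mem_filter] at he' ⊢
          exact ⟨mem_univ _, he'.2.1, hψ₂van e' he'.2.1 he'.2.2⟩
      omega
  -- normalise the coordinate at `v`
  set ψ := ψ₀ - (ψ₀ v / φ v) • φ with hψdef
  have hψv : ψ v = 0 := by
    rw [hψdef, Pi.sub_apply, Pi.smul_apply, smul_eq_mul, div_mul_cancel₀ _ hv, sub_self]
  have hψu : ψ (p v) = 1 := by
    rw [hψdef, Pi.sub_apply, Pi.smul_apply, hu, smul_zero, sub_zero, hψ₀u]
  have hψφ : ∀ e, φ ⬝ᵥ D₂ e = 0 → ψ ⬝ᵥ D₂ e = ψ₀ ⬝ᵥ D₂ e := by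
    intro e he
    rw [hψdef, sub_dotProduct, smul_dotProduct, he, smul_zero, sub_zero]
  have hAnn : ∀ χ : ι → F, (∀ e, φ ⬝ᵥ D₂ e = 0 → ψ ⬝ᵥ D₂ e = 0 → χ ⬝ᵥ D₂ e = 0) →
      χ (p v) = 0 → χ v = 0 → χ = 0 := by
    intro χ hχ hχu hχv
    obtain ⟨c, d, hcd⟩ := hAnn₀ χ (fun e he he' => hχ e he (by rw [hψφ e he]; exact he'))
    have h1 : d = 0 := by
      have := congrFun hcd (p v)
      rw [hχu, Pi.add_apply, Pi.smul_apply, Pi.smul_apply, hu, hψ₀u, smul_zero, zero_add,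
        smul_eq_mul, mul_one] at this
      exact this.symm
    have h2 : c = 0 := by
      have := congrFun hcd v
      rw [hχv, h1, zero_smul, add_zero, Pi.smul_apply, smul_eq_mul] at this
      exact (mul_eq_zero.1 this.symm).resolve_right hv
    rw [hcd, h1, h2, zero_smul, zero_smul, add_zero]
  have hAnn2 : ∀ χ : ι → F, (∀ e, φ ⬝ᵥ D₂ e = 0 → ψ ⬝ᵥ D₂ e = 0 → χ ⬝ᵥ D₂ e = 0) →
      ∃ c d : F, χ = c • φ + d • ψ := by
    intro χ hχ
    refine ⟨χ v / φ v, χ (p v), ?_⟩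
    have h1 : χ - ((χ v / φ v) • φ + χ (p v) • ψ) = 0 := by
      apply hAnn
      · intro e he he'
        rw [sub_dotProduct, add_dotProduct, smul_dotProduct, smul_dotProduct, he, he', hχ e he he']
        simp
      · simp [hu, hψu]
      · simp [hψv, div_mul_cancel₀ _ hv]
    exact sub_eq_zero.1 h1
  -- functionals vanishing on `G` in the first system
  let G : Set E := {e | φ ⬝ᵥ D₂ e = 0 ∧ ψ ⬝ᵥ D₂ e = 0}
  have hGb : ∀ b, φ b = 0 → b ≠ p v → emb b ∈ G := by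
    intro b hb hbu
    refine ⟨hφe b hb, ?_⟩
    rw [hψφ _ (hφe b hb), h₂, dotProduct_single, mul_one]
    exact hψ₀b b hb hbu
  have hGl : ∀ x, dep x ≠ 0 → φ x ≠ 0 → φ (p x) ≠ 0 → ln x (gl x) ∈ G := by
    intro x h1 h2 h3
    refine ⟨hφl x h1 h2 h3, ?_⟩
    rw [hψφ _ (hφl x h1 h2 h3)]
    exact hψ₀l x h1 h2 h3
  have hlt₁ : ∀ θ : ι → F, (∀ e ∈ G, θ ⬝ᵥ D₁ e = 0) → (θ (p v) ≠ 0 ∨ θ v = 0) →
      psi p dep θ < psi p dep φ := by
    intro θ hθ h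
    apply psi_lt p dep hp φ θ v hv0 hv hu _ _ h
    · intro x hx hxu
      have := hθ _ (hGb x hx hxu)
      rwa [h₁, dotProduct_single, mul_one] at this
    · intro x h1 h2 h3 h4
      have h5 := (hl₁ x h1 _ (hgl0 x h2 h3) θ).1 (hθ _ (hGl x h1 h2 h3))
      rw [h5, h4, mul_zero]
  -- (D) injectivity
  have hD : ∀ θ : ι → F, (∀ e ∈ G, θ ⬝ᵥ D₁ e = 0) → θ (p v) = 0 → θ v = 0 → θ = 0 := by
    intro θ hθ hθu hθv
    by_contra hne
    obtain ⟨φ', hφ'0, hφ'⟩ := ih21 θ hne (hlt₁ θ hθ (Or.inr hθv))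
    apply hφ'0
    apply hAnn
    · intro e he he'
      exact hφ' e (hθ e ⟨he, he'⟩)
    · have := hφ' (emb (p v)) (by rw [h₁, dotProduct_single, mul_one]; exact hθu)
      rwa [h₂, dotProduct_single, mul_one] at this
    · have := hφ' (emb v) (by rw [h₁, dotProduct_single, mul_one]; exact hθv)
      rwa [h₂, dotProduct_single, mul_one] at this
  -- (C) the pencil
  have hC : ∀ s : F, ∃ θ : ι → F, (∀ e ∈ G, θ ⬝ᵥ D₁ e = 0) ∧ θ (p v) = 1 ∧
      θ v = (f v).symm (s * φ v) := by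
    intro s
    have hχu : (s • φ + ψ) (p v) = 1 := by
      rw [Pi.add_apply, Pi.smul_apply, hu, smul_zero, zero_add, hψu]
    have hχv : (s • φ + ψ) v = s * φ v := by
      rw [Pi.add_apply, Pi.smul_apply, hψv, add_zero, smul_eq_mul]
    have hχ0 : s • φ + ψ ≠ 0 := by
      intro h
      rw [h] at hχu
      simp at hχu
    have hχG : ∀ e ∈ G, (s • φ + ψ) ⬝ᵥ D₂ e = 0 := by
      rintro e ⟨h1, h2⟩
      rw [add_dotProduct, smul_dotProduct, h1, h2, smul_zero, add_zero]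
    have hlt : psi p dep (s • φ + ψ) < psi p dep φ := by
      apply psi_lt p dep hp φ _ v hv0 hv hu
      · intro x hx hxu
        have := hχG _ (hGb x hx hxu)
        rwa [h₂, dotProduct_single, mul_one] at this
      · intro x h1 h2 h3 h4
        have h5 := (hl₂ x h1 _ (hgl0 x h2 h3) (s • φ + ψ)).1 (hχG _ (hGl x h1 h2 h3))
        rw [h5, h4, mul_zero]
      · left
        rw [hχu]
        exact one_ne_zero
    obtain ⟨θ, hθ0, hθ⟩ := ih12 _ hχ0 hlt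
    have hθG : ∀ e ∈ G, θ ⬝ᵥ D₁ e = 0 := fun e he => hθ e (hχG e he)
    have hrel : θ v = (f v).symm (s * φ v) * θ (p v) := by
      by_cases hs : s = 0
      · have h1 := hθ (emb v) (by
          rw [h₂, dotProduct_single, mul_one, hχv, hs, zero_mul])
        rw [h₁, dotProduct_single, mul_one] at h1
        have h2 : (f v).symm (s * φ v) = 0 := by
          rw [hs, zero_mul, Equiv.symm_apply_eq, hf]
        rw [h1, h2, zero_mul]
      · have hg0 : (f v).symm (s * φ v) ≠ 0 := by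
          intro h
          rw [Equiv.symm_apply_eq, hf] at h
          exact mul_ne_zero hs hv h
        rw [← hl₁ v hv0 _ hg0]
        apply hθ
        rw [hl₂ v hv0 _ hg0, hχv, hχu, mul_one, Equiv.apply_symm_apply]
    have hθu : θ (p v) ≠ 0 := by
      intro h
      apply hθ0
      apply hD θ hθG h
      rw [hrel, h, mul_zero]
    refine ⟨(θ (p v))⁻¹ • θ, ?_, ?_, ?_⟩
    · intro e he
      rw [smul_dotProduct, hθG e he, smul_zero]
    · rw [Pi.smul_apply, smul_eq_mul, inv_mul_cancel₀ hθu]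
    · rw [Pi.smul_apply, smul_eq_mul, hrel]
      field_simp
  choose Θ hΘG hΘu hΘv using hC
  -- (E)
  have hstar_v : (Θ 1 - Θ 0) v = (f v).symm (φ v) := by
    rw [Pi.sub_apply, hΘv, hΘv, one_mul, zero_mul]
    have : (f v).symm 0 = 0 := by rw [Equiv.symm_apply_eq, hf]
    rw [this, sub_zero]
  have hstar_u : (Θ 1 - Θ 0) (p v) = 0 := by
    rw [Pi.sub_apply, hΘu, hΘu, sub_self]
  have hg1 : (f v).symm (φ v) ≠ 0 := by
    intro h
    rw [Equiv.symm_apply_eq, hf] at h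
    exact hv h
  have hstar0 : Θ 1 - Θ 0 ≠ 0 := by
    intro h
    rw [h] at hstar_v
    exact hg1 hstar_v.symm
  obtain ⟨y, hy, hy'⟩ := hcon _ hstar0
  have hstarG : ∀ e ∈ G, (Θ 1 - Θ 0) ⬝ᵥ D₁ e = 0 := by
    intro e he
    rw [sub_dotProduct, hΘG 1 e he, hΘG 0 e he, sub_zero]
  have hψy : ψ ⬝ᵥ D₂ y ≠ 0 := fun h => hy' (hstarG y ⟨hy, h⟩)
  set c := Θ 0 ⬝ᵥ D₁ y / (Θ 1 - Θ 0) ⬝ᵥ D₁ y with hc
  set s := f v (-(c * (f v).symm (φ v))) / φ v with hs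
  have hθs : Θ 0 - c • (Θ 1 - Θ 0) = Θ s := by
    rw [← sub_eq_zero]
    apply hD
    · intro e he
      rw [sub_dotProduct, sub_dotProduct, smul_dotProduct, hΘG 0 e he, hΘG s e he, hstarG e he]
      simp
    · rw [Pi.sub_apply, Pi.sub_apply, Pi.smul_apply, hstar_u, hΘu, hΘu]
      simp
    · rw [Pi.sub_apply, Pi.sub_apply, Pi.smul_apply, hstar_v, hΘv 0, hΘv s, hs,
        div_mul_cancel₀ _ hv, Equiv.symm_apply_apply, zero_mul]
      have : (f v).symm 0 = 0 := by rw [Equiv.symm_apply_eq, hf]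
      rw [this, smul_eq_mul]
      ring
  have hθsy : Θ s ⬝ᵥ D₁ y = 0 := by
    rw [← hθs, sub_dotProduct, smul_dotProduct, smul_eq_mul, hc, div_mul_cancel₀ _ hy', sub_self]
  have hΘs0 : Θ s ≠ 0 := by
    intro h
    have := hΘu s
    rw [h] at this
    simp at this
  obtain ⟨φ', hφ'0, hφ'⟩ := ih21 (Θ s) hΘs0 (hlt₁ _ (hΘG s) (Or.inl (by
    rw [hΘu]; exact one_ne_zero)))
  obtain ⟨α, β, hαβ⟩ := hAnn2 φ' (fun e he he' => hφ' e (hΘG s e ⟨he, he'⟩))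
  have hβ : β = 0 := by
    have h1 := hφ' y hθsy
    rw [hαβ, add_dotProduct, smul_dotProduct, smul_dotProduct, hy, smul_zero, zero_add,
      smul_eq_mul] at h1
    exact (mul_eq_zero.1 h1).resolve_right hψy
  have hα : α = 0 := by
    by_cases hs0 : s = 0
    · have h1 := hφ' (emb v) (by
        rw [h₁, dotProduct_single, mul_one, hΘv, hs0, zero_mul, Equiv.symm_apply_eq, hf])
      rw [h₂, dotProduct_single, mul_one, hαβ, hβ, zero_smul, add_zero, Pi.smul_apply,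
        smul_eq_mul] at h1
      exact (mul_eq_zero.1 h1).resolve_right hv
    · have hg0 : (f v).symm (s * φ v) ≠ 0 := by
        intro h
        rw [Equiv.symm_apply_eq, hf] at h
        exact mul_ne_zero hs0 hv h
      have h1 := hφ' (ln v ((f v).symm (s * φ v))) (by
        rw [hl₁ v hv0 _ hg0, hΘv, hΘu, mul_one])
      rw [hl₂ v hv0 _ hg0, hαβ, hβ, zero_smul, add_zero, Pi.smul_apply, Pi.smul_apply, hu,
        smul_zero, mul_zero, smul_eq_mul] at h1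
      exact (mul_eq_zero.1 h1).resolve_right hv
  apply hφ'0
  rw [hαβ, hα, hβ, zero_smul, zero_smul, add_zero]

end Pool.Agent.H.MP_9123af_lc.Fl
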