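import Pool.Agent.H.MP_9123af_lc.Fl.Psi

/-!
# The main reduction
-/

namespace Pool.Agent.H.MP_9123af_lc.Fl

open Finset

variable {ι E F : Type} [Fintype ι] [DecidableEq ι] [Fintype E] [DecidableEq E] [Field F]

/-- MAIN REDUCTION.
PROOF. Strong induction on `psi` of the support, for both directions at the same time. If the
support is closed under parents use `base12` / `base21`, otherwise `psi_step`; for the second
direction apply `psi_step` with `D₁`, `D₂` exchanged, `f x` replaced by `(f x).symm` and `ln x h`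
replaced by `ln x ((f x).symm h)`. -/
theorem psi_main (p : ι → ι) (dep : ι → ℕ) (hp : Forest p dep) (f : ι → F ≃ F)
    (hf : ∀ x, f x 0 = 0) (D₁ D₂ : E → ι → F) (emb : ι → E)
    (h₁ : ∀ i, D₁ (emb i) = Pi.single i 1) (h₂ : ∀ i, D₂ (emb i) = Pi.single i 1)
    (ln : ι → F → E)
    (hl₁ : ∀ x, dep x ≠ 0 → ∀ g : F, g ≠ 0 → ∀ θ : ι → F,
      θ ⬝ᵥ D₁ (ln x g) = 0 ↔ θ x = g * θ (p x))
    (hl₂ : ∀ x, dep x ≠ 0 → ∀ g : F, g ≠ 0 → ∀ φ : ι → F,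
      φ ⬝ᵥ D₂ (ln x g) = 0 ↔ φ x = f x g * φ (p x))
    (base12 : ∀ φ : ι → F, φ ≠ 0 → (∀ x, φ x ≠ 0 → φ (p x) ≠ 0) →
      ∃ θ : ι → F, θ ≠ 0 ∧ ∀ e, φ ⬝ᵥ D₂ e = 0 → θ ⬝ᵥ D₁ e = 0)
    (base21 : ∀ θ : ι → F, θ ≠ 0 → (∀ x, θ x ≠ 0 → θ (p x) ≠ 0) →
      ∃ φ : ι → F, φ ≠ 0 ∧ ∀ e, θ ⬝ᵥ D₁ e = 0 → φ ⬝ᵥ D₂ e = 0) :
    (∀ φ : ι → F, φ ≠ 0 → ∃ θ : ι → F, θ ≠ 0 ∧ ∀ e, φ ⬝ᵥ D₂ e = 0 → θ ⬝ᵥ D₁ e = 0) ∧
      ∀ θ : ι → F, θ ≠ 0 → ∃ φ : ι → F, φ ≠ 0 ∧ ∀ e, θ ⬝ᵥ D₁ e = 0 → φ ⬝ᵥ D₂ e = 0 := by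
  have hf' : ∀ x, (f x).symm 0 = 0 := by
    intro x; rw [Equiv.symm_apply_eq, hf]
  have key : ∀ N : ℕ, (∀ φ : ι → F, φ ≠ 0 → psi p dep φ < N →
      ∃ θ : ι → F, θ ≠ 0 ∧ ∀ e, φ ⬝ᵥ D₂ e = 0 → θ ⬝ᵥ D₁ e = 0) ∧
      ∀ θ : ι → F, θ ≠ 0 → psi p dep θ < N →
      ∃ φ : ι → F, φ ≠ 0 ∧ ∀ e, θ ⬝ᵥ D₁ e = 0 → φ ⬝ᵥ D₂ e = 0 := by
    intro N
    induction N with
    | zero => exact ⟨fun _ _ h => absurd h (Nat.not_lt_zero _),
        fun _ _ h => absurd h (Nat.not_lt_zero _)⟩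
    | succ N ih =>
      constructor
      · intro φ hφ hN
        by_cases hpc : ∀ x, φ x ≠ 0 → φ (p x) ≠ 0
        · exact base12 φ hφ hpc
        · push Not at hpc
          obtain ⟨v, hv, hu⟩ := hpc
          have hv0 : dep v ≠ 0 := by
            intro h
            rw [(hp.root_iff v).1 h] at hu
            exact hv hu
          exact psi_step p dep hp f hf D₁ D₂ emb h₁ h₂ ln hl₁ hl₂ φ v hv0 hv hu
            (fun φ' h0 hlt => ih.1 φ' h0 (by omega)) (fun θ h0 hlt => ih.2 θ h0 (by omega))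
      · intro θ hθ hN
        by_cases hpc : ∀ x, θ x ≠ 0 → θ (p x) ≠ 0
        · exact base21 θ hθ hpc
        · push Not at hpc
          obtain ⟨v, hv, hu⟩ := hpc
          have hv0 : dep v ≠ 0 := by
            intro h
            rw [(hp.root_iff v).1 h] at hu
            exact hv hu
          have hg0 : ∀ x (g : F), g ≠ 0 → (f x).symm g ≠ 0 := by
            intro x g hg h
            rw [Equiv.symm_apply_eq, hf] at h
            exact hg h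
          refine psi_step p dep hp (fun x => (f x).symm) hf' D₂ D₁ emb h₂ h₁
            (fun x h => ln x ((f x).symm h)) ?_ ?_ θ v hv0 hv hu
            (fun φ' h0 hlt => ih.2 φ' h0 (by omega)) (fun φ' h0 hlt => ih.1 φ' h0 (by omega))
          · intro x hx g hg φ'
            rw [hl₂ x hx _ (hg0 x g hg), Equiv.apply_symm_apply]
          · intro x hx g hg φ'
            exact hl₁ x hx _ (hg0 x g hg) φ'
  exact ⟨fun φ hφ => (key (psi p dep φ + 1)).1 φ hφ (Nat.lt_succ_self _),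
    fun θ hθ => (key (psi p dep θ + 1)).2 θ hθ (Nat.lt_succ_self _)⟩

end Pool.Agent.H.MP_9123af_lc.Fl
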