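import Pool.Agent.H.MP_9123af_lc.Fl.Ctx
import Pool.Agent.H.MP_9123af_lc.Fl.Glue

/-!
# States of small complexity suffice
-/

namespace Pool.Agent.H.MP_9123af_lc.Fl

open Finset

variable {ι F : Type} [Fintype ι] [DecidableEq ι] [Field F]

omit [Fintype ι] [DecidableEq ι] in
theorem Simple_cx_mono {p : ι → ι} {δ : ι → F} {k c k' c' : ℕ} {g : ι → F}
    (h : Cx p δ k c g) (hk : k ≤ k') (hc : c ≤ c') : Cx p δ k' c' g := by
  obtain ⟨W, N, h1, h2, h3, h4⟩ := h
  exact ⟨W, N, h1.trans hk, h2.trans hc, h3, h4⟩

omit [Fintype ι] [DecidableEq ι] in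
theorem Simple_cx_zero (p : ι → ι) (δ : ι → F) (k c : ℕ) : Cx p δ k c (0 : ι → F) :=
  ⟨∅, ∅, by simp, by simp, fun _ h => absurd rfl h, fun _ h => absurd rfl h⟩

omit [Fintype ι] [DecidableEq ι] in
theorem Simple_loc_zero (p : ι → ι) (v : ι) : Loc p v (0 : ι → F) :=
  fun _ h => absurd rfl h

omit [Fintype ι] [DecidableEq ι] in
theorem Simple_dep {p : ι → ι} {dep : ι → ℕ} (hp : Forest p dep) (n : ℕ) (x : ι) :
    dep (p^[n] x) ≤ dep x := by
  induction n with
  | zero => exact le_rfl
  | succ n ih =>
    rw [Function.iterate_succ_apply']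
    refine le_trans ?_ ih
    by_cases h : dep (p^[n] x) = 0
    · rw [(hp.root_iff _).1 h]
    · have := hp.step _ h
      omega

omit [Fintype ι] [DecidableEq ι] in
theorem Simple_below {p : ι → ι} {v i w : ι} (hi : p i = v) (h : Below p i w) : Below p v w := by
  obtain ⟨n, hn⟩ := h
  exact ⟨n + 1, by rw [Function.iterate_succ_apply', hn, hi]⟩

omit [DecidableEq ι] in
theorem Simple_st_ne {p : ι → ι} {dep : ι → ℕ} {a g : ι → F} {v : ι}
    (h : st p dep a g v ≠ 0) : ∃ w, Below p v w ∧ a w ≠ 0 := by
  classical
  by_contra hcon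
  push Not at hcon
  apply h
  unfold st
  refine Finset.sum_eq_zero fun w hw => ?_
  rw [hcon w (Finset.mem_filter.1 hw).2, mul_zero]

theorem Simple_st_zero {p : ι → ι} {dep : ι → ℕ} (hp : Forest p dep) (a : ι → F) (v : ι) :
    st p dep a 0 v = a v := by
  rw [st_rec p dep hp, Finset.sum_eq_zero, add_zero]
  intro c _
  rw [Pi.zero_apply, zero_mul]

omit [Fintype ι] [DecidableEq ι] in
theorem Simple_ap_zero {f : ι → F ≃ F} (hf : ∀ x, f x 0 = 0) : ap f (0 : ι → F) = 0 := by
  funext x
  exact hf x

/-- Below a vertex `v` outside whose subtree `a` does not vanish, every pair of states is the pair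
of states of a gain function of complexity `(1, 2)`.
PROOF. Induction on the height of `v` (e.g. on `D - dep v`, `D` a bound for `dep`). By induction
choose for each child `j` of `v` a local `β j` of complexity `(1, 2)` with the same pair
of states `(t_j, t'_j)` as `α` at `j` (`x` is not below `j` either). By `st_rec`, the pair of `α`
at `v` is `(a v + ∑ α_j t_j, b v + ∑ f_j(α_j) t'_j)`. CLAIM: for every finite set `J` of children
and every `γ` there are `i ∈ J` and `γ' : F` with `∑_J γ_j t_j = γ' t_i` and
`∑_J f_j(γ_j) t'_j = f_i(γ') t'_i`, or both sums are zero. Induction on `J`: it remains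
to merge `(γ', i)` and `(γ_j, j)`, `i ≠ j`. If `t_i = 0` then `t'_i = 0` (`state_eq` at `i`) and
the pair is that of `(γ_j, j)`. If `t_i ≠ 0` put `γ'' = (γ' t_i + γ_j t_j) / t_i`; the two
glued functions on `{i, j}` and `{i}` (`exists_glue`, complexity `(2, 6)`) have the same
state at `v`, so the same second state (`state_eq` with `k = 2`, `c = 6`). Finally, if the sum
`u = ∑_J γ_j t_j` is `0`, compare the one-branch function with `0`; if `u ≠ 0`, some `t_j ≠ 0`,
so `a` does not vanish below `v`, and `exists_child` gives a child `c` and a local `g` at `c` of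
complexity `(1, 1)` with nonzero state `τ`; the gain `u / τ` at `c` together with `g` has
complexity `(1, 2)` and the same first state, so by `state_eq` the same second state. -/
theorem simple_states (p : ι → ι) (dep : ι → ℕ) (hp : Forest p dep) (f : ι → F ≃ F)
    (hf : ∀ x, f x 0 = 0) (δ : ι → F) (hδ : ∀ x, δ x ≠ 0) (hF : ∃ μ : F, μ ≠ 0 ∧ μ ≠ 1) (r : ι)
    (hr : dep r = 0) (a b : ι → F) (hab : ∀ x, a x = 0 ↔ b x = 0)
    (ha : ∀ x, a x ≠ 0 → p^[dep x] x = r)
    (hyp : ∀ g : ι → F, Cx p δ 4 9 g → (tot p dep a g = 0 ↔ tot p dep b (ap f g) = 0))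
    (x : ι) (hx : a x ≠ 0) (v : ι) (hv : dep v ≠ 0) (hvr : p^[dep v] v = r)
    (hxv : ¬ Below p v x) (α : ι → F) :
    ∃ β : ι → F, Loc p v β ∧ Cx p δ 1 2 β ∧ st p dep a β v = st p dep a α v ∧
      st p dep b (ap f β) v = st p dep b (ap f α) v := by
  classical
  obtain ⟨D, hD⟩ : ∃ D, ∀ y, dep y ≤ D := ⟨univ.sup dep, fun y => Finset.le_sup (mem_univ y)⟩
  have main : ∀ (m : ℕ) (v : ι), D - dep v ≤ m → dep v ≠ 0 → p^[dep v] v = r →
      ¬ Below p v x → ∀ α : ι → F,
      ∃ β : ι → F, Loc p v β ∧ Cx p δ 1 2 β ∧ st p dep a β v = st p dep a α v ∧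
        st p dep b (ap f β) v = st p dep b (ap f α) v := by
    intro m
    induction m with
    | zero =>
      intro v hm hv hvr hxv α
      have hno : ∀ c, ¬ (p c = v ∧ dep c ≠ 0) := by
        rintro c ⟨h1, h2⟩
        have h3 := hp.step c h2
        rw [h1] at h3
        have h4 := hD c
        have h5 := hD v
        omega
      have hfil : univ.filter (fun c => p c = v ∧ dep c ≠ 0) = ∅ :=
        Finset.filter_eq_empty_iff.2 fun c _ => hno c
      refine ⟨0, Simple_loc_zero p v, Simple_cx_zero p δ 1 2, ?_, ?_⟩
      · rw [st_rec p dep hp a α, st_rec p dep hp a 0, hfil, Finset.sum_empty, Finset.sum_empty]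
      · rw [st_rec p dep hp b (ap f α), st_rec p dep hp b (ap f 0), hfil, Finset.sum_empty,
          Finset.sum_empty]
    | succ m ih =>
      intro v hm hv hvr hxv α
      set Ch : Finset ι := univ.filter (fun c => p c = v ∧ dep c ≠ 0) with hCh
      have hch : ∀ j ∈ Ch, p j = v ∧ dep j ≠ 0 := fun j hj => (Finset.mem_filter.1 hj).2
      have hdj : ∀ j ∈ Ch, dep j = dep v + 1 := by
        intro j hj
        have h3 := hp.step j (hch j hj).2
        rwa [(hch j hj).1] at h3
      have hrj : ∀ j ∈ Ch, p^[dep j] j = r := by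
        intro j hj
        rw [hdj j hj, Function.iterate_succ_apply, (hch j hj).1, hvr]
      have hxj : ∀ j ∈ Ch, ¬ Below p j x := fun j hj h => hxv (Simple_below (hch j hj).1 h)
      have hex : ∀ j, ∃ β : ι → F, j ∈ Ch → Loc p j β ∧ Cx p δ 1 2 β ∧
          st p dep a β j = st p dep a α j ∧
          st p dep b (ap f β) j = st p dep b (ap f α) j := by
        intro j
        by_cases hj : j ∈ Ch
        · obtain ⟨β, hβ⟩ := ih j (by
            have h1 := hdj j hj
            omega) (hch j hj).2 (hrj j hj) (hxj j hj) α
          exact ⟨β, fun _ => hβ⟩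
        · exact ⟨0, fun h => absurd h hj⟩
      choose β hβ using hex
      -- comparison of local functions at `v`
      have hcmp : ∀ G G' : ι → F, Loc p v G → Loc p v G' → Cx p δ 2 6 G → Cx p δ 2 6 G' →
          st p dep a G v = st p dep a G' v → st p dep b (ap f G) v = st p dep b (ap f G') v :=
        fun G G' h1 h2 h3 h4 h5 => (state_eq p dep hp f hf δ hδ hF r hr a b hab ha 4 9 2 6
          (by norm_num) (by norm_num) hyp v hv hvr x hx hxv G G' h1 h2 h3 h4 h5).1
      -- a zero first state at a child
      have hzero : ∀ j ∈ Ch, st p dep a α j = 0 → st p dep b (ap f α) j = 0 := by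
        intro j hj h0
        obtain ⟨g1, g2, g3, g4⟩ := hβ j hj
        have h1 := (state_eq p dep hp f hf δ hδ hF r hr a b hab ha 4 9 1 2 (by norm_num)
          (by norm_num) hyp j (hch j hj).2 (hrj j hj) x hx (hxj j hj) (β j) (β j) g1 g1 g2 g2
          rfl).2
        rw [g3, g4] at h1
        exact h1 h0
      -- glued functions
      have hglue : ∀ (J : Finset ι), J ⊆ Ch → J.card ≤ 2 → ∀ γ : ι → F,
          ∃ G : ι → F, Loc p v G ∧ Cx p δ 2 6 G ∧
            st p dep a G v = a v + ∑ j ∈ J, γ j * st p dep a α j ∧
            st p dep b (ap f G) v = b v + ∑ j ∈ J, f j (γ j) * st p dep b (ap f α) j := by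
        intro J hJ hJ2 γ
        obtain ⟨G, h1, h2, h3, h4⟩ := exists_glue p dep hp f hf δ a b v J
          (fun c hc => hch c (hJ hc)) γ β (fun c hc => (hβ c (hJ hc)).1) 1 2 le_rfl
          (fun c hc => (hβ c (hJ hc)).2.1)
        refine ⟨G, h1, Simple_cx_mono h2 (by omega) (by omega), ?_, ?_⟩
        · rw [h3]
          congr 1
          exact Finset.sum_congr rfl fun j hj => by rw [(hβ j (hJ hj)).2.2.1]
        · rw [h4]
          congr 1
          exact Finset.sum_congr rfl fun j hj => by rw [(hβ j (hJ hj)).2.2.2]
      have hclaim : ∀ (J : Finset ι), J ⊆ Ch → ∀ γ : ι → F,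
          (∑ j ∈ J, γ j * st p dep a α j = 0 ∧
            ∑ j ∈ J, f j (γ j) * st p dep b (ap f α) j = 0) ∨
          ∃ i ∈ J, ∃ γ' : F, ∑ j ∈ J, γ j * st p dep a α j = γ' * st p dep a α i ∧
            ∑ j ∈ J, f j (γ j) * st p dep b (ap f α) j = f i γ' * st p dep b (ap f α) i := by
        intro J
        induction J using Finset.induction_on with
        | empty =>
          intro _ γ
          left
          simp
        | insert j J hj ihJ =>
          intro hJ γ
          have hjC : j ∈ Ch := hJ (Finset.mem_insert_self j J)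
          right
          rw [Finset.sum_insert hj, Finset.sum_insert hj]
          rcases ihJ ((Finset.subset_insert j J).trans hJ) γ with ⟨e1, e2⟩ | ⟨i, hi, γ', e1, e2⟩
          · refine ⟨j, Finset.mem_insert_self j J, γ j, ?_, ?_⟩
            · rw [e1, add_zero]
            · rw [e2, add_zero]
          · have hiC : i ∈ Ch := hJ (Finset.mem_insert_of_mem hi)
            have hij : j ≠ i := by
              rintro rfl
              exact hj hi
            by_cases hti : st p dep a α i = 0
            · refine ⟨j, Finset.mem_insert_self j J, γ j, ?_, ?_⟩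
              · rw [e1, hti, mul_zero, add_zero]
              · rw [e2, hzero i hiC hti, mul_zero, add_zero]
            · set γ₂ : F := (γ j * st p dep a α j + γ' * st p dep a α i) / st p dep a α i
                with hγ₂
              have e3 : γ₂ * st p dep a α i = γ j * st p dep a α j + γ' * st p dep a α i := by
                rw [hγ₂, div_mul_cancel₀ _ hti]
              refine ⟨i, Finset.mem_insert_of_mem hi, γ₂, ?_, ?_⟩
              · rw [e1, e3]
              · obtain ⟨G, h1, h2, h3, h4⟩ := hglue {j, i} (by
                  intro y hy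
                  rcases Finset.mem_insert.1 hy with h | h
                  · rw [h]
                    exact hjC
                  · rw [Finset.mem_singleton.1 h]
                    exact hiC) (by rw [Finset.card_pair hij])
                  (fun y => if y = i then γ' else γ j)
                obtain ⟨G', k1, k2, k3, k4⟩ := hglue {i} (by
                  intro y hy
                  rw [Finset.mem_singleton.1 hy]
                  exact hiC) (by rw [Finset.card_singleton]; norm_num) (fun _ => γ₂)
                rw [Finset.sum_pair hij, if_neg hij, if_pos rfl] at h3 h4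
                rw [Finset.sum_singleton] at k3 k4
                have h5 := hcmp G G' h1 k1 h2 k2 (by rw [h3, k3, e3])
                rw [h4, k4] at h5
                rw [e2]
                exact add_left_cancel h5
      have e1 : st p dep a α v = a v + ∑ j ∈ Ch, α j * st p dep a α j :=
        st_rec p dep hp a α v
      have e2 : st p dep b (ap f α) v = b v + ∑ j ∈ Ch, f j (α j) * st p dep b (ap f α) j :=
        st_rec p dep hp b (ap f α) v
      rcases hclaim Ch (Finset.Subset.refl _) α with ⟨h1, h2⟩ | ⟨i, hi, γ', h1, h2⟩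
      · refine ⟨0, Simple_loc_zero p v, Simple_cx_zero p δ 1 2, ?_, ?_⟩
        · rw [e1, h1, add_zero, Simple_st_zero hp]
        · rw [e2, h2, add_zero, Simple_ap_zero hf, Simple_st_zero hp]
      · obtain ⟨G, g1, g2, g3, g4⟩ := hglue {i} (by
          intro y hy
          rw [Finset.mem_singleton.1 hy]
          exact hi) (by rw [Finset.card_singleton]; norm_num) (fun _ => γ')
        rw [Finset.sum_singleton] at g3 g4
        by_cases hu : γ' * st p dep a α i = 0
        · refine ⟨0, Simple_loc_zero p v, Simple_cx_zero p δ 1 2, ?_, ?_⟩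
          · rw [e1, h1, hu, add_zero, Simple_st_zero hp]
          · have h3 := hcmp G 0 g1 (Simple_loc_zero p v) g2 (Simple_cx_zero p δ 2 6) (by
              rw [g3, hu, add_zero, Simple_st_zero hp])
            rw [← h3, g4, e2, h2]
        · have hti : st p dep a α i ≠ 0 := right_ne_zero_of_mul hu
          obtain ⟨w, hw, haw⟩ := Simple_st_ne hti
          have hwv : w ≠ v := by
            rintro rfl
            obtain ⟨n, hn⟩ := hw
            have h3 := Simple_dep hp n w
            rw [hn, hdj i hi] at h3
            omega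
          obtain ⟨c, g, c1, c2, c3, c4, c5⟩ := exists_child p dep hp δ hδ hF a v w
            (Simple_below (hch i hi).1 hw) hwv haw
          obtain ⟨G', k1, k2, k3, k4⟩ := exists_glue p dep hp f hf δ a b v {c}
            (fun y hy => by
              rw [Finset.mem_singleton.1 hy]
              exact ⟨c1, c2⟩)
            (fun _ => γ' * st p dep a α i / st p dep a g c) (fun _ => g)
            (fun y hy => by
              rw [Finset.mem_singleton.1 hy]
              exact c3) 1 1 le_rfl (fun _ _ => c4)
          rw [Finset.sum_singleton, div_mul_cancel₀ _ c5] at k3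
          rw [Finset.card_singleton] at k2
          refine ⟨G', k1, k2, ?_, ?_⟩
          · rw [k3, e1, h1]
          · have h3 := hcmp G' G k1 g1 (Simple_cx_mono k2 (by norm_num) (by norm_num)) g2 (by
              rw [k3, g3])
            rw [h3, g4, e2, h2]
  exact main (D - dep v) v le_rfl hv hvr hxv α

end Pool.Agent.H.MP_9123af_lc.Fl
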