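import Pool.Agent.H.MP_9123af_lc.Fl.Defs

/-!
# States of gain functions on a rooted forest
-/

namespace Pool.Agent.H.MP_9123af_lc.Fl

open Finset

variable {ι F : Type} [Fintype ι] [DecidableEq ι] [Field F]

omit [Fintype ι] [DecidableEq ι] in
theorem St_dep {p : ι → ι} {dep : ι → ℕ} (hp : Forest p dep) (x : ι) :
    dep (p x) = dep x - 1 := by
  by_cases h : dep x = 0
  · rw [(hp.root_iff x).1 h, h]
  · have := hp.step x h
    omega

omit [Fintype ι] [DecidableEq ι] in
theorem St_dep_iter {p : ι → ι} {dep : ι → ℕ} (hp : Forest p dep) (i : ℕ) (x : ι) :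
    dep (p^[i] x) = dep x - i := by
  induction i with
  | zero => rfl
  | succ i ih =>
    rw [Function.iterate_succ_apply', St_dep hp, ih]
    omega

omit [Fintype ι] [DecidableEq ι] in
theorem St_top {p : ι → ι} {dep : ι → ℕ} (hp : Forest p dep) {i : ℕ} {x : ι}
    (h : dep x ≤ i) : p^[i] x = p^[dep x] x := by
  obtain ⟨j, rfl⟩ := Nat.exists_eq_add_of_le' h
  have h1 : p (p^[dep x] x) = p^[dep x] x := by
    rw [← hp.root_iff, St_dep_iter hp]
    omega
  rw [Function.iterate_add_apply, Function.iterate_fixed h1]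

omit [Fintype ι] [DecidableEq ι] in
theorem St_below {p : ι → ι} {dep : ι → ℕ} (hp : Forest p dep) {v x : ι} (h : Below p v x) :
    dep v ≤ dep x ∧ p^[dep x - dep v] x = v := by
  obtain ⟨i, rfl⟩ := h
  rw [St_dep_iter hp]
  refine ⟨Nat.sub_le _ _, ?_⟩
  rcases le_total i (dep x) with h | h
  · rw [Nat.sub_sub_self h]
  · rw [Nat.sub_eq_zero_of_le h, Nat.sub_zero, St_top hp h]

omit [Fintype ι] [DecidableEq ι] in
theorem St_below_iter {p : ι → ι} {dep : ι → ℕ} (hp : Forest p dep) {v x : ι}
    (h : Below p v x) {i : ℕ} (hi : i ≤ dep x - dep v) : Below p v (p^[i] x) := by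
  refine ⟨dep x - dep v - i, ?_⟩
  rw [← Function.iterate_add_apply, Nat.sub_add_cancel hi]
  exact (St_below hp h).2

omit [Fintype ι] [DecidableEq ι] in
theorem St_below_of {p : ι → ι} {v x : ι} {i : ℕ} (h : Below p v (p^[i] x)) :
    Below p v x := by
  obtain ⟨j, hj⟩ := h
  exact ⟨j + i, by rw [Function.iterate_add_apply, hj]⟩

omit [Fintype ι] [DecidableEq ι] in
theorem St_wt_split {p : ι → ι} {dep : ι → ℕ} (hp : Forest p dep) (g : ι → F) {v x : ι}
    (h : Below p v x) :
    wt p dep g x = (∏ i ∈ range (dep x - dep v), g (p^[i] x)) * wt p dep g v := by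
  obtain ⟨h1, h2⟩ := St_below hp h
  unfold wt
  have h3 : dep x = dep x - dep v + dep v := by omega
  conv_lhs => rw [h3]
  rw [prod_range_add]
  congr 1
  refine prod_congr rfl fun i _ => ?_
  rw [add_comm, Function.iterate_add_apply, h2]

/-- The state at `v` depends only on the gains of the proper descendants of `v`.
PROOF. `p^[i] x` for `i < dep x - dep v` is a proper descendant of `v` (it is below `v` and its
depth is bigger than `dep v`). -/
theorem st_congr (p : ι → ι) (dep : ι → ℕ) (hp : Forest p dep) (a g g' : ι → F) (v : ι)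
    (h : ∀ x, Below p v x → x ≠ v → g x = g' x) : st p dep a g v = st p dep a g' v := by
  classical
  unfold st
  refine sum_congr rfl fun x hx => ?_
  have hb : Below p v x := (mem_filter.1 hx).2
  congr 1
  refine prod_congr rfl fun i hi => ?_
  have hi' := mem_range.1 hi
  refine h _ (St_below_iter hp hb hi'.le) fun he => ?_
  have h1 := St_dep_iter hp i x
  rw [he] at h1
  omega

/-- Recursion for the state: sum over the children of `v`.
PROOF. Every `x` below `v`, `x ≠ v`, is below exactly one child `c` of `v`, namely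
`p^[dep x - dep v - 1] x`; `∏ i ∈ range (dep x - dep v), g (p^[i] x)` is
`(∏ i ∈ range (dep x - dep c), g (p^[i] x)) * g c` (`prod_range_succ`, `dep c = dep v + 1`). -/
theorem st_rec (p : ι → ι) (dep : ι → ℕ) (hp : Forest p dep) (a g : ι → F) (v : ι) :
    st p dep a g v = a v + ∑ c ∈ univ.filter (fun c => p c = v ∧ dep c ≠ 0),
      g c * st p dep a g c := by
  classical
  unfold st
  have hv : Below p v v := ⟨0, rfl⟩
  have h1 : univ.filter (fun x => Below p v x) =
      insert v (univ.filter (fun x => Below p v x ∧ x ≠ v)) := by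
    ext x
    simp only [mem_filter, mem_univ, true_and, mem_insert]
    constructor
    · intro h
      by_cases hx : x = v
      · exact Or.inl hx
      · exact Or.inr ⟨h, hx⟩
    · rintro (rfl | h)
      · exact hv
      · exact h.1
  have hlt : ∀ x, Below p v x → x ≠ v → dep v < dep x := by
    intro x hx hne
    obtain ⟨h2, h3⟩ := St_below hp hx
    refine lt_of_le_of_ne h2 fun he => hne ?_
    rw [he, Nat.sub_self] at h3
    exact h3
  have hmap : ∀ x ∈ univ.filter (fun x => Below p v x ∧ x ≠ v),
      p^[dep x - dep v - 1] x ∈ univ.filter (fun c => p c = v ∧ dep c ≠ 0) := by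
    intro x hx
    obtain ⟨hb, hne⟩ := (mem_filter.1 hx).2
    have h2 := hlt x hb hne
    refine mem_filter.2 ⟨mem_univ _, ?_, ?_⟩
    · have h3 := Function.iterate_succ_apply' p (dep x - dep v - 1) x
      rw [show (dep x - dep v - 1).succ = dep x - dep v by omega, (St_below hp hb).2] at h3
      exact h3.symm
    · rw [St_dep_iter hp]
      omega
  rw [h1, sum_insert (by simp), Nat.sub_self, range_zero, prod_empty, one_mul,
    ← sum_fiberwise_of_maps_to hmap]
  congr 1
  refine sum_congr rfl fun c hc => ?_
  obtain ⟨hc1, hc2⟩ := (mem_filter.1 hc).2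
  have hcd : dep c = dep v + 1 := by rw [hp.step c hc2, hc1]
  rw [mul_sum]
  have h2 : (univ.filter (fun x => Below p v x ∧ x ≠ v)).filter
      (fun x => p^[dep x - dep v - 1] x = c) = univ.filter (fun x => Below p c x) := by
    ext x
    simp only [mem_filter, mem_univ, true_and]
    constructor
    · rintro ⟨-, h⟩
      exact ⟨_, h⟩
    · intro h
      obtain ⟨h3, h4⟩ := St_below hp h
      refine ⟨⟨?_, ?_⟩, ?_⟩
      · obtain ⟨j, hj⟩ := h
        exact ⟨j + 1, by rw [Function.iterate_succ_apply', hj, hc1]⟩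
      · rintro rfl
        omega
      · rw [show dep x - dep v - 1 = dep x - dep c by omega]
        exact h4
  rw [h2]
  refine sum_congr rfl fun x hx => ?_
  have hb : Below p c x := (mem_filter.1 hx).2
  obtain ⟨h3, h4⟩ := St_below hp hb
  rw [show dep x - dep v = (dep x - dep c) + 1 by omega, prod_range_succ, h4]
  ring

/-- The total is the state at the root if `a` is supported on the tree of the root. -/
theorem tot_eq_st (p : ι → ι) (dep : ι → ℕ) (hp : Forest p dep) (a g : ι → F) (r : ι)
    (hr : dep r = 0) (ha : ∀ x, a x ≠ 0 → p^[dep x] x = r) :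
    tot p dep a g = st p dep a g r := by
  classical
  unfold tot st
  rw [← sum_subset (filter_subset (fun x => Below p r x) univ)]
  · refine sum_congr rfl fun x _ => ?_
    rw [hr, Nat.sub_zero]
    rfl
  · intro x _ hx
    have h1 : a x = 0 := by
      by_contra h
      exact hx (mem_filter.2 ⟨mem_univ _, dep x, ha x h⟩)
    rw [h1, mul_zero]

/-- Change of the gains below (and at) `v`.
PROOF. `wt g x = wt g' x` if `x` is not below `v`; if `x` is below `v` then
`wt g x = (∏ i ∈ range (dep x - dep v), g (p^[i] x)) * g v * wt g (p v)`, and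
`wt g (p v) = wt g' (p v)`. -/
theorem tot_diff (p : ι → ι) (dep : ι → ℕ) (hp : Forest p dep) (a g g' : ι → F) (v : ι)
    (hv : dep v ≠ 0) (h : ∀ x, ¬ Below p v x → g x = g' x) :
    tot p dep a g - tot p dep a g' =
      wt p dep g (p v) * (g v * st p dep a g v - g' v * st p dep a g' v) := by
  classical
  have hpv : wt p dep g (p v) = wt p dep g' (p v) := by
    unfold wt
    refine prod_congr rfl fun i hi => h _ fun hb => ?_
    have h1 := (St_below hp hb).1
    rw [St_dep_iter hp, St_dep hp] at h1
    omega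
  have hw : ∀ g : ι → F, wt p dep g v = g v * wt p dep g (p v) := by
    intro g
    unfold wt
    rw [St_dep hp]
    conv_lhs => rw [show dep v = dep v - 1 + 1 by omega]
    rw [prod_range_succ', mul_comm]
    rfl
  have h1 : ∀ g : ι → F, tot p dep a g =
      wt p dep g (p v) * (g v * st p dep a g v) +
        ∑ x ∈ univ.filter (fun x => ¬ Below p v x), wt p dep g x * a x := by
    intro g
    unfold tot st
    rw [← sum_filter_add_sum_filter_not univ (fun x => Below p v x)]
    congr 1
    rw [mul_sum, mul_sum]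
    refine sum_congr rfl fun x hx => ?_
    rw [St_wt_split hp g (mem_filter.1 hx).2, hw]
    ring
  have h2 : ∑ x ∈ univ.filter (fun x => ¬ Below p v x), wt p dep g x * a x =
      ∑ x ∈ univ.filter (fun x => ¬ Below p v x), wt p dep g' x * a x := by
    refine sum_congr rfl fun x hx => ?_
    have hx' : ¬ Below p v x := (mem_filter.1 hx).2
    congr 1
    unfold wt
    exact prod_congr rfl fun i _ => h _ fun hb => hx' (St_below_of hb)
  rw [h1 g, h1 g', h2, ← hpv]
  ring

/-- The weight only depends on the gains of the ancestors. -/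
theorem wt_congr (p : ι → ι) (dep : ι → ℕ) (hp : Forest p dep) (g g' : ι → F) (x : ι)
    (h : ∀ z, Below p z x → dep z ≠ 0 → g z = g' z) : wt p dep g x = wt p dep g' x := by
  unfold wt
  refine prod_congr rfl fun i hi => h _ ⟨i, rfl⟩ ?_
  rw [St_dep_iter hp]
  have := mem_range.1 hi
  omega

theorem wt_ne_zero_iff (p : ι → ι) (dep : ι → ℕ) (hp : Forest p dep) (g : ι → F) (x : ι) :
    wt p dep g x ≠ 0 ↔ ∀ z, Below p z x → dep z ≠ 0 → g z ≠ 0 := by
  unfold wt
  rw [prod_ne_zero_iff]
  constructor
  · rintro h z ⟨i, rfl⟩ hz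
    rw [St_dep_iter hp] at hz
    exact h i (mem_range.2 (by omega))
  · intro h i hi
    refine h _ ⟨i, rfl⟩ ?_
    rw [St_dep_iter hp]
    have := mem_range.1 hi
    omega

/-- `wt` at a nonroot. -/
theorem wt_step (p : ι → ι) (dep : ι → ℕ) (hp : Forest p dep) (g : ι → F) (x : ι)
    (hx : dep x ≠ 0) : wt p dep g x = g x * wt p dep g (p x) := by
  unfold wt
  rw [St_dep hp]
  conv_lhs => rw [show dep x = dep x - 1 + 1 by omega]
  rw [prod_range_succ', mul_comm]
  rfl

end Pool.Agent.H.MP_9123af_lc.Fl
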