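import Pool.Agent.H.MP_9123af_lc.Fl.Simple

/-!
# The tree lemma
-/

namespace Pool.Agent.H.MP_9123af_lc.Fl

open Finset

variable {ι F : Type} [Fintype ι] [DecidableEq ι] [Field F]

omit [Fintype ι] [DecidableEq ι] in
private theorem Tree_dep_iter (p : ι → ι) (dep : ι → ℕ) (hp : Forest p dep) (x : ι) (i : ℕ) :
    dep (p^[i] x) = dep x - i := by
  induction i with
  | zero => simp
  | succ i ih =>
    rw [Function.iterate_succ_apply']
    by_cases h : dep (p^[i] x) = 0
    · rw [(hp.root_iff _).1 h]
      omega
    · have h1 := hp.step _ h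
      omega

omit [Fintype ι] [DecidableEq ι] in
private theorem Tree_same (p : ι → ι) (dep : ι → ℕ) (hp : Forest p dep) {c c' x : ι}
    (h : Below p c x) (h' : Below p c' x) (h0 : dep c ≠ 0) (hd : dep c = dep c') : c = c' := by
  obtain ⟨i, rfl⟩ := h
  obtain ⟨j, rfl⟩ := h'
  have h1 := Tree_dep_iter p dep hp x i
  have h2 := Tree_dep_iter p dep hp x j
  have h3 : i = j := by omega
  rw [h3]

omit [Fintype ι] [DecidableEq ι] in
private theorem Tree_not (p : ι → ι) (dep : ι → ℕ) (hp : Forest p dep) {c v : ι}
    (h : dep v < dep c) : ¬ Below p c v := by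
  rintro ⟨i, hi⟩
  have h1 := Tree_dep_iter p dep hp v i
  rw [hi] at h1
  omega

omit [Fintype ι] [DecidableEq ι] in
private theorem Tree_ap (f : ι → F ≃ F) (hf : ∀ x, f x 0 = 0) (g : ι → F) (x : ι) :
    ap f g x = 0 ↔ g x = 0 := by
  unfold ap
  constructor
  · intro h
    exact (f x).injective (h.trans (hf x).symm)
  · intro h
    rw [h, hf]

omit [Fintype ι] [DecidableEq ι] in
private theorem Tree_cx (p : ι → ι) (δ : ι → F) {k c k' c' : ℕ} {g : ι → F}
    (h : Cx p δ k c g) (hk : k ≤ k') (hc : c ≤ c') : Cx p δ k' c' g := by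
  obtain ⟨W, N, h1, h2, h3, h4⟩ := h
  exact ⟨W, N, h1.trans hk, h2.trans hc, h3, h4⟩

/-- The state of `a` at `v` is the total of an extension, up to a nonzero factor. -/
private theorem Tree_total (p : ι → ι) (dep : ι → ℕ) (hp : Forest p dep) (a : ι → F) (v : ι)
    (hv : dep v ≠ 0) (hav : ∀ x, a x ≠ 0 → Below p v x) (α G : ι → F)
    (hG : ∀ z, Below p v z → z ≠ v → G z = α z) (hG0 : ∀ z, Below p z v → G z ≠ 0) :
    ∃ κ : F, κ ≠ 0 ∧ tot p dep a G = κ * st p dep a α v := by
  classical
  refine ⟨wt p dep G (p v) * G v, mul_ne_zero ?_ (hG0 v ⟨0, rfl⟩), ?_⟩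
  · rw [wt_ne_zero_iff p dep hp]
    rintro z ⟨i, hi⟩ -
    refine hG0 z ⟨i + 1, ?_⟩
    rw [Function.iterate_succ_apply]
    exact hi
  · obtain ⟨G', hG'⟩ : ∃ G' : ι → F, G' = fun z => if Below p v z then 0 else G z := ⟨_, rfl⟩
    have h1 := tot_diff p dep hp a G G' v hv (fun x hx => by rw [hG']; simp [hx])
    have h2 : tot p dep a G' = 0 := by
      unfold tot
      refine sum_eq_zero fun x _ => ?_
      by_cases hx : a x = 0
      · rw [hx, mul_zero]
      · have h3 : wt p dep G' x = 0 := by
          by_contra hcon
          refine (wt_ne_zero_iff p dep hp G' x).1 hcon v (hav x hx) hv ?_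
          rw [hG']
          exact if_pos ⟨0, rfl⟩
        rw [h3, zero_mul]
    have h3 : G' v = 0 := by
      rw [hG']
      exact if_pos ⟨0, rfl⟩
    have h4 : st p dep a G v = st p dep a α v := st_congr p dep hp a G α v hG
    rw [h2, h3, h4] at h1
    rw [zero_mul, sub_zero, sub_zero] at h1
    rw [h1]
    ring

private theorem Tree_local (p : ι → ι) (dep : ι → ℕ) (hp : Forest p dep) (f : ι → F ≃ F)
    (hf : ∀ x, f x 0 = 0) (δ : ι → F) (hδ : ∀ x, δ x ≠ 0) (r : ι)
    (a b : ι → F) (hab : ∀ x, a x = 0 ↔ b x = 0) (ha : ∀ x, a x ≠ 0 → p^[dep x] x = r)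
    (hyp : ∀ g : ι → F, Cx p δ 4 9 g → (tot p dep a g = 0 ↔ tot p dep b (ap f g) = 0))
    (v : ι) (hvr : p^[dep v] v = r) (hav : ∀ x, a x ≠ 0 → Below p v x)
    (α : ι → F) (hαc : Cx p δ 3 9 α) :
    st p dep a α v = 0 ↔ st p dep b (ap f α) v = 0 := by
  classical
  by_cases hv : dep v = 0
  · have hvr' : v = r := by
      rw [hv] at hvr
      exact hvr
    subst hvr'
    rw [← tot_eq_st p dep hp a α v hv ha,
      ← tot_eq_st p dep hp b (ap f α) v hv (fun x hx => ha x (fun h => hx ((hab x).1 h)))]
    exact hyp α (Tree_cx p δ hαc (by norm_num) le_rfl)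
  · obtain ⟨G, hG⟩ : ∃ G : ι → F, G = fun z => if Below p v z ∧ z ≠ v then α z
        else if Below p z v then δ z else 0 := ⟨_, rfl⟩
    have hG1 : ∀ z, Below p v z → z ≠ v → G z = α z := by
      intro z h1 h2
      rw [hG]
      exact if_pos ⟨h1, h2⟩
    have hG2 : ∀ z, Below p z v → G z = δ z := by
      intro z h1
      rw [hG]
      have h2 : ¬ (Below p v z ∧ z ≠ v) := by
        rintro ⟨h3, h4⟩
        obtain ⟨i, hi⟩ := h1
        obtain ⟨j, hj⟩ := h3
        have h5 := Tree_dep_iter p dep hp v i
        have h6 := Tree_dep_iter p dep hp z j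
        rw [hi] at h5
        rw [hj] at h6
        have h7 : i = 0 := by omega
        rw [h7] at hi
        exact h4 hi.symm
      show (if Below p v z ∧ z ≠ v then α z else if Below p z v then δ z else 0) = δ z
      rw [if_neg h2, if_pos h1]
    have hcx : Cx p δ 4 9 G := by
      obtain ⟨W, N, h1, h2, h3, h4⟩ := hαc
      refine ⟨insert v W, N, (card_insert_le _ _).trans (by omega), h2, ?_, ?_⟩
      · intro z hz
        by_cases h5 : Below p v z ∧ z ≠ v
        · rw [hG1 z h5.1 h5.2] at hz
          obtain ⟨w, hw, hw'⟩ := h3 z hz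
          exact ⟨w, mem_insert_of_mem hw, hw'⟩
        · by_cases h6 : Below p z v
          · exact ⟨v, mem_insert_self v W, h6⟩
          · exfalso
            apply hz
            rw [hG]
            show (if Below p v z ∧ z ≠ v then α z else if Below p z v then δ z else 0) = 0
            rw [if_neg h5, if_neg h6]
      · intro z hz hzd
        by_cases h5 : Below p v z ∧ z ≠ v
        · rw [hG1 z h5.1 h5.2] at hz hzd
          exact h4 z hz hzd
        · by_cases h6 : Below p z v
          · exact absurd (hG2 z h6) hzd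
          · exfalso
            apply hz
            rw [hG]
            show (if Below p v z ∧ z ≠ v then α z else if Below p z v then δ z else 0) = 0
            rw [if_neg h5, if_neg h6]
    obtain ⟨κ, hκ, h1⟩ := Tree_total p dep hp a v hv hav α G hG1
      (fun z hz => by rw [hG2 z hz]; exact hδ z)
    obtain ⟨κ', hκ', h2⟩ := Tree_total p dep hp b v hv
      (fun x hx => hav x (fun h => hx ((hab x).1 h))) (ap f α) (ap f G)
      (fun z h3 h4 => by unfold ap; rw [hG1 z h3 h4])
      (fun z hz => by
        rw [Ne, Tree_ap f hf, hG2 z hz]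
        exact hδ z)
    have h3 := hyp G hcx
    rw [h1, h2] at h3
    rw [mul_eq_zero, mul_eq_zero] at h3
    simpa [hκ, hκ'] using h3

omit [Fintype ι] in
/-- The reduction of a sum over children to a sum over at most two children. -/
private theorem Tree_reduce (f : ι → F ≃ F) (t t' : ι → F) (av bv : F) (C : Finset ι)
    (hzero : ∀ c ∈ C, t c = 0 → t' c = 0)
    (hP : ∀ J ⊆ C, J.card ≤ 3 → ∀ γ : ι → F, (av + ∑ c ∈ J, γ c * t c = 0 ↔
      bv + ∑ c ∈ J, f c (γ c) * t' c = 0)) (γ : ι → F) (J : Finset ι) (hJ : J ⊆ C) :
    ∃ J' ⊆ J, J'.card ≤ 2 ∧ ∃ γ' : ι → F, ∑ c ∈ J, γ c * t c = ∑ c ∈ J', γ' c * t c ∧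
      ∑ c ∈ J, f c (γ c) * t' c = ∑ c ∈ J', f c (γ' c) * t' c := by
  induction J using Finset.induction_on with
  | empty => exact ⟨∅, subset_rfl, by simp, γ, rfl, rfl⟩
  | insert j J0 hj ih =>
    obtain ⟨J1, hJ1, hc1, γ1, h1, h2⟩ := ih ((subset_insert j J0).trans hJ)
    have hjC : j ∈ C := hJ (mem_insert_self j J0)
    have hj1 : j ∉ J1 := fun h => hj (hJ1 h)
    rw [sum_insert hj, sum_insert hj, h1, h2]
    -- the gains with `j` added
    have hup : ∀ c ∈ J1, Function.update γ1 j (γ j) c = γ1 c := by
      intro c hc
      refine Function.update_of_ne ?_ _ _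
      rintro rfl
      exact hj1 hc
    have hs1 : ∑ c ∈ J1, Function.update γ1 j (γ j) c * t c = ∑ c ∈ J1, γ1 c * t c :=
      sum_congr rfl fun c hc => by rw [hup c hc]
    have hs2 : ∑ c ∈ J1, f c (Function.update γ1 j (γ j) c) * t' c =
        ∑ c ∈ J1, f c (γ1 c) * t' c := sum_congr rfl fun c hc => by rw [hup c hc]
    rcases Nat.lt_or_ge J1.card 2 with hlt | hge
    · refine ⟨insert j J1, insert_subset_insert j hJ1, ?_, Function.update γ1 j (γ j), ?_, ?_⟩
      · rw [card_insert_of_notMem hj1]
        omega
      · rw [sum_insert hj1, hs1, Function.update_self]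
      · rw [sum_insert hj1, hs2, Function.update_self]
    · obtain ⟨i, k, hik, rfl⟩ := card_eq_two.1 (le_antisymm hc1 hge)
      have hi0 : i ∈ J0 := hJ1 (by simp)
      have hk0 : k ∈ J0 := hJ1 (by simp)
      have hiC : i ∈ C := hJ (mem_insert_of_mem hi0)
      have hkC : k ∈ C := hJ (mem_insert_of_mem hk0)
      have hji : j ≠ i := fun h => hj (h ▸ hi0)
      have hjk : j ≠ k := fun h => hj (h ▸ hk0)
      rw [sum_pair hik, sum_pair hik]
      by_cases hti : t i = 0
      · refine ⟨{j, k}, ?_, ?_, Function.update γ1 j (γ j), ?_, ?_⟩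
        · intro x hx
          rw [mem_insert, mem_singleton] at hx
          rcases hx with rfl | rfl
          · exact mem_insert_self _ _
          · exact mem_insert_of_mem hk0
        · rw [card_pair hjk]
        · rw [sum_pair hjk, Function.update_self, Function.update_of_ne hjk.symm, hti]
          ring
        · rw [sum_pair hjk, Function.update_self, Function.update_of_ne hjk.symm,
            hzero i hiC hti]
          ring
      by_cases htk : t k = 0
      · refine ⟨{j, i}, ?_, ?_, Function.update γ1 j (γ j), ?_, ?_⟩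
        · intro x hx
          rw [mem_insert, mem_singleton] at hx
          rcases hx with rfl | rfl
          · exact mem_insert_self _ _
          · exact mem_insert_of_mem hi0
        · rw [card_pair hji]
        · rw [sum_pair hji, Function.update_self, Function.update_of_ne hji.symm, htk]
          ring
        · rw [sum_pair hji, Function.update_self, Function.update_of_ne hji.symm,
            hzero k hkC htk]
          ring
      -- merge `i` and `j`
      obtain ⟨u, hu⟩ : ∃ u : F, u = γ1 i * t i + γ j * t j := ⟨_, rfl⟩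
      obtain ⟨γs, hγs⟩ : ∃ γs : F, γs = -(av + u) / t k := ⟨_, rfl⟩
      have hγs' : γs * t k = -(av + u) := by
        rw [hγs]
        field_simp
      have hut : u / t i * t i = u := by field_simp
      have hP1 := hP {j, i, k} (by
          intro x hx
          simp only [mem_insert, mem_singleton] at hx
          rcases hx with rfl | rfl | rfl
          · exact hjC
          · exact hiC
          · exact hkC) (card_le_three) (Function.update (Function.update γ1 j (γ j)) k γs)
      have hP2 := hP {i, k} (by
          intro x hx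
          simp only [mem_insert, mem_singleton] at hx
          rcases hx with rfl | rfl
          · exact hiC
          · exact hkC) (by rw [card_pair hik]; norm_num)
          (Function.update (Function.update γ1 i (u / t i)) k γs)
      have hjik : j ∉ ({i, k} : Finset ι) := by simp [hji, hjk]
      rw [sum_insert hjik, sum_insert hjik, sum_pair hik, sum_pair hik, Function.update_self,
        Function.update_of_ne hjk, Function.update_self, Function.update_of_ne hik,
        Function.update_of_ne hji.symm] at hP1
      rw [sum_pair hik, sum_pair hik, Function.update_self, Function.update_of_ne hik,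
        Function.update_self] at hP2
      have e1 := hP1.1 (by rw [hγs', hu]; ring)
      have e2 := hP2.1 (by rw [hγs', hut]; ring)
      refine ⟨{i, k}, ?_, ?_, Function.update γ1 i (u / t i), ?_, ?_⟩
      · intro x hx
        exact mem_insert_of_mem (hJ1 hx)
      · rw [card_pair hik]
      · rw [sum_pair hik, Function.update_self, Function.update_of_ne hik.symm, hut, hu]
        ring
      · rw [sum_pair hik, Function.update_self, Function.update_of_ne hik.symm]
        linear_combination e1 - e2

/-- TREE LEMMA. If `tot a g` and `tot b (ap f g)` vanish together for all `g` of complexity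
`(4, 9)`, they vanish together for all `g`.
PROOF. If every nonzero element of `F` is `1`, then `f x` is the identity and `a = b`. Otherwise:
for `v` in the tree of `r` such that `a` vanishes outside the subtree of `v`, show by
induction on the height that `st a α v = 0 ↔ st b (ap f α) v = 0` for all `α`; `v = r` is the
claim (`tot_eq_st`). First, for local `α` of complexity `(3, 9)` this holds: extend `α` by `δ` on
the ancestors of `v` that are no roots (and `v` itself); `tot_diff` (comparison with gain
`0` at `v`, whose total is `0` as `a` vanishes outside the subtree of `v`) shows that the total is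
a nonzero multiple of the state (for `v` a root use `tot_eq_st`); complexity `(4, 9)`.
Case A: `a` vanishes outside the subtree of a child `c` of `v`: then `a v = 0`, the states at
the other children are `0`, so `st a α v = α_c * st a α c` and we use the induction
hypothesis at `c` and `f_c(α_c) = 0 ↔ α_c = 0`. Case B: for every child `c` the function `a`
does not vanish outside the subtree of `c`: by `simple_states` choose `β_c` local at `c`, of
complexity `(1, 2)`, with the same pair of states `(t_c, t'_c)` as `α`. CLAIM: for every finite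
set `J` of children and every `γ` there are `J' ⊆ J` with at most two elements and `γ'` with
`∑_J γ t = ∑_J' γ' t` and `∑_J f(γ) t' = ∑_J' f(γ') t'`. Induction on `J`: it remains to
reduce three children `i, j, k`. If one of `t_i, t_j, t_k` is zero, so is `t'` there (`state_eq`
with `k = 1`, `c = 2`) and we drop it. Otherwise let `u = γ_i t_i + γ_j t_j`,
`γ'' = u / t_i`, `γ* = -(a v + u) / t_k`. The glued functions on `{i, j, k}` with gains
`γ_i, γ_j, γ*` and on `{i, k}` with gains `γ'', γ*` have first state `0` at `v`, complexity at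
most `(3, 9)`, so their second states are `0`; subtracting,
`f_i(γ_i) t'_i + f_j(γ_j) t'_j = f_i(γ'') t'_i`. So `{i, j, k}` reduces to `{i, k}` with gains
`γ'', γ_k`. At the end the glued function on `J'` has complexity `(2, 6)` and the same states. -/
theorem tree_lemma (p : ι → ι) (dep : ι → ℕ) (hp : Forest p dep) (f : ι → F ≃ F)
    (hf : ∀ x, f x 0 = 0) (δ : ι → F) (hδ : ∀ x, δ x ≠ 0) (r : ι) (hr : dep r = 0)
    (a b : ι → F) (hab : ∀ x, a x = 0 ↔ b x = 0) (ha : ∀ x, a x ≠ 0 → p^[dep x] x = r)
    (hyp : ∀ g : ι → F, Cx p δ 4 9 g → (tot p dep a g = 0 ↔ tot p dep b (ap f g) = 0))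
    (g : ι → F) : tot p dep a g = 0 ↔ tot p dep b (ap f g) = 0 := by
  classical
  by_cases hF : ∃ μ : F, μ ≠ 0 ∧ μ ≠ 1
  swap
  · have hone : ∀ μ : F, μ ≠ 0 → μ = 1 := by
      intro μ h1
      by_contra h2
      exact hF ⟨μ, h1, h2⟩
    have hap : ap f g = g := by
      funext x
      by_cases h1 : g x = 0
      · rw [(Tree_ap f hf g x).2 h1, h1]
      · rw [hone (g x) h1, hone (ap f g x) (fun h2 => h1 ((Tree_ap f hf g x).1 h2))]
    have hab' : a = b := by
      funext x
      by_cases h1 : a x = 0
      · rw [h1, (hab x).1 h1]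
      · rw [hone (a x) h1, hone (b x) (fun h2 => h1 ((hab x).2 h2))]
    rw [hap, hab']
  have hb : ∀ x, b x ≠ 0 → a x ≠ 0 := fun x hx h => hx ((hab x).1 h)
  have key : ∀ (m : ℕ) (v : ι), univ.sup dep < dep v + m → p^[dep v] v = r →
      (∀ x, a x ≠ 0 → Below p v x) → ∀ α : ι → F,
      (st p dep a α v = 0 ↔ st p dep b (ap f α) v = 0) := by
    intro m
    induction m with
    | zero =>
      intro v hv
      have : dep v ≤ univ.sup dep := le_sup (mem_univ v)
      omega
    | succ m ih =>
      intro v hv hvr hav α
      have hch : ∀ c, p c = v → dep c ≠ 0 → dep c = dep v + 1 := by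
        intro c h1 h2
        have h3 := hp.step c h2
        rw [h1] at h3
        exact h3
      have hchr : ∀ c, p c = v → dep c ≠ 0 → p^[dep c] c = r := by
        intro c h1 h2
        rw [hch c h1 h2, Function.iterate_succ_apply, h1]
        exact hvr
      by_cases hA : ∃ c, p c = v ∧ dep c ≠ 0 ∧ ∀ x, a x ≠ 0 → Below p c x
      · obtain ⟨c, hc1, hc2, hc3⟩ := hA
        have hdc := hch c hc1 hc2
        have hst : ∀ (a' : ι → F) (α' : ι → F), (∀ x, a' x ≠ 0 → Below p c x) →
            st p dep a' α' v = α' c * st p dep a' α' c := by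
          intro a' α' ha'
          have h1 : a' v = 0 := by
            by_contra h2
            exact Tree_not p dep hp (by omega) (ha' v h2)
          rw [st_rec p dep hp, h1, zero_add]
          refine sum_eq_single_of_mem c (by simp [hc1, hc2]) ?_
          intro c' hc' hne
          rw [mem_filter] at hc'
          have h2 : st p dep a' α' c' = 0 := by
            unfold st
            refine sum_eq_zero fun x hx => ?_
            rw [mem_filter] at hx
            by_cases h3 : a' x = 0
            · rw [h3, mul_zero]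
            · exfalso
              apply hne
              refine Tree_same p dep hp hx.2 (ha' x h3) hc'.2.2 ?_
              rw [hch c' hc'.2.1 hc'.2.2, hdc]
          rw [h2, mul_zero]
        rw [hst a α hc3, hst b (ap f α) (fun x hx => hc3 x (hb x hx)), mul_eq_zero, mul_eq_zero,
          Tree_ap f hf, ih c (by omega) (hchr c hc1 hc2) hc3 α]
      · have hB : ∀ c, p c = v → dep c ≠ 0 → ∃ x, a x ≠ 0 ∧ ¬ Below p c x := by
          intro c h1 h2
          by_contra hcon
          push Not at hcon
          exact hA ⟨c, h1, h2, hcon⟩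
        obtain ⟨C, hC⟩ : ∃ C : Finset ι, C = univ.filter (fun c => p c = v ∧ dep c ≠ 0) :=
          ⟨_, rfl⟩
        have hmem : ∀ c, c ∈ C ↔ p c = v ∧ dep c ≠ 0 := by
          intro c
          rw [hC, mem_filter]
          exact and_iff_right (mem_univ c)
        have hβ : ∀ c, ∃ β : ι → F, c ∈ C → (Loc p c β ∧ Cx p δ 1 2 β ∧
            st p dep a β c = st p dep a α c ∧
            st p dep b (ap f β) c = st p dep b (ap f α) c) := by
          intro c
          by_cases h1 : c ∈ C
          · obtain ⟨h2, h3⟩ := (hmem c).1 h1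
            obtain ⟨x, hx, hxc⟩ := hB c h2 h3
            obtain ⟨β, hβ⟩ := simple_states p dep hp f hf δ hδ hF r hr a b hab ha hyp x hx c h3
              (hchr c h2 h3) hxc α
            exact ⟨β, fun _ => hβ⟩
          · exact ⟨α, fun h => absurd h h1⟩
        choose β hβ using hβ
        have hzero : ∀ c ∈ C, st p dep a α c = 0 → st p dep b (ap f α) c = 0 := by
          intro c h1 h0
          obtain ⟨h2, h3⟩ := (hmem c).1 h1
          obtain ⟨x, hx, hxc⟩ := hB c h2 h3
          obtain ⟨e1, e2, e3, e4⟩ := hβ c h1
          have h4 := (state_eq p dep hp f hf δ hδ hF r hr a b hab ha 4 9 1 2 (by norm_num)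
            (by norm_num) hyp c h3 (hchr c h2 h3) x hx hxc (β c) (β c) e1 e1 e2 e2 rfl).2
          rw [e3, e4] at h4
          exact h4 h0
        have hP : ∀ J ⊆ C, J.card ≤ 3 → ∀ γ : ι → F,
            (a v + ∑ c ∈ J, γ c * st p dep a α c = 0 ↔
              b v + ∑ c ∈ J, f c (γ c) * st p dep b (ap f α) c = 0) := by
          intro J hJ hJ3 γ
          obtain ⟨G, -, g2, g3, g4⟩ := exists_glue p dep hp f hf δ a b v J
            (fun c hc => (hmem c).1 (hJ hc)) γ β (fun c hc => (hβ c (hJ hc)).1) 1 2 le_rfl
            (fun c hc => (hβ c (hJ hc)).2.1)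
          have h5 := Tree_local p dep hp f hf δ hδ r a b hab ha hyp v hvr hav G
            (Tree_cx p δ g2 (by omega) (by omega))
          rw [g3, g4] at h5
          have e1 : ∑ j ∈ J, γ j * st p dep a (β j) j = ∑ j ∈ J, γ j * st p dep a α j :=
            sum_congr rfl fun c hc => by rw [(hβ c (hJ hc)).2.2.1]
          have e2 : ∑ j ∈ J, f j (γ j) * st p dep b (ap f (β j)) j =
              ∑ j ∈ J, f j (γ j) * st p dep b (ap f α) j :=
            sum_congr rfl fun c hc => by rw [(hβ c (hJ hc)).2.2.2]
          rw [e1, e2] at h5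
          exact h5
        obtain ⟨J', hJ', hc', γ', h1, h2⟩ := Tree_reduce f (fun c => st p dep a α c)
          (fun c => st p dep b (ap f α) c) (a v) (b v) C hzero hP α C subset_rfl
        have h3 := hP J' hJ' (by omega) γ'
        rw [← h1, ← h2] at h3
        rw [st_rec p dep hp a α v, st_rec p dep hp b (ap f α) v, ← hC]
        exact h3
  have hr0 : p^[dep r] r = r := by rw [hr]; rfl
  have h1 := key (univ.sup dep + 1) r (by omega) hr0 (fun x hx => ⟨dep x, ha x hx⟩) g
  rw [tot_eq_st p dep hp a g r hr ha,
    tot_eq_st p dep hp b (ap f g) r hr (fun x hx => ha x (hb x hx))]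
  exact h1

end Pool.Agent.H.MP_9123af_lc.Fl
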